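import Mathlib

/-!
# Combinatorial lemmas
-/

set_option autoImplicit false

namespace Pool.Agent.V7H69.KS

open Finset

/-- A finite set can be divided into `n` parts of almost the same size. -/
theorem exists_parts (Z : Finset ℕ) {n : ℕ} (hn : 0 < n) :
    ∃ p : ℕ → Fin n, ∀ t, (Z.filter fun z => p z = t).card ≤ Z.card / n + 1 := by
  classical
  set s := Z.card / n + 1 with hs
  have hs0 : 0 < s := Nat.succ_pos _
  let rk : ℕ → ℕ := fun z => (Z.filter (· < z)).card
  have hrk : ∀ z ∈ Z, rk z < Z.card := by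
    intro z hz
    apply card_lt_card
    rw [ssubset_iff_of_subset (filter_subset _ _)]
    exact ⟨z, hz, by simp⟩
  have hlt : ∀ z ∈ Z, rk z / s < n := by
    intro z hz
    rw [Nat.div_lt_iff_lt_mul hs0]
    have h1 := hrk z hz
    have h2 : Z.card < n * (Z.card / n + 1) := Nat.lt_mul_div_succ _ hn
    exact h1.trans h2
  have hinj : ∀ z ∈ Z, ∀ z' ∈ Z, rk z = rk z' → z = z' := by
    have key : ∀ z ∈ Z, ∀ z', z < z' → rk z < rk z' := by
      intro z hz z' hzz
      apply card_lt_card
      rw [ssubset_iff_of_subset (fun x hx => by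
        rw [mem_filter] at hx ⊢
        exact ⟨hx.1, hx.2.trans hzz⟩)]
      exact ⟨z, by simp [hz, hzz], by simp⟩
    intro z hz z' hz' h
    rcases lt_trichotomy z z' with h1 | h1 | h1
    · exact absurd h (key z hz z' h1).ne
    · exact h1
    · exact absurd h.symm (key z' hz' z h1).ne
  refine ⟨fun z => if h : rk z / s < n then ⟨rk z / s, h⟩ else ⟨0, hn⟩, fun t => ?_⟩
  have h1 : (Z.filter fun z => (if h : rk z / s < n then (⟨rk z / s, h⟩ : Fin n) else ⟨0, hn⟩) = t).card
      ≤ (Ico (t * s : ℕ) (t * s + s)).card := by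
    refine card_le_card_of_injOn rk ?_ ?_
    · intro z hz
      simp only [coe_filter, Set.mem_ofPred_eq] at hz
      obtain ⟨hz1, hz2⟩ := hz
      rw [dif_pos (hlt z hz1)] at hz2
      have h3 : rk z / s = t := congrArg Fin.val hz2
      have h4 := Nat.div_add_mod (rk z) s
      have h5 := Nat.mod_lt (rk z) hs0
      rw [h3, mul_comm] at h4
      simp only [coe_Ico, Set.mem_Ico]
      omega
    · intro z hz z' hz' h
      simp only [coe_filter, Set.mem_ofPred_eq] at hz hz'
      exact hinj z hz.1 z' hz'.1 h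
  refine h1.trans ?_
  simp

/-- If many sets are small subsets of `Z`, then many of them are contained in a small part of `Z`. -/
theorem exists_part {α : Type} [DecidableEq α] (S : Finset α) (U : α → Finset ℕ) (Z : Finset ℕ)
    {n Q M : ℕ} (hn : 0 < n) (hU : ∀ a ∈ S, U a ⊆ Z ∧ (U a).card ≤ Q) (hS : n ^ Q * M ≤ S.card) :
    ∃ Pt : Finset ℕ, Pt.card ≤ Q * (Z.card / n + 1) ∧ M ≤ (S.filter fun a => U a ⊆ Pt).card := by
  classical
  obtain ⟨p, hp⟩ := exists_parts Z hn
  let f : α → Fin Q → Fin n := fun a i => ((U a).toList[(i : ℕ)]?).elim ⟨0, hn⟩ p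
  obtain ⟨y, -, hy⟩ := exists_le_card_fiber_of_mul_le_card_of_maps_to
    (s := S) (t := (univ : Finset (Fin Q → Fin n))) (f := f) (n := M) (fun a _ => mem_univ _)
    ⟨fun _ => ⟨0, hn⟩, mem_univ _⟩ (by simpa using hS)
  refine ⟨univ.biUnion fun i => Z.filter fun z => p z = y i, ?_, ?_⟩
  · refine (card_biUnion_le_card_mul univ _ _ fun i _ => hp (y i)).trans ?_
    simp
  · refine hy.trans (card_le_card ?_)
    intro a ha
    rw [mem_filter] at ha ⊢
    refine ⟨ha.1, ?_⟩
    intro z hz
    rw [mem_biUnion]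
    have h1 : z ∈ (U a).toList := mem_toList.2 hz
    obtain ⟨i, hi, h2⟩ := List.mem_iff_getElem.1 h1
    have h3 : i < Q := by
      rw [length_toList] at hi
      exact hi.trans_le (hU a ha.1).2
    refine ⟨⟨i, h3⟩, mem_univ _, mem_filter.2 ⟨(hU a ha.1).1 hz, ?_⟩⟩
    rw [← ha.2]
    simp only [f]
    rw [List.getElem?_eq_getElem hi, h2]
    rfl

/-- If the sets `U e a` are disjoint for different `e` and not too large, then for some `e` at least
half of the `a` have a small set `U e a`. -/
theorem exists_level {α : Type} [Fintype α] [Nonempty α] (E q Q : ℕ) (U : ℕ → α → Finset ℕ)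
    (V : α → Finset ℕ) (hV : ∀ a, (V a).card ≤ q) (hUV : ∀ e < E, ∀ a, U e a ⊆ V a)
    (hdis : ∀ e < E, ∀ e' < E, e < e' → ∀ a, Disjoint (U e a) (U e' a))
    (hq : 2 * q < E * (Q + 1)) :
    ∃ e < E, Fintype.card α ≤ 2 * (univ.filter fun a => (U e a).card ≤ Q).card := by
  classical
  by_contra hcon
  push Not at hcon
  have h1 : ∀ a, ∑ e ∈ range E, (U e a).card ≤ q := by
    intro a
    rw [← card_biUnion]
    · refine (card_le_card ?_).trans (hV a)
      intro z hz
      rw [mem_biUnion] at hz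
      obtain ⟨e, he, hz⟩ := hz
      exact hUV e (mem_range.1 he) a hz
    · intro e he e' he' hne
      rcases Nat.lt_or_gt_of_ne hne with h | h
      · exact hdis e (mem_range.1 he) e' (mem_range.1 he') h a
      · exact (hdis e' (mem_range.1 he') e (mem_range.1 he) h a).symm
  have h2 : ∀ e ∈ range E, (Q + 1) * Fintype.card α ≤ 2 * ∑ a, (U e a).card := by
    intro e he
    have h3 := hcon e (mem_range.1 he)
    have h4 : (univ.filter fun a => (U e a).card ≤ Q).card +
        (univ.filter fun a => ¬ (U e a).card ≤ Q).card = Fintype.card α := by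
      rw [card_filter_add_card_filter_not]
      rfl
    have h5 : (univ.filter fun a => ¬ (U e a).card ≤ Q).card * (Q + 1) ≤ ∑ a, (U e a).card := by
      rw [← smul_eq_mul]
      refine (card_nsmul_le_sum _ _ _ ?_).trans (sum_le_sum_of_subset (subset_univ _))
      intro a ha
      rw [mem_filter] at ha
      omega
    nlinarith
  have h6 : E * ((Q + 1) * Fintype.card α) ≤ 2 * (Fintype.card α * q) := by
    have h7 := sum_le_sum h2
    rw [sum_const, card_range, smul_eq_mul, ← mul_sum, sum_comm] at h7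
    refine h7.trans (Nat.mul_le_mul_left _ ?_)
    refine (sum_le_sum fun a _ => h1 a).trans ?_
    simp
  have h8 : 0 < Fintype.card α := Fintype.card_pos
  nlinarith

/-- Counting with codes. -/
theorem card_codes {X w : ℕ} {Code : Type} [Fintype Code] [DecidableEq Code]
    (Bad : Finset (Fin X → Fin w → Bool)) (c : (Fin X → Fin w → Bool) → Code)
    (Hs : Code → Finset (Fin X)) (θ : ℕ) (hθ : ∀ b ∈ Bad, θ ≤ (Hs (c b)).card)
    (h : ∀ b ∈ Bad, ∀ b' ∈ Bad, c b = c b' → (∀ x ∉ Hs (c b), b x = b' x) → b = b') :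
    Bad.card ≤ (2 ^ w) ^ (X - θ) * Fintype.card Code := by
  classical
  refine (card_le_mul_card_image (f := c) Bad ((2 ^ w) ^ (X - θ)) ?_).trans
    (Nat.mul_le_mul_left _ (card_le_univ _))
  intro k hk
  rw [mem_image] at hk
  obtain ⟨b0, hb0, rfl⟩ := hk
  let r : (Fin X → Fin w → Bool) → ({x // x ∉ Hs (c b0)} → Fin w → Bool) := fun b x => b x.1
  have h1 : (Bad.filter fun b => c b = c b0).card ≤
      (univ : Finset ({x // x ∉ Hs (c b0)} → Fin w → Bool)).card := by
    refine card_le_card_of_injOn r (fun _ _ => mem_coe.2 (mem_univ _)) ?_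
    intro b hb b' hb' e
    simp only [coe_filter, Set.mem_ofPred_eq] at hb hb'
    refine h b hb.1 b' hb'.1 (by rw [hb.2, hb'.2]) ?_
    intro x hx
    rw [hb.2] at hx
    exact congrFun e ⟨x, hx⟩
  refine h1.trans ?_
  have h2 : Fintype.card {x // x ∉ Hs (c b0)} = X - (Hs (c b0)).card := by
    rw [Fintype.card_subtype_compl, Fintype.card_fin]
    simp
  have h3 : Fintype.card ({x // x ∉ Hs (c b0)} → Fin w → Bool) =
      (2 ^ w) ^ (X - (Hs (c b0)).card) := by
    rw [Fintype.card_fun, Fintype.card_fun, h2]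
    simp
  rw [card_univ, h3]
  refine Nat.pow_le_pow_right (by positivity) ?_
  have := hθ b0 hb0
  omega

end Pool.Agent.V7H69.KS
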