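import Pool.Agent.V7H69.KS.Local
import Pool.Agent.V7H69.KS.Comb

/-!
# The core of the lower bound
-/

set_option autoImplicit false
set_option linter.unusedSimpArgs false
set_option linter.unusedVariables false
set_option linter.unusedSectionVars false

namespace Pool.Agent.V7H69.KS

open Finset

section enc

variable {L : Type} [Fintype L]

/-- Numbers less than `A`. -/
def toFin {A : ℕ} (hA : 0 < A) (z : ℕ) : Fin A := ⟨z % A, Nat.mod_lt _ hA⟩

theorem toFin_inj {A : ℕ} (hA : 0 < A) {z z' : ℕ} (h : z < A) (h' : z' < A)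
    (e : toFin hA z = toFin hA z') : z = z' := by
  have := congrArg Fin.val e
  simp only [toFin] at this
  rwa [Nat.mod_eq_of_lt h, Nat.mod_eq_of_lt h'] at this

/-- The data of a part of a graph. -/
noncomputable def encY {A : ℕ} (hA : 0 < A) (ym : ℕ) (Y : Finset ℕ) (adj : Adj L) :
    Fin ym → Option (Fin A × (L → Option (Fin A × L))) := fun i =>
  (Y.toList[(i : ℕ)]?).map fun z => (toFin hA z, fun x => (adj (z, x)).map fun p =>
    (toFin hA p.1, p.2))

theorem encY_eq {A : ℕ} (hA : 0 < A) {ym : ℕ} {Y Y' : Finset ℕ} {adj adj' : Adj L}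
    (h : encY hA ym Y adj = encY hA ym Y' adj') (hY : Y.card ≤ ym)
    (h1 : ∀ z ∈ Y, z < A) (h1' : ∀ z ∈ Y', z < A) (h2 : Below A adj) (h2' : Below A adj') :
    ∀ z ∈ Y, z ∈ Y' ∧ ∀ x, adj (z, x) = adj' (z, x) := by
  intro z hz
  have h3 : z ∈ Y.toList := mem_toList.2 hz
  obtain ⟨i, hi, h4⟩ := List.mem_iff_getElem.1 h3
  have h5 : i < ym := by
    rw [length_toList] at hi
    exact hi.trans_le hY
  have h6 := congrFun h ⟨i, h5⟩
  simp only [encY] at h6
  rw [List.getElem?_eq_getElem hi, h4] at h6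
  simp only [Option.map_some] at h6
  cases h7 : Y'.toList[i]? with
  | none =>
    rw [h7] at h6
    simp at h6
  | some z' =>
    rw [h7] at h6
    simp only [Option.map_some, Option.some.injEq, Prod.mk.injEq] at h6
    obtain ⟨h8, h9⟩ := h6
    have h10 : z' ∈ Y' := mem_toList.1 (List.mem_of_getElem? h7)
    have h11 : z = z' := toFin_inj hA (h1 z hz) (h1' z' h10) h8
    subst h11
    refine ⟨h10, fun x => ?_⟩
    have h12 := congrFun h9 x
    cases e1 : adj (z, x) with
    | none =>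
      cases e2 : adj' (z, x) with
      | none => rfl
      | some b => rw [e1, e2] at h12; simp at h12
    | some a =>
      cases e2 : adj' (z, x) with
      | none => rw [e1, e2] at h12; simp at h12
      | some b =>
        rw [e1, e2] at h12
        simp only [Option.map_some, Option.some.injEq, Prod.mk.injEq] at h12
        have := toFin_inj hA (h2 _ _ e1) (h2' _ _ e2) h12.1
        rw [Option.some.injEq]
        exact Prod.ext this h12.2

end enc

variable {K : KUM} {g : ℕ} {c0 : KConf K.L K.Q} {P : Par}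

/-- The contents. -/
abbrev Ct (P : Par) : Type := Fin P.X → Fin P.w → Bool

/-- Extension to all numbers. -/
def ext (b : Ct P) (x j : ℕ) : Bool :=
  if h : x < P.X ∧ j < P.w then b ⟨x, h.1⟩ ⟨j, h.2⟩ else false

/-- The codes. -/
abbrev Code (K : KUM) (P : Par) (A ym θ : ℕ) : Type :=
  K.Q × Fin A × Fin A × (Fin ym → Option (Fin A × (K.L → Option (Fin A × K.L)))) ×
    (Fin θ → Fin (2 ^ P.na) × Fin P.kp)

/-- The number of codes. -/
def nCode (K : KUM) (P : Par) (A ym θ : ℕ) : ℕ :=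
  Fintype.card K.Q * (A * (A * ((A * (A * Fintype.card K.L + 1) ^ Fintype.card K.L + 1) ^ ym *
    (2 ^ P.na * P.kp) ^ θ)))

/-- The bound for `cT`. -/
def tb (K : KUM) (g : ℕ) (P : Par) (n : ℕ) : ℕ := gam K g * (n * P.w * (P.LX + P.sw + 3)) + 1

/-- The property of a content used for the coding. -/
def IsBad (g : ℕ) (c0 : KConf K.L K.Q) (Q μ : ℕ) (N θ : ℕ → ℕ) (e : ℕ) (b : Ct P) : Prop :=
  ∃ (Pt : Finset ℕ) (h : Fin (θ e) → Fin (2 ^ P.na) × Fin P.kp),
    Pt.card ≤ Q * ((nbh g c0 P (ext b) (cT g c0 P (ext b) (N (e + 1)))).card / μ + 1) ∧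
    (∀ i, cK g c0 P (ext b) (N e) (N (e + 1)) (h i).1 ⊆ Pt) ∧
    Function.Injective fun i => P.G (h i).1 e (h i).2

theorem card_nbh_le (b : ℕ → ℕ → Bool) {S : Finset ℕ} {n : ℕ} (h : S.card ≤ n) :
    (nbh g c0 P b S).card ≤ (1 + Fintype.card K.L) ^ rad g P K * n :=
  (card_nbh b S).trans (Nat.mul_le_mul_left _ h)

/-- The number of the contents with this property. -/
theorem card_bad (H : Hyp K g c0) {Q μ A : ℕ} {N θ : ℕ → ℕ} {e ym : ℕ} (he : e < P.E)
    (hNX : N (e + 1) ≤ P.X)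
    (hG : ∀ a < 2 ^ P.na, ∀ v < P.kp, P.G a e v < N (e + 1))
    (hA : ∀ b, (cfin g c0 P b).fresh < A)
    (hym : (1 + Fintype.card K.L) ^ rad g P K *
        ((1 + Fintype.card K.L) ^ rad g P K * tb K g P (N e)) +
      (1 + Fintype.card K.L) ^ rad g P K *
        (Q * ((1 + Fintype.card K.L) ^ rad g P K * tb K g P (N (e + 1)) / μ + 1)) ≤ ym)
    (Bad : Finset (Ct P)) (hBad : ∀ b ∈ Bad, IsBad g c0 Q μ N θ e b) :
    Bad.card ≤ (2 ^ P.w) ^ (P.X - θ e) * nCode K P A ym (θ e) := by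
  classical
  have hA0 : 0 < A := (Nat.zero_le _).trans_lt (hA fun _ _ => false)
  by_cases hne : Bad.Nonempty
  swap
  · rw [not_nonempty_iff_eq_empty] at hne
    simp [hne]
  obtain ⟨b1, hb1⟩ := hne
  have hch : ∀ b : Ct P, ∃ (Pt : Finset ℕ) (h : Fin (θ e) → Fin (2 ^ P.na) × Fin P.kp), b ∈ Bad →
    (Pt.card ≤ Q * ((nbh g c0 P (ext b) (cT g c0 P (ext b) (N (e + 1)))).card / μ + 1) ∧
    (∀ i, cK g c0 P (ext b) (N e) (N (e + 1)) (h i).1 ⊆ Pt) ∧
    Function.Injective fun i => P.G (h i).1 e (h i).2) := by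
    intro b
    by_cases hb : b ∈ Bad
    · obtain ⟨Pt, h, h1⟩ := hBad b hb
      exact ⟨Pt, h, fun _ => h1⟩
    · obtain ⟨Pt, h, h1⟩ := hBad b1 hb1
      exact ⟨Pt, h, fun h2 => absurd h2 hb⟩
  choose Pt hs hPt using hch
  let c : Ct P → Code K P A ym (θ e) := fun b =>
    ((cfin g c0 P (ext b)).q, toFin hA0 (cfin g c0 P (ext b)).head,
      toFin hA0 (cfin g c0 P (ext b)).fresh,
      encY hA0 ym (cY g c0 P (ext b) (N e) (Pt b)) (cfin g c0 P (ext b)).adj, hs b)
  let Hs : Code K P A ym (θ e) → Finset (Fin P.X) := fun k =>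
    univ.image fun i => ⟨P.G (k.2.2.2.2 i).1 e (k.2.2.2.2 i).2,
      (P.hG _ (k.2.2.2.2 i).1.2 e he _ (k.2.2.2.2 i).2.2)⟩
  have hcard : Fintype.card (Code K P A ym (θ e)) = nCode K P A ym (θ e) := by
    simp only [Code, nCode, Fintype.card_prod, Fintype.card_fun, Fintype.card_fin,
      Fintype.card_option]
  have hYc : ∀ b ∈ Bad, (cY g c0 P (ext b) (N e) (Pt b)).card ≤ ym := by
    intro b hb
    obtain ⟨k1, k2, k3⟩ := hPt b hb
    refine le_trans ?_ hym
    unfold cY
    refine (card_filter_le _ _).trans ((card_union_le _ _).trans (Nat.add_le_add ?_ ?_))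
    · exact card_nbh_le _ (card_nbh_le _ (card_cT _ _))
    · refine card_nbh_le _ (k1.trans (Nat.mul_le_mul_left _ (Nat.add_le_add_right ?_ _)))
      exact Nat.div_le_div_right (card_nbh_le _ (card_cT _ _))
  rw [← hcard]
  refine card_codes Bad c Hs (θ e) ?_ ?_
  · intro b hb
    obtain ⟨k1, k2, k3⟩ := hPt b hb
    simp only [Hs, c]
    rw [card_image_of_injective]
    · simp
    · intro i i' hi
      exact k3 (congrArg Fin.val hi)
  · intro b hb b' hb' hc hag
    obtain ⟨k1, k2, k3⟩ := hPt b hb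
    obtain ⟨k1', k2', k3'⟩ := hPt b' hb'
    simp only [c, Prod.mk.injEq] at hc
    obtain ⟨c1, c2, c3, c4, c5⟩ := hc
    have hg := good_fin (g := g) (P := P) H.good (ext b)
    have hg' := good_fin (g := g) (P := P) H.good (ext b')
    have hf : (cfin g c0 P (ext b)).fresh = (cfin g c0 P (ext b')).fresh :=
      toFin_inj hA0 (hA _) (hA _) c3
    have hh : (cfin g c0 P (ext b)).head = (cfin g c0 P (ext b')).head :=
      toFin_inj hA0 (hg.head_lt.trans (hA _)) (hg'.head_lt.trans (hA _)) c2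
    have hlt : ∀ (b : Ct P), ∀ z ∈ cY g c0 P (ext b) (N e) (Pt b), z < A := by
      intro b z hz
      unfold cY at hz
      exact (mem_filter.1 hz).2.trans (hA _)
    have hbel : ∀ (b : Ct P), Below A (cfin g c0 P (ext b)).adj := by
      intro b x y hxy
      exact ((good_fin H.good (ext b)).below _ _ hxy).trans (hA _)
    have hY := encY_eq hA0 c4 (hYc b hb) (hlt b) (hlt b') (hbel b) (hbel b')
    have hY' := encY_eq hA0 c4.symm (hYc b' hb') (hlt b') (hlt b) (hbel b') (hbel b)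
    have hagree : ∀ x, N (e + 1) ≤ x → ext b x = ext b' x := by
      intro x hx
      funext j
      unfold ext
      by_cases h : x < P.X ∧ j < P.w
      · rw [dif_pos h, dif_pos h]
        have : (⟨x, h.1⟩ : Fin P.X) ∉ Hs (c b) := by
          simp only [Hs, c, mem_image, mem_univ, true_and, not_exists]
          intro i hi
          have h1 := congrArg Fin.val hi
          simp only at h1
          have h2 := hG _ (hs b i).1.2 _ (hs b i).2.2
          omega
        exact congrFun (hag _ this) _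
      · rw [dif_neg h, dif_neg h]
    funext x
    by_cases hx : x ∈ Hs (c b)
    · simp only [Hs, c, mem_image, mem_univ, true_and] at hx
      obtain ⟨i, hi⟩ := hx
      funext j
      have h1 := two_contents H (n := N e) (a := ((hs b i).1 : ℕ)) (e := e)
        (v := ((hs b i).2 : ℕ)) (j := j) hNX hagree c1 hh hf (k2 i)
        (by rw [c5]; exact k2' i) hY (fun z hz => (hY' z hz).1) (hs b i).1.2 he (hs b i).2.2 j.2
      have h2 : P.G (hs b i).1 e (hs b i).2 = x := congrArg Fin.val hi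
      rw [h2] at h1
      simpa [ext] using h1
    · exact hag x hx

/-- Every content has the property for some system. -/
theorem exists_bad (H : Hyp K g c0) {Q μ : ℕ} {N θ M : ℕ → ℕ} (hμ : 0 < μ)
    (hN : ∀ e < P.E, N e ≤ N (e + 1)) (hNX : ∀ e < P.E, N (e + 1) ≤ P.X)
    (hdisp : ∀ e < P.E, ∀ S : Finset ℕ, S.card < θ e →
      (univ.filter fun a : Fin (2 ^ P.na) => ∀ v < P.kp, P.G a e v ∈ S).card < M e)
    (hQE : 2 * (gam K g * (P.na + 2) + 1) < P.E * (Q + 1))
    (hpig : ∀ e < P.E, 2 * (μ ^ Q * M e) ≤ 2 ^ P.na) (b : Ct P) :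
    ∃ e < P.E, IsBad g c0 Q μ N θ e b := by
  classical
  have hmono : ∀ d e, e + d < P.E + 1 → N e ≤ N (e + d) := by
    intro d
    induction d with
    | zero => intro e _; exact le_rfl
    | succ d ih =>
      intro e he
      exact (ih e (by omega)).trans (hN (e + d) (by omega))
  obtain ⟨e, he, h1⟩ := exists_level (α := Fin (2 ^ P.na)) P.E (gam K g * (P.na + 2) + 1) Q
    (fun e a => cK g c0 P (ext b) (N e) (N (e + 1)) a) (fun a => cV g c0 P (ext b) a)
    (fun a => card_cV _ _) (fun e _ a => filter_subset _ _) (by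
      intro e he e' he' hlt a
      rw [disjoint_left]
      intro z hz hz'
      unfold cK at hz hz'
      rw [mem_filter] at hz hz'
      refine hz'.2.2 (nbh_mono _ (cT_mono H.good _ ?_ ?_) hz.2.1)
      · obtain ⟨d, rfl⟩ := Nat.exists_eq_add_of_le (show e + 1 ≤ e' by omega)
        exact hmono d (e + 1) (by omega)
      · exact (hN e' he').trans (hNX e' he')) hQE
  refine ⟨e, he, ?_⟩
  rw [Fintype.card_fin] at h1
  set S := univ.filter fun a : Fin (2 ^ P.na) =>
    (cK g c0 P (ext b) (N e) (N (e + 1)) a).card ≤ Q with hS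
  obtain ⟨Pt, h2, h3⟩ := exists_part S (fun a => cK g c0 P (ext b) (N e) (N (e + 1)) a)
    (nbh g c0 P (ext b) (cT g c0 P (ext b) (N (e + 1)))) (M := M e) hμ (by
      intro a ha
      rw [hS, mem_filter] at ha
      refine ⟨?_, ha.2⟩
      intro z hz
      unfold cK at hz
      exact (mem_filter.1 hz).2.1) (by
      have := hpig e he
      omega)
  -- the hubs that are reached
  set W : Finset ℕ := (S.filter fun a : Fin (2 ^ P.na) =>
    cK g c0 P (ext b) (N e) (N (e + 1)) a ⊆ Pt).biUnion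
    fun a : Fin (2 ^ P.na) => (range P.kp).image fun v => P.G a e v with hW
  have h4 : θ e ≤ W.card := by
    by_contra hcon
    have h5 := hdisp e he W (by omega)
    refine absurd h3 (not_le.2 (lt_of_le_of_lt (card_le_card ?_) h5))
    intro a ha
    rw [mem_filter]
    refine ⟨mem_univ _, fun v hv => ?_⟩
    rw [hW, mem_biUnion]
    exact ⟨a, ha, mem_image_of_mem _ (mem_range.2 hv)⟩
  obtain ⟨W', hW', hW'c⟩ := exists_subset_card_eq h4
  have h6 : ∀ i : Fin (θ e), ∃ p : Fin (2 ^ P.na) × Fin P.kp,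
      cK g c0 P (ext b) (N e) (N (e + 1)) p.1 ⊆ Pt ∧
        P.G p.1 e p.2 = W'.orderEmbOfFin hW'c i := by
    intro i
    have h7 := hW' (orderEmbOfFin_mem W' hW'c i)
    rw [hW, mem_biUnion] at h7
    obtain ⟨a, ha, h8⟩ := h7
    rw [mem_image] at h8
    obtain ⟨v, hv, h9⟩ := h8
    exact ⟨(a, ⟨v, mem_range.1 hv⟩), (mem_filter.1 ha).2, h9⟩
  choose h h7 h8 using h6
  refine ⟨Pt, h, h2, h7, ?_⟩
  intro i i' hi
  simp only [h8] at hi
  exact (W'.orderEmbOfFin hW'c).injective hi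

/-- The core of the proof. -/
theorem core (H : Hyp K g c0) {Q μ A : ℕ} {N θ M ym : ℕ → ℕ} (hμ : 0 < μ)
    (hN : ∀ e < P.E, N e ≤ N (e + 1)) (hNX : ∀ e < P.E, N (e + 1) ≤ P.X)
    (hG : ∀ a < 2 ^ P.na, ∀ e < P.E, ∀ v < P.kp, P.G a e v < N (e + 1))
    (hdisp : ∀ e < P.E, ∀ S : Finset ℕ, S.card < θ e →
      (univ.filter fun a : Fin (2 ^ P.na) => ∀ v < P.kp, P.G a e v ∈ S).card < M e)
    (hQE : 2 * (gam K g * (P.na + 2) + 1) < P.E * (Q + 1))
    (hpig : ∀ e < P.E, 2 * (μ ^ Q * M e) ≤ 2 ^ P.na)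
    (hA : ∀ b, (cfin g c0 P b).fresh < A)
    (hym : ∀ e < P.E, (1 + Fintype.card K.L) ^ rad g P K *
        ((1 + Fintype.card K.L) ^ rad g P K * tb K g P (N e)) +
      (1 + Fintype.card K.L) ^ rad g P K *
        (Q * ((1 + Fintype.card K.L) ^ rad g P K * tb K g P (N (e + 1)) / μ + 1)) ≤ ym e)
    (hθ : ∀ e < P.E, θ e ≤ P.X)
    (hcount : ∀ e < P.E, P.E * nCode K P A (ym e) (θ e) < (2 ^ P.w) ^ θ e) : False := by
  classical
  let Bad : ℕ → Finset (Ct P) := fun e => univ.filter fun b => IsBad g c0 Q μ N θ e b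
  have h1 : (univ : Finset (Ct P)) ⊆ (range P.E).biUnion Bad := by
    intro b _
    obtain ⟨e, he, h⟩ := exists_bad H hμ hN hNX hdisp hQE hpig b
    rw [mem_biUnion]
    exact ⟨e, mem_range.2 he, mem_filter.2 ⟨mem_univ _, h⟩⟩
  have h2 := (card_le_card h1).trans card_biUnion_le
  have h3 : ∀ e ∈ range P.E, P.E * (Bad e).card < (2 ^ P.w) ^ P.X := by
    intro e he
    rw [mem_range] at he
    have h4 := card_bad H he (hNX e he) (fun a ha v hv => hG a ha e he v hv) hA (hym e he)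
      (Bad e) (fun b hb => (mem_filter.1 hb).2)
    have h5 : 0 < (2 ^ P.w) ^ (P.X - θ e) := by positivity
    calc P.E * (Bad e).card ≤ P.E * ((2 ^ P.w) ^ (P.X - θ e) * nCode K P A (ym e) (θ e)) :=
          Nat.mul_le_mul_left _ h4
      _ = (2 ^ P.w) ^ (P.X - θ e) * (P.E * nCode K P A (ym e) (θ e)) := by ring
      _ < (2 ^ P.w) ^ (P.X - θ e) * (2 ^ P.w) ^ θ e :=
          Nat.mul_lt_mul_of_pos_left (hcount e he) h5
      _ = (2 ^ P.w) ^ P.X := by
          rw [← pow_add]
          congr 1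
          have := hθ e he
          omega
  have hE : 0 < P.E := by
    rcases Nat.eq_zero_or_pos P.E with h | h
    · rw [h, zero_mul] at hQE
      exact absurd hQE (Nat.not_lt_zero _)
    · exact h
  have h6 : (univ : Finset (Ct P)).card = (2 ^ P.w) ^ P.X := by simp
  rw [h6] at h2
  have h7 : P.E * ∑ e ∈ range P.E, (Bad e).card < P.E * (2 ^ P.w) ^ P.X := by
    rw [mul_sum]
    calc ∑ e ∈ range P.E, P.E * (Bad e).card < ∑ e ∈ range P.E, (2 ^ P.w) ^ P.X :=
          sum_lt_sum_of_nonempty ⟨0, mem_range.2 hE⟩ h3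
      _ = P.E * (2 ^ P.w) ^ P.X := by simp
  exact absurd h2 (not_le.2 (Nat.lt_of_mul_lt_mul_left h7))

end Pool.Agent.V7H69.KS
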