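import Mathlib

/-!
# Storage modification machines and Kolmogorov-Uspenskii machines: definitions

On-line machines, real-time simulation, storage modification machines (Schönhage) and
Kolmogorov-Uspenskii machines.
-/

set_option autoImplicit false

namespace Pool.Agent.V7H69.KS

/-- What a machine does in one step: an internal step, the output of a bit, or the input of a bit
(then the next configuration depends on this bit). -/
inductive Act (C : Type) where
  /-- an internal step -/
  | tau : C → Act C
  /-- the output of a bit -/
  | out : Bool → C → Act C
  /-- the input of a bit -/
  | inp : (Bool → C) → Act C

/-- A deterministic on-line machine, given by its configurations. -/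
structure Dev where
  /-- the configurations -/
  C : Type
  /-- the initial configuration -/
  init : C
  /-- the step made in a configuration -/
  step : C → Act C

namespace Dev

variable (M : Dev)

/-- The configuration and the number of input bits which have been read, one step later; `s` is the
input stream. -/
def next (s : ℕ → Bool) (x : M.C × ℕ) : M.C × ℕ :=
  match M.step x.1 with
  | .tau c => (c, x.2)
  | .out _ c => (c, x.2)
  | .inp f => (f (s x.2), x.2 + 1)

/-- The configuration and the number of input bits which have been read, after `t` steps on the
input stream `s`. -/
def run (s : ℕ → Bool) : ℕ → M.C × ℕ
  | 0 => (M.init, 0)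
  | t + 1 => M.next s (run s t)

/-- What can be seen from outside of the step made in the configuration `c`: `none` for an internal
step, `some none` for the input of a bit, `some (some b)` for the output of the bit `b`. -/
def event (c : M.C) : Option (Option Bool) :=
  match M.step c with
  | .tau _ => none
  | .out b _ => some (some b)
  | .inp _ => some none

/-- The list of the inputs and outputs made in the steps `a, a + 1, …, b - 1` on the input stream
`s`. -/
def events (s : ℕ → Bool) (a b : ℕ) : List (Option Bool) :=
  (List.range' a (b - a)).filterMap fun t => M.event (M.run s t).1

/-- Real-time simulation of `M` by `M'`: for some constant `c` and for every input stream, the steps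
of `M'` can be divided into consecutive groups of at most `c` steps (the group of the step `t` of
`M` consists of the steps `τ t, …, τ (t + 1) - 1` of `M'`) such that the inputs and outputs in a
group are those of the corresponding step of `M`. -/
def Simulates (M' M : Dev) : Prop :=
  ∃ c : ℕ, ∀ s : ℕ → Bool, ∃ τ : ℕ → ℕ, τ 0 = 0 ∧
    ∀ t, τ t ≤ τ (t + 1) ∧ τ (t + 1) ≤ τ t + c ∧
      M'.events s (τ t) (τ (t + 1)) = M.events s t (t + 1)

end Dev

/-! ### Storage modification machines -/

/-- Instructions of a storage modification machine with the alphabet `D` and the control states
`Q`. All words start at the centre. -/
inductive SInstr (D Q : Type) where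
  /-- create a new vertex, reached from the centre by the word `U x` -/
  | new (U : List D) (x : D) (q : Q)
  /-- redirect the last edge of the path `U x` to the end of the path `V` -/
  | set (U : List D) (x : D) (V : List D) (q : Q)
  /-- continue with `q` if the paths `U` and `V` end at the same vertex, and with `q'` if not -/
  | test (U V : List D) (q q' : Q)
  /-- read an input bit, continue with `q` if it is `0` and with `q'` if it is `1` -/
  | input (q q' : Q)
  /-- write an output bit -/
  | output (b : Bool) (q : Q)

/-- A storage modification machine (Schönhage). -/
structure SMM where
  /-- the alphabet of the edges -/
  D : Type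
  [fD : Fintype D]
  [dD : DecidableEq D]
  /-- the control states -/
  Q : Type
  [fQ : Fintype Q]
  /-- the initial control state -/
  start : Q
  /-- the program -/
  instr : Q → SInstr D Q

/-- A configuration of a storage modification machine: the control state, the number `n` of
vertices (the vertices are `0, …, n - 1`, the centre is `0`) and the edges: `p v x` is the end of the
edge with the letter `x` that starts at `v`. -/
structure SConf (D Q : Type) where
  /-- the control state -/
  q : Q
  /-- the number of vertices -/
  n : ℕ
  /-- the edges -/
  p : ℕ → D → ℕ

/-- The step of a storage modification machine. In a `new` instruction all edges of the new vertex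
lead to the old end of the path `U x`. -/
def SMM.step (M : SMM) (c : SConf M.D M.Q) : Act (SConf M.D M.Q) :=
  letI := M.dD
  match M.instr c.q with
  | .new U x q => .tau
      { q := q
        n := c.n + 1
        p := fun v y => if v = c.n then c.p (U.foldl c.p 0) x
          else if v = U.foldl c.p 0 ∧ y = x then c.n else c.p v y }
  | .set U x V q => .tau
      { q := q
        n := c.n
        p := fun v y => if v = U.foldl c.p 0 ∧ y = x then V.foldl c.p 0 else c.p v y }
  | .test U V q q' => .tau
      { c with q := if U.foldl c.p 0 = V.foldl c.p 0 then q else q' }
  | .input q q' => .inp fun b => { c with q := if b then q' else q }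
  | .output b q => .out b { c with q := q }

/-- A storage modification machine as an on-line machine. At the start there is only the centre, and
all its edges lead to itself. -/
def SMM.toDev (M : SMM) : Dev where
  C := SConf M.D M.Q
  init := { q := M.start, n := 1, p := fun _ _ => 0 }
  step := M.step

/-! ### Kolmogorov-Uspenskii machines -/

/-- The storage graph of a Kolmogorov-Uspenskii machine: the vertices are natural numbers (the names
of the vertices cannot be seen by the machine), and `adj (x, l) = some (y, l')` means that an edge
joins `x` and `y` which has the label `l` at `x` and the label `l'` at `y`. Hence the edges at a vertex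
have different labels there. -/
abbrev Adj (L : Type) : Type := ℕ × L → Option (ℕ × L)

/-- The end of the path with the labels `u` that starts at `x`, if there is such a path. -/
def walk {L : Type} (adj : Adj L) : ℕ → List L → Option ℕ
  | x, [] => some x
  | x, l :: u =>
    match adj (x, l) with
    | none => none
    | some (y, _) => walk adj y u

/-- The label at its far end of the last edge of the path with the labels `u` that starts at `x`. -/
def farLabel {L : Type} (adj : Adj L) : ℕ → List L → Option L
  | _, [] => none
  | x, l :: u =>
    match adj (x, l) with
    | none => none
    | some (y, l') => if u.isEmpty then some l' else farLabel adj y u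

/-- Words of length at most `r`. -/
abbrev Wd (L : Type) (r : ℕ) : Type := {u : List L // u.length ≤ r}

/-- What a machine can see of the graph: the labelled neighbourhood of radius `r` of the head. -/
structure View (L : Type) (r : ℕ) where
  /-- whether the paths `u` and `v` which start at the head exist and end at the same vertex -/
  same : Wd L r → Wd L r → Bool
  /-- the label of the last edge of the path `u` at its far end, if the path exists -/
  far : Wd L r → Option L

/-- The view from the vertex `x`. -/
def view {L : Type} (adj : Adj L) (x : ℕ) (r : ℕ) : View L r where
  same u v := (walk adj x u.1).isSome && decide (walk adj x u.1 = walk adj x v.1)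
  far u := farLabel adj x u.1

/-- An elementary change of the graph, `H` is the type of the names of the vertices that can be
reached. -/
inductive Edit (H L : Type) where
  /-- join `x` and `y` by an edge with the label `l` at `x` and `l'` at `y` -/
  | link (x : H) (l : L) (y : H) (l' : L)
  /-- delete the edge with the label `l` at `x` and `l'` at `y` -/
  | cut (x : H) (l : L) (y : H) (l' : L)

/-- Add an edge, if its labels are not yet used at its ends. -/
def link {L : Type} [DecidableEq L] (adj : Adj L) (a b : ℕ × L) : Adj L :=
  if adj a = none ∧ adj b = none ∧ a ≠ b then
    Function.update (Function.update adj a (some b)) b (some a)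
  else adj

/-- Delete an edge, if it exists. -/
def cut {L : Type} [DecidableEq L] (adj : Adj L) (a b : ℕ × L) : Adj L :=
  if adj a = some b then Function.update (Function.update adj a none) b none else adj

/-- Perform a change; `loc` tells which vertices have the names used in it. -/
def Edit.apply {H L : Type} [DecidableEq L] (loc : H → Option ℕ) (adj : Adj L) :
    Edit H L → Adj L
  | .link x l y l' =>
    match loc x, loc y with
    | some a, some b => KS.link adj (a, l) (b, l')
    | _, _ => adj
  | .cut x l y l' =>
    match loc x, loc y with
    | some a, some b => KS.cut adj (a, l) (b, l')
    | _, _ => adj

/-- The next control state, and the input or output made in a step. -/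
inductive KNext (Q : Type) where
  /-- an internal step -/
  | tau (q : Q)
  /-- the output of a bit -/
  | out (b : Bool) (q : Q)
  /-- the input of a bit -/
  | inp (q : Bool → Q)

/-- What a Kolmogorov-Uspenskii machine does in one step: it makes a list of changes, moves its head
to a vertex of its neighbourhood, and changes its control state. The vertices are given by words (the
vertices of the neighbourhood of radius `r`) or by numbers less than `k` (new vertices). -/
structure KAct (L Q : Type) (r k : ℕ) where
  /-- the changes -/
  edits : List (Edit (Wd L r ⊕ Fin k) L)
  /-- the new place of the head -/
  move : Wd L r ⊕ Fin k
  /-- the next control state -/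
  next : KNext Q

/-- A Kolmogorov-Uspenskii machine. In one step it can change the neighbourhood of radius `r` of its
head arbitrarily and add at most `k` new vertices, depending on its control state and on the labelled
neighbourhood. -/
structure KUM where
  /-- the labels of the edges -/
  L : Type
  [fL : Fintype L]
  [dL : DecidableEq L]
  /-- the control states -/
  Q : Type
  [fQ : Fintype Q]
  /-- the radius of the neighbourhood used in a step -/
  r : ℕ
  /-- the number of new vertices that can be used in a step -/
  k : ℕ
  /-- the initial control state -/
  start : Q
  /-- the program -/
  act : Q → View L r → KAct L Q r k

/-- A configuration of a Kolmogorov-Uspenskii machine. Vertices with numbers `fresh` and larger have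
not been used. -/
structure KConf (L Q : Type) where
  /-- the control state -/
  q : Q
  /-- the place of the head -/
  head : ℕ
  /-- the least vertex which has not been used -/
  fresh : ℕ
  /-- the graph -/
  adj : Adj L

/-- The vertices with the names used in an action, before the action. -/
def KConf.loc {L Q : Type} {r k : ℕ} (c : KConf L Q) : Wd L r ⊕ Fin k → Option ℕ
  | .inl u => walk c.adj c.head u.1
  | .inr i => some (c.fresh + i)

/-- The configuration after an action, with the control state `q`. -/
def KConf.post {L Q : Type} [DecidableEq L] {r k : ℕ} (c : KConf L Q) (a : KAct L Q r k) (q : Q) :
    KConf L Q where
  q := q
  head := (c.loc a.move).getD c.head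
  fresh := c.fresh + k
  adj := a.edits.foldl (Edit.apply c.loc) c.adj

/-- The step of a Kolmogorov-Uspenskii machine. -/
def KUM.step (K : KUM) (c : KConf K.L K.Q) : Act (KConf K.L K.Q) :=
  letI := K.dL
  let a := K.act c.q (view c.adj c.head K.r)
  match a.next with
  | .tau q => .tau (c.post a q)
  | .out b q => .out b (c.post a q)
  | .inp f => .inp fun b => c.post a (f b)

/-- A Kolmogorov-Uspenskii machine as an on-line machine. At the start the graph has one vertex and
no edge. -/
def KUM.toDev (K : KUM) : Dev where
  C := KConf K.L K.Q
  init := { q := K.start, head := 0, fresh := 1, adj := fun _ => none }
  step := K.step

end Pool.Agent.V7H69.KS
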