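import Pool.Agent.V7H69.KS.Defs

set_option autoImplicit false

namespace Pool.Agent.V7H69.KS

namespace Dev

variable (M : Dev)

/-- The next step is an input. -/
def Ready (c : M.C) : Prop := ∃ f, M.step c = .inp f

/-- Make steps until the next step is an input (at most `n` steps). -/
def settle : ℕ → M.C → M.C × List Bool
  | 0, c => (c, [])
  | n + 1, c =>
    match M.step c with
    | .tau c' => settle n c'
    | .out b c' => ((settle n c').1, b :: (settle n c').2)
    | .inp _ => (c, [])

/-- Read a bit and settle. -/
def feed (n : ℕ) (c : M.C) (b : Bool) : M.C × List Bool :=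
  match M.step c with
  | .inp f => M.settle n (f b)
  | _ => (c, [])

/-- Read a word. -/
def feeds (n : ℕ) : M.C → List Bool → M.C × List Bool
  | c, [] => (c, [])
  | c, b :: w => ((feeds n (M.feed n c b).1 w).1, (M.feed n c b).2 ++ (feeds n (M.feed n c b).1 w).2)

theorem feeds_append (n : ℕ) (c : M.C) (u w : List Bool) :
    M.feeds n c (u ++ w) =
      ((M.feeds n (M.feeds n c u).1 w).1, (M.feeds n c u).2 ++ (M.feeds n (M.feeds n c u).1 w).2) := by
  induction u generalizing c with
  | nil => simp [feeds]
  | cons b u ih => simp [feeds, ih]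

theorem events_self (s : ℕ → Bool) (a : ℕ) : M.events s a a = [] := by simp [events]

theorem events_append (s : ℕ → Bool) {a b c : ℕ} (h : a ≤ b) (h' : b ≤ c) :
    M.events s a c = M.events s a b ++ M.events s b c := by
  unfold events
  rw [← List.filterMap_append]
  congr 1
  obtain ⟨m, rfl⟩ := Nat.exists_eq_add_of_le h
  obtain ⟨k, rfl⟩ := Nat.exists_eq_add_of_le h'
  have h1 : a + m + k - a = m + k := by omega
  have h2 : a + m - a = m := by omega
  have h3 : a + m + k - (a + m) = k := by omega
  rw [h1, h2, h3]
  have := @List.range'_append a m k 1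
  simp only [one_mul] at this
  rw [← this]

theorem events_succ (s : ℕ → Bool) (a : ℕ) :
    M.events s a (a + 1) = (M.event (M.run s a).1).toList := by
  unfold events
  have : a + 1 - a = 1 := by omega
  rw [this]
  cases h : M.event (M.run s a).1 <;> simp [h]

theorem settle_run {s : ℕ → Bool} (n : ℕ) (c : M.C) (i T : ℕ) (h : M.run s T = (c, i))
    (hr : M.Ready (M.settle n c).1) :
    ∃ m ≤ n, M.run s (T + m) = ((M.settle n c).1, i) ∧
      M.events s T (T + m) = (M.settle n c).2.map some := by
  induction n generalizing c T with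
  | zero => exact ⟨0, le_refl _, by simpa [settle] using h, by simp [settle, events_self]⟩
  | succ n ih =>
    cases hc : M.step c with
    | tau c' =>
      have h1 : M.run s (T + 1) = (c', i) := by
        simp [run, next, h, hc]
      have h2 : M.settle (n + 1) c = M.settle n c' := by simp [settle, hc]
      rw [h2] at hr ⊢
      obtain ⟨m, hm, e1, e2⟩ := ih c' (T + 1) h1 hr
      refine ⟨m + 1, by omega, ?_, ?_⟩
      · rw [← e1]; congr 1; ring
      · rw [show T + (m + 1) = T + 1 + m by ring,
          M.events_append s (show T ≤ T + 1 by omega) (show T + 1 ≤ T + 1 + m by omega), e2,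
          events_succ, h]
        simp [event, hc]
    | out b c' =>
      have h1 : M.run s (T + 1) = (c', i) := by
        simp [run, next, h, hc]
      have h2 : M.settle (n + 1) c = ((M.settle n c').1, b :: (M.settle n c').2) := by
        simp [settle, hc]
      rw [h2] at hr ⊢
      obtain ⟨m, hm, e1, e2⟩ := ih c' (T + 1) h1 hr
      refine ⟨m + 1, by omega, ?_, ?_⟩
      · rw [← e1]; congr 1; ring
      · rw [show T + (m + 1) = T + 1 + m by ring,
          M.events_append s (show T ≤ T + 1 by omega) (show T + 1 ≤ T + 1 + m by omega), e2,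
          events_succ, h]
        simp [event, hc]
    | inp f =>
      have h2 : M.settle (n + 1) c = (c, []) := by simp [settle, hc]
      rw [h2]
      exact ⟨0, by omega, by simpa using h, by simp [events_self]⟩

theorem run_settle {s : ℕ → Bool} (m : ℕ) : ∀ (n : ℕ) (c : M.C) (i T : ℕ) (os : List Bool),
    M.run s T = (c, i) → m ≤ n → M.events s T (T + m) = os.map some →
    M.event (M.run s (T + m)).1 = some none →
    M.settle n c = ((M.run s (T + m)).1, os) ∧ (M.run s (T + m)).2 = i ∧
      M.Ready (M.settle n c).1 := by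
  induction m with
  | zero =>
    intro n c i T os h _ he hr
    simp only [add_zero] at he hr ⊢
    rw [h] at hr ⊢
    rw [events_self] at he
    have hos : os = [] := by
      cases os with
      | nil => rfl
      | cons a l => simp at he
    subst hos
    cases hc : M.step c with
    | tau c' => simp [event, hc] at hr
    | out b c' => simp [event, hc] at hr
    | inp f =>
      have : M.settle n c = (c, []) := by
        cases n with
        | zero => rfl
        | succ n => simp [settle, hc]
      rw [this]
      exact ⟨rfl, rfl, f, hc⟩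
  | succ m ih =>
    intro n c i T os h hn he hr
    obtain ⟨n, rfl⟩ : ∃ n', n = n' + 1 := ⟨n - 1, by omega⟩
    rw [show T + (m + 1) = T + 1 + m by ring] at he hr ⊢
    rw [M.events_append s (show T ≤ T + 1 by omega) (show T + 1 ≤ T + 1 + m by omega),
      events_succ, h] at he
    cases hc : M.step c with
    | tau c' =>
      have h1 : M.run s (T + 1) = (c', i) := by simp [run, next, h, hc]
      have h2 : M.settle (n + 1) c = M.settle n c' := by simp [settle, hc]
      rw [h2]
      refine ih n c' i (T + 1) os h1 (by omega) ?_ hr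
      simpa [event, hc] using he
    | out b c' =>
      have h1 : M.run s (T + 1) = (c', i) := by simp [run, next, h, hc]
      have h2 : M.settle (n + 1) c = ((M.settle n c').1, b :: (M.settle n c').2) := by
        simp [settle, hc]
      cases os with
      | nil => simp [event, hc] at he
      | cons a os =>
        simp only [event, hc, Option.toList, List.map_cons, List.singleton_append,
          List.cons.injEq] at he
        obtain ⟨he1, he2⟩ := he
        have he3 : b = a := by simpa using he1
        subst he3
        obtain ⟨k1, k2, k3⟩ := ih n c' i (T + 1) os h1 (by omega) he2 hr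
        rw [h2]
        refine ⟨?_, k2, k3⟩
        rw [k1]
    | inp f =>
      exfalso
      cases os with
      | nil => simp [event, hc] at he
      | cons a os => simp [event, hc] at he

theorem events_single {s : ℕ → Bool} {x : Option Bool} (n : ℕ) : ∀ (a : ℕ),
    M.events s a (a + n) = [x] →
    ∃ T, a ≤ T ∧ T < a + n ∧ M.events s a T = [] ∧ M.event (M.run s T).1 = some x ∧
      M.events s (T + 1) (a + n) = [] := by
  induction n with
  | zero => intro a h; simp [events_self] at h
  | succ n ih =>
    intro a h
    rw [show a + (n + 1) = a + 1 + n by ring] at h ⊢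
    have h0 := h
    rw [M.events_append s (show a ≤ a + 1 by omega) (show a + 1 ≤ a + 1 + n by omega),
      events_succ] at h
    cases he : M.event (M.run s a).1 with
    | none =>
      rw [he] at h
      simp only [Option.toList, List.nil_append] at h
      obtain ⟨T, h1, h2, h3, h4, h5⟩ := ih (a + 1) h
      refine ⟨T, by omega, by omega, ?_, h4, h5⟩
      rw [M.events_append s (show a ≤ a + 1 by omega) h1, h3, events_succ, he]
      rfl
    | some y =>
      rw [he] at h
      simp only [Option.toList, List.singleton_append, List.cons.injEq] at h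
      refine ⟨a, le_refl _, by omega, events_self _ _ _, ?_, h.2⟩
      rw [he, h.1]

/-- The first `i` bits of a stream. -/
def pre (s : ℕ → Bool) (i : ℕ) : List Bool := (List.range i).map s

theorem pre_succ (s : ℕ → Bool) (i : ℕ) : pre s (i + 1) = pre s i ++ [s i] := by
  simp [pre, List.range_succ]

theorem feeds_pre_succ (n : ℕ) (c : M.C) (s : ℕ → Bool) (i : ℕ) :
    M.feeds n c (pre s (i + 1)) =
      ((M.feed n (M.feeds n c (pre s i)).1 (s i)).1,
        (M.feeds n c (pre s i)).2 ++ (M.feed n (M.feeds n c (pre s i)).1 (s i)).2) := by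
  rw [pre_succ, feeds_append]
  simp [feeds]

theorem event_ready {c : M.C} (h : M.Ready c) : M.event c = some none := by
  obtain ⟨f, hf⟩ := h
  simp [event, hf]

theorem exists_read_times (s : ℕ → Bool) (g : ℕ)
    (hM : ∀ w, M.Ready (M.feeds g (M.settle g M.init).1 w).1) :
    ∃ t : ℕ → ℕ, t 0 ≤ g ∧ (∀ i, t i + 1 ≤ t (i + 1) ∧ t (i + 1) ≤ t i + 1 + g) ∧
      (∀ i, M.run s (t i) = ((M.feeds g (M.settle g M.init).1 (pre s i)).1, i)) ∧
      M.events s 0 (t 0) = (M.settle g M.init).2.map some ∧
      ∀ i, M.events s (t i + 1) (t (i + 1)) =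
        (M.feed g (M.feeds g (M.settle g M.init).1 (pre s i)).1 (s i)).2.map some := by
  have step : ∀ i T, M.run s T = ((M.feeds g (M.settle g M.init).1 (pre s i)).1, i) →
      ∃ T', T + 1 ≤ T' ∧ T' ≤ T + 1 + g ∧
        M.run s T' = ((M.feeds g (M.settle g M.init).1 (pre s (i + 1))).1, i + 1) ∧
        M.events s (T + 1) T' =
          (M.feed g (M.feeds g (M.settle g M.init).1 (pre s i)).1 (s i)).2.map some := by
    intro i T hT
    obtain ⟨f, hf⟩ := hM (pre s i)
    have h1 : M.run s (T + 1) = (f (s i), i + 1) := by
      simp [run, next, hT, hf]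
    have h2 : M.feed g (M.feeds g (M.settle g M.init).1 (pre s i)).1 (s i) =
        M.settle g (f (s i)) := by simp [feed, hf]
    have h3 := hM (pre s (i + 1))
    rw [feeds_pre_succ, h2] at h3
    obtain ⟨m, hm, e1, e2⟩ := M.settle_run g (f (s i)) (i + 1) (T + 1) h1 h3
    refine ⟨T + 1 + m, by omega, by omega, ?_, ?_⟩
    · rw [e1, feeds_pre_succ, h2]
    · rw [e2, h2]
  choose! F hF using step
  have h0 : ∃ T, T ≤ g ∧ M.run s T = ((M.feeds g (M.settle g M.init).1 (pre s 0)).1, 0) ∧
      M.events s 0 T = (M.settle g M.init).2.map some := by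
    have h3 := hM []
    simp only [feeds] at h3
    obtain ⟨m, hm, e1, e2⟩ := M.settle_run g M.init 0 0 rfl h3
    refine ⟨m, hm, ?_, ?_⟩
    · rw [zero_add] at e1
      rw [e1]
      simp [pre, feeds]
    · rw [zero_add] at e2
      exact e2
  obtain ⟨T0, hT0, hT1, hT2⟩ := h0
  let t : ℕ → ℕ := fun i => Nat.rec T0 (fun i T => F i T) i
  have ht : ∀ i, M.run s (t i) = ((M.feeds g (M.settle g M.init).1 (pre s i)).1, i) := by
    intro i
    induction i with
    | zero => exact hT1
    | succ i ih => exact (hF i (t i) ih).2.2.1
  exact ⟨t, hT0, fun i => ⟨(hF i (t i) (ht i)).1, (hF i (t i) (ht i)).2.1⟩, ht, hT2,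
    fun i => (hF i (t i) (ht i)).2.2.2⟩

/-- A real-time simulation makes a bounded number of steps between two inputs, and between two inputs
the outputs are those of the simulated machine. -/
theorem Simulates.feeds {M' M : Dev} (h : Simulates M' M) (g : ℕ)
    (hM : ∀ w, M.Ready (M.feeds g (M.settle g M.init).1 w).1) :
    ∃ g', ∀ w, M'.Ready (M'.feeds g' (M'.settle g' M'.init).1 w).1 ∧
      (M'.feeds g' (M'.settle g' M'.init).1 w).2 = (M.feeds g (M.settle g M.init).1 w).2 := by
  obtain ⟨c, hc⟩ := h
  refine ⟨c * (g + 2), fun w => ?_⟩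
  set g' := c * (g + 2) with hg'
  obtain ⟨s, hs⟩ : ∃ s : ℕ → Bool, pre s w.length = w := by
    refine ⟨fun i => w.getD i false, ?_⟩
    apply List.ext_getElem
    · simp [pre]
    · intro i h1 h2
      simp [pre, List.getD_eq_getElem?_getD, List.getElem?_eq_getElem h2]
  obtain ⟨τ, hτ0, hτ⟩ := hc s
  obtain ⟨t, ht0, ht1, ht2, ht3, ht4⟩ := M.exists_read_times s g hM
  have hmono : ∀ a n, τ a ≤ τ (a + n) ∧ τ (a + n) ≤ τ a + c * n := by
    intro a n
    induction n with
    | zero => simp
    | succ n ih =>
      have := hτ (a + n)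
      rw [← add_assoc]
      constructor
      · omega
      · have e : c * (n + 1) = c * n + c := by ring
        omega
  have hblock : ∀ a n, M'.events s (τ a) (τ (a + n)) = M.events s a (a + n) := by
    intro a n
    induction n with
    | zero => simp [events_self]
    | succ n ih =>
      rw [← add_assoc, M'.events_append s (hmono a n).1 (hτ (a + n)).1, ih, (hτ (a + n)).2.2,
        ← M.events_append s (by omega) (by omega)]
  have hread : ∀ i, M.event (M.run s (t i)).1 = some none := by
    intro i
    rw [ht2 i]
    exact M.event_ready (hM _)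
  have hsing : ∀ i, ∃ T, τ (t i) ≤ T ∧ T < τ (t i + 1) ∧ M'.events s (τ (t i)) T = [] ∧
      M'.event (M'.run s T).1 = some none ∧ M'.events s (T + 1) (τ (t i + 1)) = [] := by
    intro i
    have h1 := (hτ (t i)).2.2
    rw [events_succ, hread i] at h1
    obtain ⟨n, hn⟩ := Nat.exists_eq_add_of_le (hτ (t i)).1
    rw [hn] at h1 ⊢
    exact M'.events_single n (τ (t i)) h1
  have key : ∀ i, ∃ T, τ (t i) ≤ T ∧ T < τ (t i + 1) ∧
      M'.run s T = ((M'.feeds g' (M'.settle g' M'.init).1 (pre s i)).1, i) ∧
      M'.Ready (M'.feeds g' (M'.settle g' M'.init).1 (pre s i)).1 ∧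
      M'.events s (T + 1) (τ (t i + 1)) = [] ∧
      (M'.feeds g' (M'.settle g' M'.init).1 (pre s i)).2 =
        (M.feeds g (M.settle g M.init).1 (pre s i)).2 := by
    intro i
    induction i with
    | zero =>
      obtain ⟨T, h1, h2, h3, h4, h5⟩ := hsing 0
      have e1 : M'.events s 0 T = ((M.settle g M.init).2).map some := by
        have : 0 ≤ τ (t 0) := Nat.zero_le _
        rw [M'.events_append s this h1, h3, List.append_nil]
        have := hblock 0 (t 0)
        rw [hτ0, zero_add] at this
        rw [this, ht3]
      have hT : T ≤ g' := by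
        have := (hmono 0 (t 0 + 1)).2
        rw [zero_add, hτ0] at this
        have e : c * (t 0 + 1) ≤ c * (g + 2) := Nat.mul_le_mul_left _ (by omega)
        omega
      have := M'.run_settle (s := s) T g' M'.init 0 0 _ rfl hT (by rw [zero_add]; exact e1)
        (by rw [zero_add]; exact h4)
      rw [zero_add] at this
      obtain ⟨k1, k2, k3⟩ := this
      refine ⟨T, h1, h2, ?_, ?_, h5, ?_⟩
      · simp only [pre, List.range_zero, List.map_nil, Dev.feeds]
        rw [k1, ← k2]
      · simpa [pre, Dev.feeds] using k3
      · simp [pre, Dev.feeds]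
    | succ i ih =>
      obtain ⟨T, h1, h2, h3, h4, h5, h6⟩ := ih
      obtain ⟨T', h1', h2', h3', h4', h5'⟩ := hsing (i + 1)
      obtain ⟨f, hf⟩ := h4
      have e0 : M'.run s (T + 1) = (f (s i), i + 1) := by
        simp [run, next, h3, hf]
      obtain ⟨n, hn⟩ := Nat.exists_eq_add_of_le (ht1 i).1
      have e1 : M'.events s (τ (t i + 1)) (τ (t (i + 1))) =
          (M.feed g (M.feeds g (M.settle g M.init).1 (pre s i)).1 (s i)).2.map some := by
        rw [← ht4 i, hn]
        exact hblock _ _
      have hle : τ (t i + 1) ≤ τ (t (i + 1)) := by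
        rw [hn]
        exact (hmono _ _).1
      have e2 : M'.events s (T + 1) T' =
          (M.feed g (M.feeds g (M.settle g M.init).1 (pre s i)).1 (s i)).2.map some := by
        rw [M'.events_append s (show T + 1 ≤ τ (t i + 1) by omega)
          (show τ (t i + 1) ≤ T' by omega), h5, List.nil_append,
          M'.events_append s hle h1', e1, h3', List.append_nil]
      obtain ⟨m, rfl⟩ := Nat.exists_eq_add_of_le (show T + 1 ≤ T' by omega)
      have hm : m ≤ g' := by
        have a1 := (hmono (t i) (t (i + 1) + 1 - t i)).2
        have a2 := (ht1 i).2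
        have a3 := (ht1 i).1
        rw [show t i + (t (i + 1) + 1 - t i) = t (i + 1) + 1 by omega] at a1
        have e : c * (t (i + 1) + 1 - t i) ≤ c * (g + 2) := Nat.mul_le_mul_left _ (by omega)
        omega
      obtain ⟨k1, k2, k3⟩ := M'.run_settle (s := s) m g' (f (s i)) (i + 1) (T + 1) _ e0 hm e2 h4'
      have e3 : M'.feed g' (M'.feeds g' (M'.settle g' M'.init).1 (pre s i)).1 (s i) =
          M'.settle g' (f (s i)) := by simp [feed, hf]
      refine ⟨T + 1 + m, h1', h2', ?_, ?_, h5', ?_⟩
      · rw [feeds_pre_succ, e3, k1, ← k2]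
      · rw [feeds_pre_succ, e3]
        exact k3
      · rw [feeds_pre_succ, e3, k1, M.feeds_pre_succ, h6]
  obtain ⟨T, _, _, _, h4, _, h6⟩ := key w.length
  rw [hs] at h4 h6
  exact ⟨h4, h6⟩

end Dev

end Pool.Agent.V7H69.KS
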