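import Mathlib

/-!
# Dispersers
-/

set_option autoImplicit false

namespace Pool.Agent.V7H69.KS

open Finset

theorem exists_disperser (N κ m θ : ℕ) (hm : 0 < m)
    (h : 2 ^ m * N ^ (2 * m) * θ ^ (2 * m * κ) < m ^ (2 * m * κ)) :
    ∃ g : Fin N → Fin κ → Fin m, ∀ S : Finset (Fin m), S.card ≤ θ →
      (univ.filter fun a => ∀ v, g a v ∈ S).card < 2 * m := by
  classical
  by_contra hcon
  push Not at hcon
  -- the bad functions for a set of values and a set of arguments
  let B : Finset (Fin m) × Finset (Fin N) → Finset (Fin N → Fin κ → Fin m) := fun p =>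
    Fintype.piFinset fun a => if a ∈ p.2 then Fintype.piFinset fun _ => p.1 else univ
  let I : Finset (Finset (Fin m) × Finset (Fin N)) :=
    (univ.filter fun S : Finset (Fin m) => S.card ≤ θ) ×ˢ powersetCard (2 * m) univ
  have hcov : (univ : Finset (Fin N → Fin κ → Fin m)) ⊆ I.biUnion B := by
    intro g _
    obtain ⟨S, hS, hg⟩ := hcon g
    obtain ⟨A, hA, hAc⟩ := exists_subset_card_eq hg
    rw [mem_biUnion]
    refine ⟨(S, A), ?_, ?_⟩
    · simp [I, hS, hAc]
    · simp only [B, Fintype.mem_piFinset]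
      intro a
      by_cases ha : a ∈ A
      · rw [if_pos ha, Fintype.mem_piFinset]
        have := hA ha
        rw [mem_filter] at this
        exact this.2
      · rw [if_neg ha]
        exact mem_univ _
  have hI : I.card ≤ 2 ^ m * N ^ (2 * m) := by
    simp only [I, card_product, card_powersetCard, card_univ, Fintype.card_fin]
    refine Nat.mul_le_mul ?_ (Nat.choose_le_pow _ _)
    refine (card_filter_le _ _).trans ?_
    simp
  have hB : ∀ p ∈ I, (B p).card ≤ θ ^ (2 * m * κ) * (m ^ κ) ^ (N - 2 * m) := by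
    intro p hp
    simp only [I, mem_product, mem_filter, mem_univ, true_and, mem_powersetCard,
      subset_univ] at hp
    obtain ⟨h1, h2⟩ := hp
    simp only [B, Fintype.card_piFinset]
    have : ∀ a : Fin N, (if a ∈ p.2 then Fintype.piFinset (fun _ : Fin κ => p.1) else univ).card =
        if a ∈ p.2 then p.1.card ^ κ else m ^ κ := by
      intro a
      split_ifs
      · simp
      · simp
    rw [prod_congr rfl fun a _ => this a, prod_ite, prod_const, prod_const]
    have e1 : (univ.filter fun a => a ∈ p.2).card = 2 * m := by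
      rw [← h2]
      congr 1
      ext a
      simp
    have e2 : (univ.filter fun a => a ∉ p.2).card = N - 2 * m := by
      rw [filter_not, card_sdiff_of_subset (filter_subset _ _), e1]
      simp
    rw [e1, e2]
    refine Nat.mul_le_mul_right _ ?_
    rw [← pow_mul, mul_comm κ (2 * m)]
    exact Nat.pow_le_pow_left h1 _
  have h2m : 2 * m ≤ N := by
    haveI : Nonempty (Fin m) := ⟨⟨0, hm⟩⟩
    obtain ⟨S, hS, hg⟩ := hcon (fun _ _ => ⟨0, hm⟩)
    refine hg.trans ((card_filter_le _ _).trans ?_)
    simp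
  have htot : (m ^ κ) ^ N ≤ 2 ^ m * N ^ (2 * m) * (θ ^ (2 * m * κ) * (m ^ κ) ^ (N - 2 * m)) := by
    have h3 := card_le_card hcov
    have h4 := card_biUnion_le_card_mul I B _ hB
    have h5 : (univ : Finset (Fin N → Fin κ → Fin m)).card = (m ^ κ) ^ N := by simp
    rw [h5] at h3
    exact h3.trans (h4.trans (Nat.mul_le_mul_right _ hI))
  have hpos : 0 < (m ^ κ) ^ (N - 2 * m) := pow_pos (pow_pos hm _) _
  have e3 : (m ^ κ) ^ N = m ^ (2 * m * κ) * (m ^ κ) ^ (N - 2 * m) := by
    conv_lhs => rw [show N = 2 * m + (N - 2 * m) by omega]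
    rw [pow_add, ← pow_mul, mul_comm κ (2 * m)]
  rw [e3, ← mul_assoc] at htot
  exact absurd (Nat.le_of_mul_le_mul_right htot hpos) (not_le.2 h)

end Pool.Agent.V7H69.KS
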