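import Mathlib

/-!
# Inequalities for the parameters
-/

set_option autoImplicit false
set_option linter.unusedVariables false

namespace Pool.Agent.V7H69.KS

theorem pw1 (c l : ℕ) : 2 ^ (8 + c + 2 * l) = 256 * (2 ^ c * (2 ^ l) ^ 2) := by
  rw [pow_add, pow_add, mul_comm 2 l, pow_mul]
  norm_num
  ring

theorem pw2 (k c l : ℕ) : 2 ^ (k + c + l) = 2 ^ k * (2 ^ c * 2 ^ l) := by
  rw [pow_add, pow_add]
  ring

theorem pw3 (k c l : ℕ) : 2 ^ (k + c + 2 * l) = 2 ^ k * (2 ^ c * (2 ^ l) ^ 2) := by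
  rw [pow_add, pow_add, mul_comm 2 l, pow_mul]
  ring

theorem num1 {c l gm : ℕ} (h : gm ≤ 2 ^ c) :
    2 * (gm * (2 ^ (8 + c + 2 * l) + 2) + 1) < 2 ^ (5 + c + l) * (2 ^ (5 + c + l) + 1) := by
  rw [pw1, pw2]
  have hc : 1 ≤ 2 ^ c := Nat.one_le_two_pow
  have hl : 1 ≤ 2 ^ l := Nat.one_le_two_pow
  set G := 2 ^ c
  set L := 2 ^ l
  have h1 : gm * (256 * (G * L ^ 2) + 2) ≤ G * (256 * (G * L ^ 2) + 2) :=
    Nat.mul_le_mul_right _ h
  have h2 : 1 ≤ G * L := Nat.mul_pos hc hl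
  have h3 : G ≤ G * L := Nat.le_mul_of_pos_right _ hl
  have h4 : (G * L) * (G * L) = G * (G * L ^ 2) := by ring
  nlinarith

theorem num2 {c l e : ℕ} (he : e < 2 ^ (5 + c + l)) (hl : 1 ≤ l) :
    2 * ((2 ^ (2 * 2 ^ l)) ^ 2 ^ (5 + c + l) *
      (2 * ((2 ^ (2 * 2 ^ l) - 1) * (2 ^ (2 * 2 ^ l)) ^ e))) ≤ 2 ^ 2 ^ (8 + c + 2 * l) := by
  set mu := 2 ^ (2 * 2 ^ l) with hmu
  set E := 2 ^ (5 + c + l) with hE
  have hmu0 : 0 < mu := by positivity
  have h1 : (mu - 1) * mu ^ e ≤ mu ^ E := by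
    calc (mu - 1) * mu ^ e ≤ mu * mu ^ e := Nat.mul_le_mul_right _ (Nat.sub_le _ _)
      _ = mu ^ (e + 1) := by rw [pow_succ']
      _ ≤ mu ^ E := Nat.pow_le_pow_right hmu0 he
  calc 2 * (mu ^ E * (2 * ((mu - 1) * mu ^ e))) ≤ 2 * (mu ^ E * (2 * mu ^ E)) := by gcongr
    _ = 4 * (mu ^ E * mu ^ E) := by ring
    _ = 2 ^ (2 + 2 * 2 ^ l * (E + E)) := by
        rw [hmu, ← pow_add (2 ^ (2 * 2 ^ l)), ← pow_mul, pow_add]
        norm_num
    _ ≤ 2 ^ 2 ^ (8 + c + 2 * l) := by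
        refine Nat.pow_le_pow_right (by norm_num) ?_
        rw [pw1, hE, pw2]
        have hc : 1 ≤ 2 ^ c := Nat.one_le_two_pow
        have hl : 1 ≤ 2 ^ l := Nat.one_le_two_pow
        set G := 2 ^ c
        set L := 2 ^ l
        have h2 : 1 ≤ G * L ^ 2 := Nat.mul_pos hc (pow_pos hl 2)
        nlinarith

theorem num3 (c l : ℕ) : 1 + 2 * 2 ^ (8 + c + 2 * l) < 2 * (2 ^ (9 + c + l) * 2 ^ l) := by
  rw [pw1, pw2]
  have hc : 1 ≤ 2 ^ c := Nat.one_le_two_pow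
  have hl : 1 ≤ 2 ^ l := Nat.one_le_two_pow
  set G := 2 ^ c
  set L := 2 ^ l
  have h2 : 1 ≤ G * L ^ 2 := Nat.mul_pos hc (pow_pos hl 2)
  nlinarith

theorem num4 {c l f k : ℕ} (hf : f ≤ 2 ^ c) (hk : k ≤ 2 ^ c) (hl : 20 ≤ l) :
    f + k * (2 ^ 2 ^ (8 + c + 2 * l) * (2 ^ (5 + c + l) * 2 ^ (9 + c + l)) *
      (2 ^ (8 + c + 2 * l) + (14 + 2 * c + 2 * l) + 2 ^ (6 + c + 2 * l) + 6) +
      2 ^ 2 ^ (6 + c + 2 * l) * 2 ^ (10 + c + 2 * l) *
        (2 ^ (6 + c + 2 * l) + (10 + c + 2 * l) + 3)) < 2 ^ (3 * 2 ^ (8 + c + 2 * l)) := by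
  set t := 8 + c + 2 * l with ht
  have e1 : 2 ^ (6 + c + 2 * l) * 4 = 2 ^ t := by
    rw [ht, show 8 + c + 2 * l = 6 + c + 2 * l + 1 + 1 by ring, pow_succ, pow_succ]
    ring
  have hbig : ∀ n : ℕ, 4 ≤ n → n + 7 < 2 ^ n ∨ n < 4 := by
    intro n hn
    left
    induction n, hn using Nat.le_induction with
    | base => norm_num
    | succ n hn ih => rw [pow_succ]; omega
  have ht48 : 48 ≤ t := by omega
  have h4t : 4 * t + 4 < 2 ^ t := by
    have : ∀ n : ℕ, 5 ≤ n → 4 * n + 4 < 2 ^ n := by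
      intro n hn
      induction n, hn using Nat.le_induction with
      | base => norm_num
      | succ n hn ih => rw [pow_succ]; omega
    exact this t (by omega)
  set na := 2 ^ t with hna
  have hc : 2 ^ c ≤ 2 ^ t := Nat.pow_le_pow_right (by norm_num) (by omega)
  have e2 : 2 ^ (5 + c + l) * 2 ^ (9 + c + l) ≤ 2 ^ (2 * t) := by
    rw [← pow_add]
    exact Nat.pow_le_pow_right (by norm_num) (by omega)
  have e3 : na + (14 + 2 * c + 2 * l) + 2 ^ (6 + c + 2 * l) + 6 ≤ 2 * na := by omega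
  have e4 : 2 ^ 2 ^ (6 + c + 2 * l) ≤ 2 ^ na := Nat.pow_le_pow_right (by norm_num) (by omega)
  have e5 : 2 ^ (10 + c + 2 * l) ≤ 2 ^ (2 * t) := Nat.pow_le_pow_right (by norm_num) (by omega)
  have e6 : 2 ^ (6 + c + 2 * l) + (10 + c + 2 * l) + 3 ≤ na := by omega
  have e7 : 1 ≤ 2 ^ na * 2 ^ (2 * t) * na := by
    have : 0 < na := by positivity
    exact Nat.mul_pos (by positivity) this
  calc f + k * (2 ^ na * (2 ^ (5 + c + l) * 2 ^ (9 + c + l)) *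
      (na + (14 + 2 * c + 2 * l) + 2 ^ (6 + c + 2 * l) + 6) +
      2 ^ 2 ^ (6 + c + 2 * l) * 2 ^ (10 + c + 2 * l) *
        (2 ^ (6 + c + 2 * l) + (10 + c + 2 * l) + 3))
      ≤ 2 ^ t + 2 ^ t * (2 ^ na * 2 ^ (2 * t) * (2 * na) + 2 ^ na * 2 ^ (2 * t) * na) := by
        have := hf.trans hc
        have := hk.trans hc
        gcongr
    _ ≤ 2 ^ t * (2 ^ na * 2 ^ (2 * t) * na) + 2 ^ t * (2 ^ na * 2 ^ (2 * t) * (2 * na) +
        2 ^ na * 2 ^ (2 * t) * na) :=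
        Nat.add_le_add_right (Nat.le_mul_of_pos_right _ e7) _
    _ = 2 ^ (na + (4 * t + 2)) := by
        rw [hna]
        ring
    _ < 2 ^ (3 * na) := Nat.pow_lt_pow_right (by norm_num) (by omega)

theorem num5 {D gm w hu mu Q e : ℕ} (hmu : 0 < mu) (hD : 0 < D) :
    D * (D * (gm * (mu ^ e * w * hu) + 1)) +
      D * (Q * (D * (gm * (mu ^ (e + 1) * w * hu) + 1) / mu + 1)) ≤
      mu ^ e * (D ^ 2 * (gm * w * hu + 1) * (1 + 2 * Q)) := by
  have hm : 1 ≤ mu ^ e := Nat.one_le_pow _ _ hmu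
  set m := mu ^ e with hmdef
  set T := gm * w * hu + 1 with hT
  have hT1 : 1 ≤ T := by omega
  have h1 : gm * (m * w * hu) + 1 ≤ m * T := by
    have : m * T = gm * (m * w * hu) + m := by rw [hT]; ring
    omega
  have h2 : gm * (mu ^ (e + 1) * w * hu) + 1 ≤ mu * (m * T) := by
    have h3 : mu * (m * T) = gm * (mu ^ (e + 1) * w * hu) + mu * m := by
      rw [hT, hmdef, pow_succ]; ring
    have h4 : 1 ≤ mu * m := Nat.mul_pos hmu hm
    omega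
  have h5 : D * (gm * (mu ^ (e + 1) * w * hu) + 1) / mu ≤ D * (m * T) := by
    apply Nat.div_le_of_le_mul
    calc D * (gm * (mu ^ (e + 1) * w * hu) + 1) ≤ D * (mu * (m * T)) :=
          Nat.mul_le_mul_left _ h2
      _ = mu * (D * (m * T)) := by ring
  have h6 : 1 ≤ D * (m * T) := Nat.mul_pos hD (Nat.mul_pos hm hT1)
  calc D * (D * (gm * (m * w * hu) + 1)) +
        D * (Q * (D * (gm * (mu ^ (e + 1) * w * hu) + 1) / mu + 1))
      ≤ D * (D * (m * T)) + D * (Q * (D * (m * T) + D * (m * T))) := by gcongr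
    _ = m * (D ^ 2 * T * (1 + 2 * Q)) := by ring

/-- The main inequality for the number of the touched vertices. -/
theorem num6 {c l d rho gm : ℕ} (hd : 1 + d ≤ 2 ^ c) (hr : rho ≤ c) (hg : gm ≤ 2 ^ c)
    (hl : 29 + 5 * c + 5 * l + 2 * c ^ 2 * (26 + 3 * c + 4 * l) < 2 ^ l) (hl20 : 20 ≤ l) :
    2 ^ c * (4 * 2 ^ (8 + c + 2 * l)) *
      (((1 + d) ^ (rho * (14 + 2 * c + 2 * l + (10 + c + 2 * l) + 2))) ^ 2 *
        (gm * 2 ^ (10 + c + 2 * l) * (2 ^ (6 + c + 2 * l) + (10 + c + 2 * l) + 3) + 1) *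
          (1 + 2 * 2 ^ (5 + c + l))) < 2 ^ (8 + c + 2 * l) * 2 ^ (2 ^ l - 1) := by
  set na := 2 ^ (8 + c + 2 * l) with hna
  have e1 : 2 ^ (6 + c + 2 * l) * 4 = na := by
    rw [hna, show 8 + c + 2 * l = 6 + c + 2 * l + 1 + 1 by ring, pow_succ, pow_succ]
    ring
  have e2 : 2 ^ (10 + c + 2 * l) = 4 * na := by
    rw [hna, show 10 + c + 2 * l = 8 + c + 2 * l + 1 + 1 by ring, pow_succ, pow_succ]
    ring
  have h4t : 4 * (8 + c + 2 * l) + 4 < na := by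
    have : ∀ n : ℕ, 5 ≤ n → 4 * n + 4 < 2 ^ n := by
      intro n hn
      induction n, hn using Nat.le_induction with
      | base => norm_num
      | succ n hn ih => rw [pow_succ]; omega
    exact this _ (by omega)
  have h1 : (1 + d) ^ (rho * (14 + 2 * c + 2 * l + (10 + c + 2 * l) + 2)) ≤
      2 ^ (c ^ 2 * (26 + 3 * c + 4 * l)) := by
    calc (1 + d) ^ (rho * (14 + 2 * c + 2 * l + (10 + c + 2 * l) + 2))
        ≤ (2 ^ c) ^ (rho * (14 + 2 * c + 2 * l + (10 + c + 2 * l) + 2)) :=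
          Nat.pow_le_pow_left hd _
      _ ≤ (2 ^ c) ^ (c * (14 + 2 * c + 2 * l + (10 + c + 2 * l) + 2)) :=
          Nat.pow_le_pow_right (by positivity) (Nat.mul_le_mul_right _ hr)
      _ = 2 ^ (c ^ 2 * (26 + 3 * c + 4 * l)) := by
          rw [← pow_mul]
          congr 1
          ring
  have hna1 : 1 ≤ na := by omega
  have hc : 1 ≤ 2 ^ c := Nat.one_le_two_pow
  have h2 : gm * 2 ^ (10 + c + 2 * l) * (2 ^ (6 + c + 2 * l) + (10 + c + 2 * l) + 3) + 1 ≤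
      8 * (2 ^ c * na ^ 2) := by
    rw [e2]
    have h3 : 2 ^ (6 + c + 2 * l) + (10 + c + 2 * l) + 3 ≤ na := by omega
    have h4 : gm * (4 * na) * (2 ^ (6 + c + 2 * l) + (10 + c + 2 * l) + 3) ≤
        2 ^ c * (4 * na) * na := by gcongr
    have h5 : 1 ≤ 2 ^ c * na ^ 2 := Nat.mul_pos hc (pow_pos hna1 2)
    nlinarith
  have h3 : 1 + 2 * 2 ^ (5 + c + l) ≤ 2 ^ (7 + c + l) := by
    have : 2 ^ (7 + c + l) = 4 * 2 ^ (5 + c + l) := by
      rw [show 7 + c + l = 5 + c + l + 1 + 1 by ring, pow_succ, pow_succ]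
      ring
    have h4 : 1 ≤ 2 ^ (5 + c + l) := Nat.one_le_two_pow
    omega
  set W := c ^ 2 * (26 + 3 * c + 4 * l) with hW
  have hW2 : 2 * c ^ 2 * (26 + 3 * c + 4 * l) = 2 * W := by rw [hW]; ring
  rw [hW2] at hl
  have e3 : na * na = 2 ^ (16 + 2 * c + 4 * l) := by
    rw [hna, ← pow_add]
    congr 1
    ring
  calc 2 ^ c * (4 * na) *
      (((1 + d) ^ (rho * (14 + 2 * c + 2 * l + (10 + c + 2 * l) + 2))) ^ 2 *
        (gm * 2 ^ (10 + c + 2 * l) * (2 ^ (6 + c + 2 * l) + (10 + c + 2 * l) + 3) + 1) *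
          (1 + 2 * 2 ^ (5 + c + l)))
      ≤ 2 ^ c * (4 * na) * ((2 ^ W) ^ 2 * (8 * (2 ^ c * na ^ 2)) * 2 ^ (7 + c + l)) := by gcongr
    _ = na * ((na * na) * 2 ^ (12 + 3 * c + l + 2 * W)) := by
        ring
    _ = na * 2 ^ (28 + 5 * c + 5 * l + 2 * W) := by
        rw [e3, ← pow_add]
        congr 2
        ring
    _ < na * 2 ^ (2 ^ l - 1) := by
        refine Nat.mul_lt_mul_of_pos_left ?_ hna1
        exact Nat.pow_lt_pow_right (by norm_num) (by omega)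

/-- The comparison of the number of codes with the number of contents. -/
theorem num7 {c l d nQ m y0 : ℕ} (hd : 1 + d ≤ 2 ^ c) (hQ : nQ ≤ 2 ^ c) (hl20 : 20 ≤ l)
    (hm : 1 ≤ m)
    (hy : 2 ^ c * (4 * 2 ^ (8 + c + 2 * l)) * y0 < 2 ^ (8 + c + 2 * l) * 2 ^ (2 ^ l - 1)) :
    2 ^ (5 + c + l) * (nQ * (2 ^ (3 * 2 ^ (8 + c + 2 * l)) * (2 ^ (3 * 2 ^ (8 + c + 2 * l)) *
      ((2 ^ (3 * 2 ^ (8 + c + 2 * l)) * (2 ^ (3 * 2 ^ (8 + c + 2 * l)) * d + 1) ^ d + 1) ^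
        (m * y0) * (2 ^ 2 ^ (8 + c + 2 * l) * 2 ^ (9 + c + l)) ^ (2 ^ (2 ^ l - 1) * m))))) <
      (2 ^ 2 ^ (10 + c + 2 * l)) ^ (2 ^ (2 ^ l - 1) * m) := by
  set na := 2 ^ (8 + c + 2 * l) with hna
  have e2 : 2 ^ (10 + c + 2 * l) = 4 * na := by
    rw [hna, show 10 + c + 2 * l = 8 + c + 2 * l + 1 + 1 by ring, pow_succ, pow_succ]
    ring
  have h4t : 4 * (8 + c + 2 * l) + 4 < na := by
    have : ∀ n : ℕ, 5 ≤ n → 4 * n + 4 < 2 ^ n := by
      intro n hn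
      induction n, hn using Nat.le_induction with
      | base => norm_num
      | succ n hn ih => rw [pow_succ]; omega
    exact this _ (by omega)
  set A := 2 ^ (3 * na) with hA
  have hA1 : 1 ≤ A := Nat.one_le_two_pow
  have hc1 : 1 ≤ 2 ^ c := Nat.one_le_two_pow
  have h1 : A * d + 1 ≤ 2 ^ (3 * na + c) := by
    calc A * d + 1 ≤ A * (1 + d) := by nlinarith
      _ ≤ A * 2 ^ c := Nat.mul_le_mul_left _ hd
      _ = 2 ^ (3 * na + c) := by rw [hA, pow_add]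
  have h2 : A * (A * d + 1) ^ d + 1 ≤ 2 ^ (2 ^ c * (4 * na)) := by
    have h3 : A * (A * d + 1) ^ d ≤ 2 ^ ((3 * na + c) * (1 + d)) := by
      calc A * (A * d + 1) ^ d ≤ 2 ^ (3 * na + c) * (2 ^ (3 * na + c)) ^ d := by
            gcongr
            exact Nat.pow_le_pow_right (by norm_num) (by omega)
        _ = 2 ^ ((3 * na + c) * (1 + d)) := by
            rw [← pow_mul, ← pow_add]
            congr 1
            ring
    calc A * (A * d + 1) ^ d + 1 ≤ 2 ^ ((3 * na + c) * (1 + d)) + 2 ^ ((3 * na + c) * (1 + d)) :=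
          Nat.add_le_add h3 Nat.one_le_two_pow
      _ = 2 ^ ((3 * na + c) * (1 + d) + 1) := by rw [pow_succ]; ring
      _ ≤ 2 ^ (2 ^ c * (4 * na)) := by
          refine Nat.pow_le_pow_right (by norm_num) ?_
          have h5 : (3 * na + c) * (1 + d) ≤ (3 * na + c) * 2 ^ c := Nat.mul_le_mul_left _ hd
          have h6 : c + 1 ≤ na := by omega
          nlinarith
  have h3 : 2 ^ na * 2 ^ (9 + c + l) ≤ 2 ^ (2 * na) := by
    rw [← pow_add]
    exact Nat.pow_le_pow_right (by norm_num) (by omega)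
  have h4 : 2 ^ (5 + c + l) * (2 ^ c * (A * A)) ≤ 2 ^ (7 * na) := by
    rw [hA, ← pow_add, ← pow_add, ← pow_add]
    exact Nat.pow_le_pow_right (by norm_num) (by omega)
  set t0 := 2 ^ (2 ^ l - 1) with ht0
  have h7 : 7 ≤ t0 := by
    have h8 : l < 2 ^ l := Nat.lt_two_pow_self
    have h9 : 2 ^ 3 ≤ t0 := Nat.pow_le_pow_right (by norm_num) (by omega)
    omega
  rw [e2]
  calc 2 ^ (5 + c + l) * (nQ * (A * (A *
      ((A * (A * d + 1) ^ d + 1) ^ (m * y0) * (2 ^ na * 2 ^ (9 + c + l)) ^ (t0 * m)))))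
      ≤ 2 ^ (5 + c + l) * (2 ^ c * (A * (A *
        ((2 ^ (2 ^ c * (4 * na))) ^ (m * y0) * (2 ^ (2 * na)) ^ (t0 * m))))) := by gcongr
    _ = 2 ^ (5 + c + l) * (2 ^ c * (A * A)) *
        ((2 ^ (2 ^ c * (4 * na))) ^ (m * y0) * (2 ^ (2 * na)) ^ (t0 * m)) := by ring
    _ ≤ 2 ^ (7 * na) * ((2 ^ (2 ^ c * (4 * na))) ^ (m * y0) * (2 ^ (2 * na)) ^ (t0 * m)) := by
        gcongr
    _ = 2 ^ (7 * na + (2 ^ c * (4 * na) * (m * y0) + 2 * na * (t0 * m))) := by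
        rw [← pow_mul, ← pow_mul, ← pow_add, ← pow_add]
    _ < 2 ^ (4 * na * (t0 * m)) := by
        refine Nat.pow_lt_pow_right (by norm_num) ?_
        have h8 : 2 ^ c * (4 * na) * (m * y0) = m * (2 ^ c * (4 * na) * y0) := by ring
        have h9 : m * (2 ^ c * (4 * na) * y0) < m * (na * t0) := Nat.mul_lt_mul_of_pos_left hy hm
        have h10 : 7 * na ≤ na * (t0 * m) := by
          have : 7 ≤ t0 * m := h7.trans (Nat.le_mul_of_pos_right _ hm)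
          nlinarith
        rw [h8]
        nlinarith
    _ = (2 ^ (4 * na)) ^ (t0 * m) := by rw [← pow_mul]

end Pool.Agent.V7H69.KS
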