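import Pool.Agent.V7H69.KS.Core
import Pool.Agent.V7H69.KS.Disp
import Pool.Agent.V7H69.KS.Num

/-!
# The choice of the parameters
-/

set_option autoImplicit false
set_option linter.unusedSimpArgs false
set_option linter.unusedVariables false
set_option linter.unusedSectionVars false

namespace Pool.Agent.V7H69.KS

open Finset

/-- The links of one system. -/
theorem exists_links {na kp lam e : ℕ} (hlam : 1 ≤ lam) (h : 1 + 2 * na < 2 * (kp * lam)) :
    ∃ G : ℕ → ℕ → ℕ, (∀ a v, a < 2 ^ na → v < kp → G a v < (2 ^ (2 * lam)) ^ (e + 1)) ∧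
      ∀ S : Finset ℕ, S.card < 2 ^ (lam - 1) * (2 ^ (2 * lam)) ^ e →
        (univ.filter fun a : Fin (2 ^ na) => ∀ v < kp, G a v ∈ S).card <
          2 * ((2 ^ (2 * lam) - 1) * (2 ^ (2 * lam)) ^ e) := by
  classical
  set mu : ℕ := 2 ^ (2 * lam) with hmu
  have hmu1 : 2 ^ lam * 2 ^ (lam - 1) ≤ mu - 1 := by
    have e1 : 2 ^ lam * 2 ^ (lam - 1) * 2 = mu := by
      rw [hmu, ← pow_add, ← pow_succ]
      congr 1
      omega
    have e2 : 0 < 2 ^ lam * 2 ^ (lam - 1) := by positivity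
    omega
  have hm0 : 0 < (mu - 1) * mu ^ e := by
    have : 0 < 2 ^ lam * 2 ^ (lam - 1) := by positivity
    have h2 : 0 < mu := by positivity
    exact Nat.mul_pos (by omega) (pow_pos h2 e)
  obtain ⟨g, hg⟩ := exists_disperser (2 ^ na) kp ((mu - 1) * mu ^ e) (2 ^ (lam - 1) * mu ^ e) hm0
    (by
      set m := (mu - 1) * mu ^ e with hm
      set th := 2 ^ (lam - 1) * mu ^ e with hth
      have h1 : 2 ^ lam * th ≤ m := by
        rw [hth, hm, ← mul_assoc]
        exact Nat.mul_le_mul_right _ hmu1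
      have h2 : 0 < th := by positivity
      have h3 : (2 ^ lam * th) ^ (2 * m * kp) ≤ m ^ (2 * m * kp) := Nat.pow_le_pow_left h1 _
      refine lt_of_lt_of_le ?_ h3
      have h4 : m * (1 + 2 * na) < m * (2 * (kp * lam)) := Nat.mul_lt_mul_of_pos_left h hm0
      have h5 : m + na * (2 * m) < lam * (2 * m * kp) :=
        calc m + na * (2 * m) = m * (1 + 2 * na) := by ring
          _ < m * (2 * (kp * lam)) := h4
          _ = lam * (2 * m * kp) := by ring
      calc 2 ^ m * (2 ^ na) ^ (2 * m) * th ^ (2 * m * kp)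
          = 2 ^ (m + na * (2 * m)) * th ^ (2 * m * kp) := by rw [← pow_mul, ← pow_add]
        _ < 2 ^ (lam * (2 * m * kp)) * th ^ (2 * m * kp) :=
            Nat.mul_lt_mul_of_pos_right (Nat.pow_lt_pow_right (by norm_num) h5) (pow_pos h2 _)
        _ = (2 ^ lam * th) ^ (2 * m * kp) := by rw [pow_mul, ← mul_pow])
  obtain ⟨G, hG⟩ : ∃ G : ℕ → ℕ → ℕ, ∀ a v (ha : a < 2 ^ na) (hv : v < kp),
      G a v = mu ^ e + (g ⟨a, ha⟩ ⟨v, hv⟩ : ℕ) := by
    refine ⟨fun a v => if h : a < 2 ^ na ∧ v < kp then mu ^ e + g ⟨a, h.1⟩ ⟨v, h.2⟩ else 0, ?_⟩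
    intro a v ha hv
    simp [ha, hv]
  refine ⟨G, ?_, ?_⟩
  · intro a v ha hv
    rw [hG a v ha hv]
    have h1 := (g ⟨a, ha⟩ ⟨v, hv⟩).2
    have h2 : mu ^ e + (mu - 1) * mu ^ e = mu ^ (e + 1) := by
      have h3 : 0 < mu := by positivity
      obtain ⟨k, hk⟩ : ∃ k, mu = k + 1 := ⟨mu - 1, by omega⟩
      rw [hk]
      simp only [Nat.add_sub_cancel]
      ring
    omega
  · intro S hS
    let S' : Finset (Fin ((mu - 1) * mu ^ e)) := univ.filter fun i => mu ^ e + (i : ℕ) ∈ S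
    have h1 : S'.card ≤ S.card := by
      refine card_le_card_of_injOn (fun i => mu ^ e + (i : ℕ)) ?_ ?_
      · intro i hi
        simp only [S', coe_filter, Set.mem_ofPred_eq] at hi
        exact hi.2
      · intro i _ j _ hij
        simp only at hij
        exact Fin.ext (by omega)
    refine lt_of_le_of_lt (card_le_card ?_) (hg S' (by omega))
    intro a ha
    rw [mem_filter] at ha ⊢
    refine ⟨mem_univ _, fun v => ?_⟩
    have h2 := ha.2 v v.2
    rw [hG _ _ a.2 v.2] at h2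
    simpa [S'] using h2

/-- A large parameter. -/
theorem exists_ell (c : ℕ) : ∃ l : ℕ, 20 ≤ l ∧
    29 + 5 * c + 5 * l + 2 * c ^ 2 * (26 + 3 * c + 4 * l) < 2 ^ l := by
  refine ⟨4 * c + 20, by omega, ?_⟩
  have h1 : c + 1 ≤ 2 ^ c := Nat.lt_two_pow_self
  have h2 : (c + 1) ^ 4 ≤ (2 ^ c) ^ 4 := Nat.pow_le_pow_left h1 4
  have h3 : 2 ^ (4 * c + 20) = 1048576 * (2 ^ c) ^ 4 := by
    rw [pow_add, mul_comm 4 c, pow_mul]
    norm_num
    ring
  rw [h3]
  nlinarith [sq_nonneg c, Nat.zero_le (c ^ 3), Nat.zero_le (c ^ 2), Nat.zero_le (c ^ 4)]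

/-- The parameters. -/
def mkPar (c l : ℕ) (G : ℕ → ℕ → ℕ → ℕ)
    (hG : ∀ a < 2 ^ 2 ^ (8 + c + 2 * l), ∀ e < 2 ^ (5 + c + l), ∀ v < 2 ^ (9 + c + l),
      G a e v < 2 ^ 2 ^ (6 + c + 2 * l)) : Par where
  LX := 2 ^ (6 + c + 2 * l)
  sw := 10 + c + 2 * l
  na := 2 ^ (8 + c + 2 * l)
  s1 := 14 + 2 * c + 2 * l
  E := 2 ^ (5 + c + l)
  kp := 2 ^ (9 + c + l)
  X := 2 ^ 2 ^ (6 + c + 2 * l)
  hX := le_rfl
  hE := by
    rw [← pow_add]
    exact Nat.pow_le_pow_right (by norm_num) (by omega)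
  G := G
  hG := hG

/-- No Kolmogorov-Uspenskii machine simulates this storage modification machine in real time. -/
theorem no_simulation (K : KUM) : ¬ Dev.Simulates K.toDev smm.toDev := by
  intro hsim
  obtain ⟨g, c0, hgood, hout⟩ := Simulates.iface hsim
  have H : Hyp K g c0 := ⟨hgood, hout⟩
  obtain ⟨c, hcdef⟩ : ∃ c, c = gam K g + (1 + Fintype.card K.L) + rho K g + Fintype.card K.Q +
    c0.fresh + K.k * ((g + 1) * 3) := ⟨_, rfl⟩
  have hlt : c < 2 ^ c := Nat.lt_two_pow_self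
  have hgm : gam K g ≤ 2 ^ c := by omega
  have hd : 1 + Fintype.card K.L ≤ 2 ^ c := by omega
  have hr : rho K g ≤ c := by omega
  have hQ : Fintype.card K.Q ≤ 2 ^ c := by omega
  have hf : c0.fresh ≤ 2 ^ c := by omega
  have hk : K.k * ((g + 1) * 3) ≤ 2 ^ c := by omega
  clear hcdef
  obtain ⟨l, hl20, hl⟩ := exists_ell c
  have hlam : 1 ≤ 2 ^ l := Nat.one_le_two_pow
  set mu : ℕ := 2 ^ (2 * 2 ^ l) with hmu
  have hmu0 : 0 < mu := by positivity
  have hmuE : mu ^ 2 ^ (5 + c + l) = 2 ^ 2 ^ (6 + c + 2 * l) := by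
    rw [hmu, ← pow_mul]
    congr 1
    rw [mul_assoc, ← pow_add, ← pow_succ']
    congr 1
    omega
  have hlk := fun e => exists_links (e := e) hlam (num3 c l)
  choose G hG1 hG2 using hlk
  have hmule : ∀ e < 2 ^ (5 + c + l), mu ^ (e + 1) ≤ 2 ^ 2 ^ (6 + c + 2 * l) := by
    intro e he
    rw [← hmuE]
    exact Nat.pow_le_pow_right hmu0 he
  let P : Par := mkPar c l (fun a e v => G e a v) (by
    intro a ha e he v hv
    exact (hG1 e a v ha hv).trans_le (hmule e he))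
  have hA : ∀ b, (cfin g c0 P b).fresh < 2 ^ (3 * 2 ^ (8 + c + 2 * l)) := by
    intro b
    have h1 := (feeds_good K g c0 (codes (P.all b)) hgood).2
    rw [codes_length] at h1
    have h2 : (P.all b).length = 2 ^ 2 ^ (8 + c + 2 * l) * (2 ^ (5 + c + l) * 2 ^ (9 + c + l)) *
        (2 ^ (8 + c + 2 * l) + (14 + 2 * c + 2 * l) + 2 ^ (6 + c + 2 * l) + 6) +
        2 ^ 2 ^ (6 + c + 2 * l) * 2 ^ (10 + c + 2 * l) *
        (2 ^ (6 + c + 2 * l) + (10 + c + 2 * l) + 3) := by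
      unfold Par.all
      rw [List.length_append, P.setup_length, P.upd_length]
      rfl
    rw [h2] at h1
    refine lt_of_le_of_lt ?_ (num4 hf hk hl20)
    refine h1.trans (le_of_eq ?_)
    ring
  refine core (P := P) (Q := 2 ^ (5 + c + l)) (μ := mu) (A := 2 ^ (3 * 2 ^ (8 + c + 2 * l)))
    (N := fun e => mu ^ e) (θ := fun e => 2 ^ (2 ^ l - 1) * mu ^ e)
    (M := fun e => 2 * ((mu - 1) * mu ^ e))
    (ym := fun e => mu ^ e * (((1 + Fintype.card K.L) ^ rad g P K) ^ 2 *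
      (gam K g * P.w * (P.LX + P.sw + 3) + 1) * (1 + 2 * 2 ^ (5 + c + l))))
    H hmu0 ?_ ?_ ?_ ?_ ?_ ?_ hA ?_ ?_ ?_
  · intro e _
    exact Nat.pow_le_pow_right hmu0 (Nat.le_succ e)
  · intro e he
    exact hmule e he
  · intro a ha e he v hv
    exact hG1 e a v ha hv
  · intro e he S hS
    exact hG2 e S hS
  · exact num1 hgm
  · intro e he
    exact num2 he (by omega)
  · intro e he
    exact num5 hmu0 (by positivity)
  · intro e he
    have h1 : 2 ^ (2 ^ l - 1) ≤ mu := by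
      rw [hmu]
      exact Nat.pow_le_pow_right (by norm_num) (by omega)
    calc 2 ^ (2 ^ l - 1) * mu ^ e ≤ mu * mu ^ e := Nat.mul_le_mul_right _ h1
      _ = mu ^ (e + 1) := by rw [pow_succ']
      _ ≤ 2 ^ 2 ^ (6 + c + 2 * l) := hmule e he
  · intro e he
    have h6 := num6 hd hr hgm hl hl20
    have h7 := num7 (m := mu ^ e) hd hQ hl20 (Nat.one_le_pow _ _ hmu0) h6
    exact h7

end Pool.Agent.V7H69.KS
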