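import Pool.Agent.V7H69.KS.DevLem

/-!
# A storage modification machine which interprets simple commands
-/

set_option autoImplicit false
set_option linter.unusedSimpArgs false
set_option linter.unusedVariables false

namespace Pool.Agent.V7H69.KS

/-- The letters of the machine: `z`, `o` are the two sons of a vertex, `m` is its mark; `p`, `q`,
`r` are the registers (edges of the centre). -/
inductive Lt where
  | z | o | m | p | q | r
  deriving DecidableEq

instance : Fintype Lt where
  elems := {.z, .o, .m, .p, .q, .r}
  complete x := by cases x <;> decide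

/-- The control states. -/
inductive St where
  | i0 | i1 | i2
  | rd | a0 | a1 | b00 | b01 | b10 | b11
  | go0 | go0n | go0m | go1 | go1n | go1m
  | reset | save | lnk | mark | unmark | out | o0 | o1
  deriving DecidableEq

instance : Fintype St where
  elems := {.i0, .i1, .i2, .rd, .a0, .a1, .b00, .b01, .b10, .b11, .go0, .go0n, .go0m, .go1, .go1n,
    .go1m, .reset, .save, .lnk, .mark, .unmark, .out, .o0, .o1}
  complete x := by cases x <;> decide

/-- The program. -/
def prog : St → SInstr Lt St
  | .i0 => .new [] .r .i1
  | .i1 => .set [] .p [.r] .i2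
  | .i2 => .set [] .q [.r] .rd
  | .rd => .input .a0 .a1
  | .a0 => .input .b00 .b01
  | .a1 => .input .b10 .b11
  | .b00 => .input .go0 .go1
  | .b01 => .input .reset .save
  | .b10 => .input .lnk .mark
  | .b11 => .input .unmark .out
  | .go0 => .test [.p, .z] [] .go0n .go0m
  | .go0n => .new [.p] .z .go0m
  | .go0m => .set [] .p [.p, .z] .rd
  | .go1 => .test [.p, .o] [] .go1n .go1m
  | .go1n => .new [.p] .o .go1m
  | .go1m => .set [] .p [.p, .o] .rd
  | .reset => .set [] .p [.r] .rd
  | .save => .set [] .q [.p] .rd
  | .lnk => .set [.p] .z [.q] .rd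
  | .mark => .set [.p] .m [.p] .rd
  | .unmark => .set [.p] .m [] .rd
  | .out => .test [.p, .m] [.p] .o1 .o0
  | .o0 => .output false .rd
  | .o1 => .output true .rd

/-- The machine. -/
def smm : SMM where
  D := Lt
  Q := St
  start := .i0
  instr := prog

/-- The commands. -/
inductive Cmd where
  | go (b : Bool)
  | reset | save | lnk
  | mark (b : Bool)
  | out
  deriving DecidableEq

/-- The codes of the commands. -/
def Cmd.code : Cmd → List Bool
  | .go false => [false, false, false]
  | .go true => [false, false, true]
  | .reset => [false, true, false]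
  | .save => [false, true, true]
  | .lnk => [true, false, false]
  | .mark true => [true, false, true]
  | .mark false => [true, true, false]
  | .out => [true, true, true]

theorem Cmd.code_length (a : Cmd) : a.code.length = 3 := by
  cases a with
  | go b => cases b <;> rfl
  | mark b => cases b <;> rfl
  | _ => rfl

/-- The code of a list of commands. -/
def codes (l : List Cmd) : List Bool := l.flatMap Cmd.code

theorem codes_append (l l' : List Cmd) : codes (l ++ l') = codes l ++ codes l' := by
  simp [codes]

theorem codes_length (l : List Cmd) : (codes l).length = 3 * l.length := by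
  induction l with
  | nil => rfl
  | cons a l ih =>
    have : codes (a :: l) = a.code ++ codes l := rfl
    rw [this, List.length_append, ih, Cmd.code_length, List.length_cons]
    ring

/-! ### The abstract machine -/

/-- States of the abstract machine: it moves in the infinite binary tree, where the left sons of some
vertices are replaced by other vertices. -/
structure Sp where
  cur : List Bool
  sav : List Bool
  lk : List Bool → Option (List Bool)
  mrk : List Bool → Bool

/-- The son of a vertex. -/
def Sp.son (s : Sp) (u : List Bool) (b : Bool) : List Bool :=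
  match b, s.lk u with
  | false, some v => v
  | _, _ => u ++ [b]

/-- One command. -/
def Sp.step (s : Sp) : Cmd → Sp × List Bool
  | .go b => ({ s with cur := s.son s.cur b }, [])
  | .reset => ({ s with cur := [] }, [])
  | .save => ({ s with sav := s.cur }, [])
  | .lnk => ({ s with lk := Function.update s.lk s.cur (some s.sav) }, [])
  | .mark b => ({ s with mrk := Function.update s.mrk s.cur b }, [])
  | .out => (s, [s.mrk s.cur])

/-- A list of commands. -/
def Sp.steps : Sp → List Cmd → Sp × List Bool
  | s, [] => (s, [])
  | s, a :: l => (((s.step a).1.steps l).1, (s.step a).2 ++ ((s.step a).1.steps l).2)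

theorem Sp.steps_append (s : Sp) (u w : List Cmd) :
    s.steps (u ++ w) =
      (((s.steps u).1.steps w).1, (s.steps u).2 ++ ((s.steps u).1.steps w).2) := by
  induction u generalizing s with
  | nil => simp [Sp.steps]
  | cons b u ih => simp [Sp.steps, ih]

/-- The initial state. -/
def Sp.init : Sp where
  cur := []
  sav := []
  lk := fun _ => none
  mrk := fun _ => false

/-- The relation between the configurations of the two machines; `φ u` is the vertex with the address
`u`, or `0` if it has not been created. -/
structure Rel (φ : List Bool → ℕ) (c : SConf Lt St) (s : Sp) : Prop where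
  q : c.q = .rd
  root : c.p 0 .r = φ []
  root_ne : φ [] ≠ 0
  cur : c.p 0 .p = φ s.cur
  cur_ne : φ s.cur ≠ 0
  sav : c.p 0 .q = φ s.sav
  sav_ne : φ s.sav ≠ 0
  inj : ∀ u v, φ u = φ v → φ u ≠ 0 → u = v
  lt : ∀ u, φ u < c.n
  down : ∀ u b, φ u = 0 → φ (u ++ [b]) = 0
  son0 : ∀ u, φ u ≠ 0 → s.lk u = none → c.p (φ u) .z = φ (u ++ [false])
  son0' : ∀ u v, φ u ≠ 0 → s.lk u = some v → c.p (φ u) .z = φ v ∧ φ v ≠ 0
  son1 : ∀ u, φ u ≠ 0 → c.p (φ u) .o = φ (u ++ [true])
  mrk : ∀ u, φ u ≠ 0 → c.p (φ u) .m = if s.mrk u then φ u else 0
  non : ∀ u, φ u = 0 → s.mrk u = false ∧ s.lk u = none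

theorem Rel.pos {φ : List Bool → ℕ} {c : SConf Lt St} {s : Sp} (h : Rel φ c s) : 0 < c.n :=
  (Nat.zero_le _).trans_lt (h.lt [])

/-- The number of steps that the machine needs at most between two inputs. -/
def gS : ℕ := 4

abbrev dS : Dev where
  C := SConf Lt St
  init := { q := .i0, n := 1, p := fun _ _ => 0 }
  step := smm.step

theorem dS_eq : smm.toDev = dS := rfl

theorem rel_init : ∃ φ, Rel φ (dS.settle gS dS.init).1 Sp.init := by
  refine ⟨fun u => if u = [] then 1 else 0, ?_⟩
  have : (dS.settle gS dS.init).1 =
      ({ q := .rd, n := 2, p := fun v y => if v = 0 ∧ (y = .r ∨ y = .p ∨ y = .q) then 1 else 0 } :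
        SConf Lt St) := by
    simp only [gS, dS, SMM.toDev, Dev.settle, SMM.step, smm, prog]
    congr 1
    funext v y
    by_cases hv : v = 0
    · subst hv
      cases y <;> simp
    · by_cases hv1 : v = 1
      · subst hv1
        cases y <;> simp
      · cases y <;> simp [hv, hv1]
  rw [this]
  constructor <;> simp [Sp.init]
  · intro u v
    by_cases hu : u = [] <;> by_cases hv : v = [] <;> simp [hu, hv]
  · intro u
    by_cases hu : u = [] <;> simp [hu]

theorem settle_step0 (c : SConf Lt St) (n : ℕ) (f) (h : smm.step c = .inp f) :
    dS.settle n c = (c, []) := by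
  cases n with
  | zero => rfl
  | succ n => simp [Dev.settle, dS, SMM.toDev, h]

theorem step_rd (c : SConf Lt St) (h : c.q = .rd) : ∃ f, smm.step c = .inp f := by
  simp only [SMM.step, smm, prog, h]
  exact ⟨_, rfl⟩

theorem settle_rd (c : SConf Lt St) (n : ℕ) (h : c.q = .rd) : dS.settle n c = (c, []) := by
  obtain ⟨f, hf⟩ := step_rd c h
  exact settle_step0 c n f hf

/-- After the three bits of the code of a command the machine starts to execute the instructions of
the command. -/
theorem feeds_code (c : SConf Lt St) (h : c.q = .rd) (a : Cmd) :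
    dS.feeds gS c a.code = dS.settle gS { c with q :=
      match a with
      | .go false => .go0
      | .go true => .go1
      | .reset => .reset
      | .save => .save
      | .lnk => .lnk
      | .mark true => .mark
      | .mark false => .unmark
      | .out => .out } := by
  obtain ⟨q, n, p⟩ := c
  subst h
  cases a with
  | go b => cases b <;> simp [Cmd.code, Dev.feeds, Dev.feed, dS, SMM.toDev, SMM.step, smm, prog, gS, Dev.settle]
  | mark b => cases b <;> simp [Cmd.code, Dev.feeds, Dev.feed, dS, SMM.toDev, SMM.step, smm, prog, gS, Dev.settle]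
  | _ => simp [Cmd.code, Dev.feeds, Dev.feed, dS, SMM.toDev, SMM.step, smm, prog, gS, Dev.settle]

theorem settle_tau (c c' : SConf Lt St) (n : ℕ) (h : smm.step c = .tau c') :
    dS.settle (n + 1) c = dS.settle n c' := by
  simp only [Dev.settle, dS, SMM.toDev, h]

theorem settle_out (c c' : SConf Lt St) (n : ℕ) (b : Bool) (h : smm.step c = .out b c') :
    dS.settle (n + 1) c = ((dS.settle n c').1, b :: (dS.settle n c').2) := by
  simp only [Dev.settle, dS, SMM.toDev, h]

/-- Change an edge. -/
abbrev setp (c : SConf Lt St) (a : ℕ) (l : Lt) (v : ℕ) : SConf Lt St :=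
  { q := .rd, n := c.n, p := fun x y => if x = a ∧ y = l then v else c.p x y }

/-- Moving to an existing son. -/
theorem rel_move {φ : List Bool → ℕ} {c : SConf Lt St} {s : Sp} (h : Rel φ c s) (v : List Bool)
    (hv : φ v ≠ 0) :
    Rel φ (setp c 0 .p (φ v)) { s with cur := v } where
  q := rfl
  root := by simpa using h.root
  root_ne := h.root_ne
  cur := by simp
  cur_ne := hv
  sav := by simpa using h.sav
  sav_ne := h.sav_ne
  inj := h.inj
  lt := h.lt
  down := h.down
  son0 u hu hl := by simpa using h.son0 u hu hl
  son0' u v hu hl := by simpa using h.son0' u v hu hl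
  son1 u hu := by simpa using h.son1 u hu
  mrk u hu := by simpa using h.mrk u hu
  non := h.non

/-- The letter of a son. -/
def sl (b : Bool) : Lt := if b then .o else .z

theorem sl_ne (b : Bool) : sl b ≠ .p ∧ sl b ≠ .q ∧ sl b ≠ .r ∧ sl b ≠ .m := by
  cases b <;> simp [sl]

theorem Rel.son {φ : List Bool → ℕ} {c : SConf Lt St} {s : Sp} (h : Rel φ c s) (u : List Bool)
    (hu : φ u ≠ 0) (b : Bool) : c.p (φ u) (sl b) = φ (s.son u b) := by
  cases b with
  | false =>
    cases hl : s.lk u with
    | none => simpa [sl, Sp.son, hl] using h.son0 u hu hl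
    | some v => simpa [sl, Sp.son, hl] using (h.son0' u v hu hl).1
  | true => simpa [sl, Sp.son] using h.son1 u hu

/-- Creation of a son. -/
theorem rel_new {φ : List Bool → ℕ} {c : SConf Lt St} {s : Sp} (h : Rel φ c s) (b : Bool)
    (h0 : φ (s.son s.cur b) = 0) :
    Rel (Function.update φ (s.cur ++ [b]) c.n)
      { q := .rd, n := c.n + 1, p := fun x y => if x = c.n then 0
          else if x = φ s.cur ∧ y = sl b then c.n else c.p x y } s ∧
      Function.update φ (s.cur ++ [b]) c.n (s.son s.cur b) ≠ 0 := by
  have hson : s.son s.cur b = s.cur ++ [b] := by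
    cases b with
    | true => rfl
    | false =>
      cases hl : s.lk s.cur with
      | none => simp [Sp.son, hl]
      | some v =>
        exfalso
        have := (h.son0' s.cur v h.cur_ne hl).2
        simp [Sp.son, hl] at h0
        exact this h0
  have hpos := h.pos
  have hn : c.n ≠ 0 := hpos.ne'
  rw [hson] at h0 ⊢
  have hne : s.cur ++ [b] ≠ [] := by simp
  have hcur : s.cur ≠ s.cur ++ [b] := by
    intro e
    have := congrArg List.length e
    simp at this
  have hφ : ∀ u, φ u ≠ 0 → Function.update φ (s.cur ++ [b]) c.n u = φ u := by
    intro u hu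
    rw [Function.update_of_ne]
    rintro rfl
    exact hu h0
  have hlt : ∀ u, φ u ≠ c.n := fun u => (h.lt u).ne
  have h0n : (0 : ℕ) ≠ c.n := fun e => hn e.symm
  have hz : ∀ u, Function.update φ (s.cur ++ [b]) c.n u ≠ 0 → u ≠ s.cur ++ [b] → φ u ≠ 0 := by
    intro u h1 h2
    rwa [Function.update_of_ne h2] at h1
  obtain ⟨l1, l2, l3, l4⟩ := sl_ne b
  refine ⟨?_, by simpa using hn⟩
  constructor
  · rfl
  · simp only [if_neg h0n]
    rw [if_neg (by rintro ⟨-, e⟩; exact l3 e.symm), h.root, hφ _ h.root_ne]
  · rw [hφ _ h.root_ne]
    exact h.root_ne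
  · simp only [if_neg h0n]
    rw [if_neg (by rintro ⟨-, e⟩; exact l1 e.symm), h.cur, hφ _ h.cur_ne]
  · rw [hφ _ h.cur_ne]
    exact h.cur_ne
  · simp only [if_neg h0n]
    rw [if_neg (by rintro ⟨-, e⟩; exact l2 e.symm), h.sav, hφ _ h.sav_ne]
  · rw [hφ _ h.sav_ne]
    exact h.sav_ne
  · intro u v huv hu
    by_cases h1 : u = s.cur ++ [b] <;> by_cases h2 : v = s.cur ++ [b]
    · rw [h1, h2]
    · subst h1
      rw [Function.update_self, Function.update_of_ne h2] at huv
      exact absurd huv.symm (hlt v)
    · subst h2
      rw [Function.update_self, Function.update_of_ne h1] at huv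
      exact absurd huv (hlt u)
    · rw [Function.update_of_ne h1, Function.update_of_ne h2] at huv
      rw [Function.update_of_ne h1] at hu
      exact h.inj u v huv hu
  · intro u
    by_cases h1 : u = s.cur ++ [b]
    · subst h1
      rw [Function.update_self]
      exact Nat.lt_succ_self _
    · rw [Function.update_of_ne h1]
      exact (h.lt u).trans (Nat.lt_succ_self _)
  · intro u b' hu
    have h1 : u ≠ s.cur ++ [b] := by
      rintro rfl
      rw [Function.update_self] at hu
      exact hn hu
    rw [Function.update_of_ne h1] at hu
    have h2 : u ++ [b'] ≠ s.cur ++ [b] := by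
      intro e
      have := List.append_inj' e rfl
      rw [this.1] at hu
      exact h.cur_ne hu
    rw [Function.update_of_ne h2]
    exact h.down u b' hu
  · intro u hu hl
    by_cases h1 : u = s.cur ++ [b]
    · subst h1
      rw [Function.update_self]
      simp only [if_true]
      rw [Function.update_of_ne (by simp), h.down _ _ h0]
    · have hu' := hz u hu h1
      rw [hφ u hu']
      simp only [if_neg (hlt u)]
      by_cases h2 : u = s.cur
      · subst h2
        cases b with
        | false =>
          rw [if_pos ⟨rfl, rfl⟩, Function.update_self]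
        | true =>
          rw [if_neg (by simp [sl]), Function.update_of_ne (by simp)]
          exact h.son0 _ hu' hl
      · rw [if_neg (by rintro ⟨e, -⟩; exact h2 (h.inj _ _ e hu')), Function.update_of_ne]
        · exact h.son0 _ hu' hl
        · intro e
          exact h2 (List.append_inj' e rfl).1
  · intro u v hu hl
    by_cases h1 : u = s.cur ++ [b]
    · subst h1
      have := (h.non _ h0).2
      rw [this] at hl
      exact absurd hl (by simp)
    · have hu' := hz u hu h1
      obtain ⟨k1, k2⟩ := h.son0' u v hu' hl
      rw [hφ u hu', hφ v k2]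
      simp only [if_neg (hlt u)]
      refine ⟨?_, k2⟩
      rw [if_neg, k1]
      rintro ⟨e1, e2⟩
      have e3 := h.inj _ _ e1 hu'
      subst e3
      have : b = false := by
        cases b with
        | false => rfl
        | true => simp [sl] at e2
      subst this
      have h5 : s.son s.cur false = v := by simp [Sp.son, hl]
      rw [← hson, h5] at h0
      exact k2 h0
  · intro u hu
    by_cases h1 : u = s.cur ++ [b]
    · subst h1
      rw [Function.update_self]
      simp only [if_true]
      rw [Function.update_of_ne (by simp), h.down _ _ h0]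
    · have hu' := hz u hu h1
      rw [hφ u hu']
      simp only [if_neg (hlt u)]
      by_cases h2 : u = s.cur
      · subst h2
        cases b with
        | true =>
          rw [if_pos ⟨rfl, rfl⟩, Function.update_self]
        | false =>
          rw [if_neg (by simp [sl]), Function.update_of_ne (by simp)]
          exact h.son1 _ hu'
      · rw [if_neg (by rintro ⟨e, -⟩; exact h2 (h.inj _ _ e hu')), Function.update_of_ne]
        · exact h.son1 _ hu'
        · intro e
          exact h2 (List.append_inj' e rfl).1
  · intro u hu
    by_cases h1 : u = s.cur ++ [b]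
    · subst h1
      rw [Function.update_self]
      simp only [if_true]
      rw [(h.non _ h0).1]
      rfl
    · have hu' := hz u hu h1
      rw [hφ u hu']
      simp only [if_neg (hlt u)]
      rw [if_neg (by rintro ⟨-, e⟩; exact l4 e.symm)]
      exact h.mrk u hu'
  · intro u hu
    have h1 : u ≠ s.cur ++ [b] := by
      rintro rfl
      rw [Function.update_self] at hu
      exact hn hu
    rw [Function.update_of_ne h1] at hu
    exact h.non u hu

/-- The control states of `go`. -/
def gst (b : Bool) : St × St × St := if b then (.go1, .go1n, .go1m) else (.go0, .go0n, .go0m)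

theorem go_step1 (b : Bool) (n : ℕ) (p : ℕ → Lt → ℕ) :
    smm.step ({ q := (gst b).1, n := n, p := p } : SConf Lt St) =
      .tau ({ q := if p (p 0 .p) (sl b) = 0 then (gst b).2.1 else (gst b).2.2, n := n, p := p } :
        SConf Lt St) := by
  cases b
  · simp only [SMM.step, smm, prog, gst, sl]
    rfl
  · simp only [SMM.step, smm, prog, gst, sl]
    rfl

theorem go_step2 (b : Bool) (n : ℕ) (p : ℕ → Lt → ℕ) :
    smm.step ({ q := (gst b).2.1, n := n, p := p } : SConf Lt St) =
      .tau ({ q := (gst b).2.2, n := n + 1, p := fun v y => if v = n then p (p 0 .p) (sl b)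
          else if v = p 0 .p ∧ y = sl b then n else p v y } : SConf Lt St) := by
  cases b
  · simp only [SMM.step, smm, prog, gst, sl]
    rfl
  · simp only [SMM.step, smm, prog, gst, sl]
    rfl

theorem go_step3 (b : Bool) (n : ℕ) (p : ℕ → Lt → ℕ) :
    smm.step ({ q := (gst b).2.2, n := n, p := p } : SConf Lt St) =
      .tau ({ q := .rd, n := n, p := fun v y => if v = 0 ∧ y = .p then p (p 0 .p) (sl b)
          else p v y } : SConf Lt St) := by
  cases b
  · simp only [SMM.step, smm, prog, gst, sl]
    rfl
  · simp only [SMM.step, smm, prog, gst, sl]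
    rfl

theorem rel_go {φ : List Bool → ℕ} {c : SConf Lt St} {s : Sp} (h : Rel φ c s) (b : Bool) :
    ∃ c' φ', dS.settle gS ({ c with q := (gst b).1 } : SConf Lt St) = (c', []) ∧
      Rel φ' c' { s with cur := s.son s.cur b } := by
  obtain ⟨q, n, p⟩ := c
  have e0 : p (p 0 .p) (sl b) = φ (s.son s.cur b) := by
    have h1 : p 0 .p = φ s.cur := h.cur
    rw [h1]
    exact h.son s.cur h.cur_ne b
  by_cases h0 : φ (s.son s.cur b) = 0
  · have hp : p 0 .p = φ s.cur := h.cur
    have hn : (0 : ℕ) ≠ n := (h.pos).ne
    obtain ⟨r1, r2⟩ := rel_new h b h0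
    have r3 := rel_move r1 _ r2
    refine ⟨_, _, ?_, r3⟩
    rw [gS, settle_tau _ _ 3 (go_step1 b n p), e0, h0, if_pos rfl,
      settle_tau _ _ 2 (go_step2 b n p), settle_tau _ _ 1 (go_step3 b _ _), settle_rd _ _ rfl]
    congr 2
    funext v y
    rw [e0, h0, hp]
    simp only [if_neg hn]
    by_cases hv : v = 0 ∧ y = .p
    · simp only [if_pos hv]
      obtain ⟨l1, l2, l3, l4⟩ := sl_ne b
      have h5 : ¬ (0 = φ s.cur ∧ Lt.p = sl b) := by
        rintro ⟨-, e⟩
        exact l1 e.symm
      have hson : s.son s.cur b = s.cur ++ [b] := by
        cases b with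
        | true => rfl
        | false =>
          cases hl : s.lk s.cur with
          | none => simp [Sp.son, hl]
          | some v =>
            exfalso
            have := (h.son0' s.cur v h.cur_ne hl).2
            simp [Sp.son, hl] at h0
            exact this h0
      rw [hson, Function.update_self]
      simp only [if_neg h5, hp]
      have h6 : φ s.cur ≠ n := (h.lt _).ne
      simp [h6]
    · simp only [if_neg hv]
  · refine ⟨_, φ, ?_, rel_move h _ h0⟩
    rw [gS, settle_tau _ _ 3 (go_step1 b n p), e0, if_neg h0,
        settle_tau _ _ 2 (go_step3 b _ _), settle_rd _ _ rfl, e0]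

theorem rel_cmd {φ : List Bool → ℕ} {c : SConf Lt St} {s : Sp} (h : Rel φ c s) (a : Cmd) :
    ∃ c' φ', dS.feeds gS c a.code = (c', (s.step a).2) ∧ Rel φ' c' (s.step a).1 := by
  rw [feeds_code c h.q a]
  cases a with
  | go b =>
    have := rel_go h b
    cases b
    · exact this
    · exact this
  | reset =>
    refine ⟨_, φ, ?_, rel_move h [] h.root_ne⟩
    rw [gS, settle_tau _ (setp c 0 .p (φ [])) 3 ?_, settle_rd _ _ rfl]
    · rfl
    · simp only [SMM.step, smm, prog]
      have := h.root
      simp only [List.foldl, this]
  | save =>
    refine ⟨setp c 0 .q (φ s.cur), φ, ?_, ?_⟩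
    · rw [gS, settle_tau _ (setp c 0 .q (φ s.cur)) 3 ?_, settle_rd _ _ rfl]
      · rfl
      · simp only [SMM.step, smm, prog]
        have := h.cur
        simp only [List.foldl, this]
    · constructor
      · rfl
      · simpa [Sp.step] using h.root
      · exact h.root_ne
      · simpa [Sp.step] using h.cur
      · exact h.cur_ne
      · simp [Sp.step]
      · exact h.cur_ne
      · exact h.inj
      · exact h.lt
      · exact h.down
      · intro u hu hl
        simpa [Sp.step] using h.son0 u hu hl
      · intro u v hu hl
        simpa [Sp.step] using h.son0' u v hu hl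
      · intro u hu
        simpa [Sp.step] using h.son1 u hu
      · intro u hu
        refine Eq.trans ?_ (h.mrk u hu)
        simp
      · exact h.non
  | lnk =>
    refine ⟨setp c (φ s.cur) .z (φ s.sav), φ, ?_, ?_⟩
    · rw [gS, settle_tau _ (setp c (φ s.cur) .z (φ s.sav)) 3 ?_, settle_rd _ _ rfl]
      · rfl
      · simp only [SMM.step, smm, prog]
        have h1 := h.cur
        have h2 := h.sav
        simp only [List.foldl, h1, h2]
    · constructor
      · rfl
      · simpa [Sp.step] using h.root
      · exact h.root_ne
      · simpa [Sp.step] using h.cur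
      · exact h.cur_ne
      · simpa [Sp.step] using h.sav
      · exact h.sav_ne
      · exact h.inj
      · exact h.lt
      · exact h.down
      · intro u hu hl
        simp only [Sp.step] at hl
        have h1 : u ≠ s.cur := by
          rintro rfl
          simp at hl
        rw [Function.update_of_ne h1] at hl
        have h2 : φ u ≠ φ s.cur := fun e => h1 (h.inj _ _ e hu)
        simpa [h2] using h.son0 u hu hl
      · intro u v hu hl
        simp only [Sp.step] at hl
        by_cases h1 : u = s.cur
        · subst h1
          rw [Function.update_self] at hl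
          simp only [Option.some.injEq] at hl
          subst hl
          simp [h.sav_ne]
        · rw [Function.update_of_ne h1] at hl
          have h2 : φ u ≠ φ s.cur := fun e => h1 (h.inj _ _ e hu)
          simpa [h2] using h.son0' u v hu hl
      · intro u hu
        simpa [Sp.step] using h.son1 u hu
      · intro u hu
        refine Eq.trans ?_ (h.mrk u hu)
        simp
      · intro u hu
        have h1 : u ≠ s.cur := by
          rintro rfl
          exact h.cur_ne hu
        simp only [Sp.step]
        rw [Function.update_of_ne h1]
        exact h.non u hu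
  | mark b =>
    refine ⟨setp c (φ s.cur) .m (if b then φ s.cur else 0), φ, ?_, ?_⟩
    · cases b with
      | true =>
        rw [gS, settle_tau _ (setp c (φ s.cur) .m (if true then φ s.cur else 0)) 3 ?_,
          settle_rd _ _ rfl]
        · rfl
        · simp only [SMM.step, smm, prog]
          have h1 := h.cur
          simp only [List.foldl, h1]
          rfl
      | false =>
        rw [gS, settle_tau _ (setp c (φ s.cur) .m (if false then φ s.cur else 0)) 3 ?_,
          settle_rd _ _ rfl]
        · rfl
        · simp only [SMM.step, smm, prog]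
          have h1 := h.cur
          simp only [List.foldl, h1]
          rfl
    · constructor
      · rfl
      · simpa [Sp.step] using h.root
      · exact h.root_ne
      · simpa [Sp.step] using h.cur
      · exact h.cur_ne
      · simpa [Sp.step] using h.sav
      · exact h.sav_ne
      · exact h.inj
      · exact h.lt
      · exact h.down
      · intro u hu hl
        simpa [Sp.step] using h.son0 u hu hl
      · intro u v hu hl
        simpa [Sp.step] using h.son0' u v hu hl
      · intro u hu
        simpa [Sp.step] using h.son1 u hu
      · intro u hu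
        by_cases h1 : u = s.cur
        · subst h1
          simp [Sp.step]
        · have h2 : φ u ≠ φ s.cur := fun e => h1 (h.inj _ _ e hu)
          simpa [h2, Sp.step, Function.update_of_ne h1] using h.mrk u hu
      · intro u hu
        have h1 : u ≠ s.cur := by
          rintro rfl
          exact h.cur_ne hu
        simp only [Sp.step]
        rw [Function.update_of_ne h1]
        exact h.non u hu
  | out =>
    have e1 : c.p (c.p 0 .p) .m = if s.mrk s.cur then φ s.cur else 0 := by
      rw [h.cur]
      exact h.mrk _ h.cur_ne
    have e2 : smm.step ({ q := .out, n := c.n, p := c.p } : SConf Lt St) =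
        .tau ({ q := if s.mrk s.cur then .o1 else .o0, n := c.n, p := c.p } : SConf Lt St) := by
      rw [h.cur] at e1
      simp only [SMM.step, smm, prog, List.foldl, h.cur, e1]
      cases hm : s.mrk s.cur with
      | true => simp
      | false =>
        have : (0 : ℕ) ≠ φ s.cur := fun e => h.cur_ne e.symm
        simp [this]
    have e3 : ∀ b : Bool, smm.step ({ q := if b then .o1 else .o0, n := c.n, p := c.p } :
        SConf Lt St) = .out b ({ q := .rd, n := c.n, p := c.p } : SConf Lt St) := by
      intro b
      cases b <;> rfl
    refine ⟨{ q := .rd, n := c.n, p := c.p }, φ, ?_, ?_⟩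
    · rw [gS, settle_tau _ _ 3 e2, settle_out _ _ 2 _ (e3 _), settle_rd _ _ rfl]
      rfl
    · have : ({ q := .rd, n := c.n, p := c.p } : SConf Lt St) = c := by
        cases c
        have := h.q
        simp_all
      rw [this]
      exact h

theorem rel_cmds {φ : List Bool → ℕ} {c : SConf Lt St} {s : Sp} (h : Rel φ c s) (l : List Cmd) :
    ∃ c' φ', dS.feeds gS c (codes l) = (c', (s.steps l).2) ∧ Rel φ' c' (s.steps l).1 := by
  induction l generalizing φ c s with
  | nil => exact ⟨c, φ, rfl, h⟩
  | cons a l ih =>
    obtain ⟨c1, φ1, h1, h2⟩ := rel_cmd h a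
    obtain ⟨c2, φ2, h3, h4⟩ := ih h2
    refine ⟨c2, φ2, ?_, h4⟩
    have : codes (a :: l) = a.code ++ codes l := rfl
    rw [this, Dev.feeds_append, h1]
    simp only [h3]
    rfl

end Pool.Agent.V7H69.KS
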