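import Pool.Agent.V7H69.KS.Kum
import Pool.Agent.V7H69.KS.Smm

/-!
# What a real-time simulation of the machine gives
-/

set_option autoImplicit false
set_option linter.unusedSimpArgs false
set_option linter.unusedVariables false

namespace Pool.Agent.V7H69.KS

theorem exists_codes (n : ℕ) : ∀ w : List Bool, w.length ≤ n →
    ∃ l r, w = codes l ++ r ∧ r.length < 3 := by
  induction n using Nat.strong_induction_on with
  | _ n ih =>
    intro w hw
    match w, hw with
    | [], _ => exact ⟨[], [], rfl, by simp⟩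
    | [a], _ => exact ⟨[], [a], rfl, by simp⟩
    | [a, b], _ => exact ⟨[], [a, b], rfl, by simp⟩
    | a :: b :: c :: w, hw =>
      obtain ⟨l, r, h1, h2⟩ := ih (n - 3) (by simp at hw; omega) w (by simp at hw; omega)
      have : ∃ x : Cmd, x.code = [a, b, c] := by
        cases a <;> cases b <;> cases c
        · exact ⟨.go false, rfl⟩
        · exact ⟨.go true, rfl⟩
        · exact ⟨.reset, rfl⟩
        · exact ⟨.save, rfl⟩
        · exact ⟨.lnk, rfl⟩
        · exact ⟨.mark true, rfl⟩
        · exact ⟨.mark false, rfl⟩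
        · exact ⟨.out, rfl⟩
      obtain ⟨x, hx⟩ := this
      refine ⟨x :: l, r, ?_, h2⟩
      have : codes (x :: l) = x.code ++ codes l := rfl
      rw [this, hx, h1]
      simp

theorem ready_short (c : SConf Lt St) (h : c.q = .rd) (r : List Bool) (hr : r.length < 3) :
    dS.Ready (dS.feeds gS c r).1 := by
  obtain ⟨q, n, p⟩ := c
  subst h
  match r, hr with
  | [], _ => exact ⟨_, rfl⟩
  | [a], _ => cases a <;> exact ⟨_, rfl⟩
  | [a, b], _ => cases a <;> cases b <;> exact ⟨_, rfl⟩

theorem ready_all (w : List Bool) : dS.Ready (dS.feeds gS (dS.settle gS dS.init).1 w).1 := by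
  obtain ⟨l, r, rfl, hr⟩ := exists_codes w.length w le_rfl
  obtain ⟨φ, hφ⟩ := rel_init
  obtain ⟨c', φ', e, h⟩ := rel_cmds hφ (l := l)
  rw [Dev.feeds_append, e]
  exact ready_short c' h.q r hr

/-- What a real-time simulation gives. -/
theorem Simulates.iface {K : KUM} (h : Dev.Simulates K.toDev smm.toDev) :
    ∃ (g : ℕ) (c0 : KConf K.L K.Q), Good K c0 ∧ ∀ l l' : List Cmd,
      ((kdev K).feeds g ((kdev K).feeds g c0 (codes l)).1 (codes l')).2 =
        ((Sp.init.steps l).1.steps l').2 := by
  rw [kdev_eq, dS_eq] at h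
  obtain ⟨g, hg⟩ := h.feeds gS ready_all
  refine ⟨g, ((kdev K).settle g (kdev K).init).1, (settle_good K g _ (good_init K)).1, ?_⟩
  intro l l'
  obtain ⟨φ, hφ⟩ := rel_init
  have h1 := (hg (codes l)).2
  have h2 := (hg (codes (l ++ l'))).2
  obtain ⟨c1, φ1, e1, k1⟩ := rel_cmds hφ (l := l)
  obtain ⟨c2, φ2, e2, k2⟩ := rel_cmds hφ (l := l ++ l')
  rw [e1] at h1
  rw [e2] at h2
  rw [codes_append, Dev.feeds_append, Sp.steps_append] at h2
  simp only at h1 h2
  rw [h1] at h2
  exact List.append_cancel_left h2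

end Pool.Agent.V7H69.KS
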