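import Pool.Agent.V7H69.KS.Smm

/-!
# The computations used in the lower bound
-/

set_option autoImplicit false
set_option linter.unusedSimpArgs false
set_option linter.unusedVariables false

namespace Pool.Agent.V7H69.KS

/-- Go along a word. -/
def gos (u : List Bool) : List Cmd := u.map Cmd.go

theorem gos_append (u v : List Bool) : gos (u ++ v) = gos u ++ gos v := by simp [gos]

theorem gos_length (u : List Bool) : (gos u).length = u.length := by simp [gos]

theorem steps_gos (v : List Bool) : ∀ (s : Sp),
    (∀ p t, v = p ++ t → t ≠ [] → s.lk (s.cur ++ p) = none) →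
    s.steps (gos v) = ({ s with cur := s.cur ++ v }, []) := by
  induction v with
  | nil =>
    intro s h
    simp [gos, Sp.steps]
  | cons b v ih =>
    intro s h
    have h0 : s.lk s.cur = none := by
      have := h [] (b :: v) rfl (by simp)
      simpa using this
    have hson : s.son s.cur b = s.cur ++ [b] := by
      unfold Sp.son
      rw [h0]
      cases b <;> rfl
    have e : gos (b :: v) = Cmd.go b :: gos v := rfl
    rw [e]
    simp only [Sp.steps, Sp.step, hson]
    have := ih { s with cur := s.cur ++ [b] } (by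
      intro p t hv ht
      have := h (b :: p) t (by rw [hv]; rfl) ht
      simpa using this)
    rw [this]
    simp

/-- A set of words, such that no word on the way to `u` belongs to it. -/
def NoF (F : List Bool → Prop) (u : List Bool) : Prop := ∀ p t, u = p ++ t → t ≠ [] → ¬ F p

/-- Commands which link `p.1` to `p.2`. -/
def linkCmds (p : List Bool × List Bool) : List Cmd :=
  Cmd.reset :: gos p.2 ++ [Cmd.save, Cmd.reset] ++ gos p.1 ++ [Cmd.lnk]

/-- Commands which mark `p.1`. -/
def markCmds (p : List Bool × Bool) : List Cmd :=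
  Cmd.reset :: gos p.1 ++ [Cmd.mark p.2]

theorem steps_reset (s : Sp) (l : List Cmd) :
    s.steps (Cmd.reset :: l) = (({ s with cur := [] } : Sp)).steps l := by
  simp [Sp.steps, Sp.step]

theorem steps_linkCmds {F : List Bool → Prop} (s : Sp) (p : List Bool × List Bool)
    (hs : ∀ u, s.lk u ≠ none → F u) (h1 : NoF F p.1) (h2 : NoF F p.2) :
    s.steps (linkCmds p) = (⟨p.1, p.2, Function.update s.lk p.1 (some p.2), s.mrk⟩, []) := by
  have hlk : ∀ u, ¬ F u → s.lk u = none := by
    intro u hu
    by_contra h
    exact hu (hs u h)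
  unfold linkCmds
  have e : Cmd.reset :: gos p.2 ++ [Cmd.save, Cmd.reset] ++ gos p.1 ++ [Cmd.lnk] =
      Cmd.reset :: (gos p.2 ++ (Cmd.save :: Cmd.reset :: (gos p.1 ++ [Cmd.lnk]))) := by simp
  rw [e, steps_reset, Sp.steps_append, steps_gos]
  · simp only [List.nil_append]
    rw [show ∀ (s : Sp) (l : List Cmd), s.steps (Cmd.save :: l) =
      (({ s with sav := s.cur } : Sp)).steps l from fun s l => by simp [Sp.steps, Sp.step]]
    rw [steps_reset, Sp.steps_append, steps_gos]
    · simp [Sp.steps, Sp.step]
    · intro q t hq ht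
      simpa using hlk _ (h1 q t hq ht)
  · intro q t hq ht
    simpa using hlk _ (h2 q t hq ht)

theorem steps_markCmds {F : List Bool → Prop} (s : Sp) (p : List Bool × Bool)
    (hs : ∀ u, s.lk u ≠ none → F u) (h1 : NoF F p.1) :
    s.steps (markCmds p) = (⟨p.1, s.sav, s.lk, Function.update s.mrk p.1 p.2⟩, []) := by
  have hlk : ∀ u, ¬ F u → s.lk u = none := by
    intro u hu
    by_contra h
    exact hu (hs u h)
  unfold markCmds
  have e : Cmd.reset :: gos p.1 ++ [Cmd.mark p.2] =
      Cmd.reset :: (gos p.1 ++ [Cmd.mark p.2]) := by simp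
  rw [e, steps_reset, Sp.steps_append, steps_gos]
  · simp [Sp.steps, Sp.step]
  · intro q t hq ht
    simpa using hlk _ (h1 q t hq ht)

theorem steps_links {F : List Bool → Prop} (l : List (List Bool × List Bool)) :
    ∀ (s : Sp), (∀ u, s.lk u ≠ none → F u) → (∀ p ∈ l, F p.1 ∧ NoF F p.1 ∧ NoF F p.2) →
    (l.map Prod.fst).Nodup →
    (s.steps (l.flatMap linkCmds)).2 = [] ∧
      (∀ u, (s.steps (l.flatMap linkCmds)).1.lk u ≠ none → F u) ∧
      (∀ p ∈ l, (s.steps (l.flatMap linkCmds)).1.lk p.1 = some p.2) ∧
      (∀ u, u ∉ l.map Prod.fst → (s.steps (l.flatMap linkCmds)).1.lk u = s.lk u) := by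
  induction l with
  | nil =>
    intro s hs _ _
    simpa [Sp.steps] using hs
  | cons p l ih =>
    intro s hs hl hnd
    rw [List.map_cons, List.nodup_cons] at hnd
    obtain ⟨hp1, hp2, hp3⟩ := hl p (by simp)
    rw [List.flatMap_cons, Sp.steps_append, steps_linkCmds s p hs hp2 hp3]
    obtain ⟨k1, k2, k3, k4⟩ := ih ⟨p.1, p.2, Function.update s.lk p.1 (some p.2), s.mrk⟩ (by
        intro u hu
        by_cases h : u = p.1
        · rw [h]
          exact hp1
        · simp only [Function.update_of_ne h] at hu
          exact hs u hu) (fun q hq => hl q (by simp [hq])) hnd.2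
    refine ⟨by simpa using k1, k2, ?_, ?_⟩
    · intro q hq
      rcases List.mem_cons.1 hq with rfl | hq
      · rw [k4 _ hnd.1]
        simp
      · exact k3 q hq
    · intro u hu
      rw [List.map_cons, List.mem_cons, not_or] at hu
      rw [k4 u hu.2]
      simp [Function.update_of_ne hu.1]

theorem steps_marks {F : List Bool → Prop} (l : List (List Bool × Bool)) :
    ∀ (s : Sp), (∀ u, s.lk u ≠ none → F u) → (∀ p ∈ l, NoF F p.1) → (l.map Prod.fst).Nodup →
    (s.steps (l.flatMap markCmds)).2 = [] ∧
      (s.steps (l.flatMap markCmds)).1.lk = s.lk ∧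
      (∀ p ∈ l, (s.steps (l.flatMap markCmds)).1.mrk p.1 = p.2) ∧
      (∀ u, u ∉ l.map Prod.fst → (s.steps (l.flatMap markCmds)).1.mrk u = s.mrk u) := by
  induction l with
  | nil =>
    intro s hs _ _
    simp [Sp.steps]
  | cons p l ih =>
    intro s hs hl hnd
    rw [List.map_cons, List.nodup_cons] at hnd
    have hp1 := hl p (by simp)
    rw [List.flatMap_cons, Sp.steps_append, steps_markCmds s p hs hp1]
    obtain ⟨k1, k2, k3, k4⟩ := ih ⟨p.1, s.sav, s.lk, Function.update s.mrk p.1 p.2⟩ hs
        (fun q hq => hl q (by simp [hq])) hnd.2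
    refine ⟨by simpa using k1, k2, ?_, ?_⟩
    · intro q hq
      rcases List.mem_cons.1 hq with rfl | hq
      · rw [k4 _ hnd.1]
        simp
      · exact k3 q hq
    · intro u hu
      rw [List.map_cons, List.mem_cons, not_or] at hu
      rw [k4 u hu.2]
      simp [Function.update_of_ne hu.1]

/-- Binary words. -/
def bw (n x : ℕ) : List Bool := List.ofFn fun i : Fin n => x.testBit i

theorem bw_length (n x : ℕ) : (bw n x).length = n := by simp [bw]

theorem bw_inj {n x y : ℕ} (hx : x < 2 ^ n) (hy : y < 2 ^ n) (h : bw n x = bw n y) : x = y := by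
  apply Nat.eq_of_testBit_eq
  intro i
  by_cases hi : i < n
  · have := List.ofFn_injective h
    exact congrFun this ⟨i, hi⟩
  · have h1 : 2 ^ n ≤ 2 ^ i := Nat.pow_le_pow_right (by norm_num) (by omega)
    rw [Nat.testBit_eq_false_of_lt (hx.trans_le h1), Nat.testBit_eq_false_of_lt (hy.trans_le h1)]

/-- The parameters of the computation: `LX` is the length of the hub addresses, `sw` the length of
the addresses of the bits of a hub, `na` the length of the block addresses, `s1` the length of the
addresses of the links in a block, `E` the number of the systems, `kp` the number of the links of a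
system in a block, `NA` the number of the blocks. -/
structure Par where
  LX : ℕ
  sw : ℕ
  na : ℕ
  s1 : ℕ
  E : ℕ
  kp : ℕ
  X : ℕ
  hX : X ≤ 2 ^ LX
  hE : E * kp ≤ 2 ^ s1
  /-- the hub to which the link `v` of the system `e` in the block `a` leads -/
  G : ℕ → ℕ → ℕ → ℕ
  hG : ∀ a < 2 ^ na, ∀ e < E, ∀ v < kp, G a e v < X

namespace Par

variable (P : Par)

/-- The number of bits of a hub. -/
def w : ℕ := 2 ^ P.sw

/-- The address of a hub. -/
def hub (x : ℕ) : List Bool := true :: bw P.LX x

/-- The address of a bit. -/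
def bit (x j : ℕ) : List Bool := P.hub x ++ bw P.sw j

/-- The address of a link. -/
def lnk (a e v : ℕ) : List Bool := false :: bw P.na a ++ bw P.s1 (e * P.kp + v)

theorem bit_length (x j : ℕ) : (P.bit x j).length = P.LX + 1 + P.sw := by
  simp [bit, hub, bw_length]
  omega

theorem lnk_length (a e v : ℕ) : (P.lnk a e v).length = P.na + 1 + P.s1 := by
  simp [lnk, bw_length]
  omega

/-- The words that can be addresses of links. -/
def F (u : List Bool) : Prop := u.length = P.na + 1 + P.s1 ∧ u.head? = some false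

theorem F_lnk (a e v : ℕ) : P.F (P.lnk a e v) := ⟨P.lnk_length a e v, rfl⟩

theorem noF_lnk (a e v : ℕ) : NoF P.F (P.lnk a e v) := by
  intro p t h ht hF
  have h1 := congrArg List.length h
  rw [P.lnk_length, List.length_append, hF.1] at h1
  have : t.length = 0 := by omega
  exact ht (List.length_eq_zero_iff.1 this)

theorem noF_true (u : List Bool) : NoF P.F (true :: u) := by
  intro p t h ht hF
  cases p with
  | nil => simpa using hF.2
  | cons b p =>
    simp only [List.cons_append, List.cons.injEq] at h
    have := hF.2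
    simp only [List.head?_cons, Option.some.injEq] at this
    rw [this] at h
    exact absurd h.1 (by simp)

theorem noF_bit (x j : ℕ) : NoF P.F (P.bit x j) := P.noF_true _

theorem hub_inj {x y : ℕ} (hx : x < P.X) (hy : y < P.X) (h : P.hub x = P.hub y) : x = y := by
  simp only [hub, List.cons.injEq, true_and] at h
  exact bw_inj (hx.trans_le P.hX) (hy.trans_le P.hX) h

theorem bit_inj {x y i j : ℕ} (hx : x < P.X) (hy : y < P.X) (hi : i < P.w) (hj : j < P.w)
    (h : P.bit x i = P.bit y j) : x = y ∧ i = j := by
  have := List.append_inj h (by simp [hub, bw_length])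
  exact ⟨P.hub_inj hx hy this.1, bw_inj hi hj this.2⟩

theorem lnk_inj {a a' e e' v v' : ℕ} (ha : a < 2 ^ P.na) (ha' : a' < 2 ^ P.na) (he : e < P.E)
    (he' : e' < P.E) (hv : v < P.kp) (hv' : v' < P.kp) (h : P.lnk a e v = P.lnk a' e' v') :
    a = a' ∧ e = e' ∧ v = v' := by
  have h1 := List.append_inj h (by simp [bw_length])
  obtain ⟨h2, h3⟩ := h1
  simp only [List.cons.injEq, true_and] at h2
  have ha := bw_inj ha ha' h2
  have hlt : ∀ e < P.E, ∀ v < P.kp, e * P.kp + v < 2 ^ P.s1 := by
    intro e he v hv
    have h4 : (e + 1) * P.kp ≤ P.E * P.kp := Nat.mul_le_mul_right _ he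
    have h5 := P.hE
    nlinarith
  have h6 := bw_inj (hlt e he v hv) (hlt e' he' v' hv') h3
  have h7 : e = e' := by
    have k1 : (e * P.kp + v) / P.kp = e := by
      rw [mul_comm, Nat.mul_add_div (by omega), Nat.div_eq_of_lt hv, add_zero]
    have k2 : (e' * P.kp + v') / P.kp = e' := by
      rw [mul_comm, Nat.mul_add_div (by omega), Nat.div_eq_of_lt hv', add_zero]
    rw [← k1, ← k2, h6]
  refine ⟨ha, h7, ?_⟩
  subst h7
  omega

/-- The list of the links. -/
def linkList : List (List Bool × List Bool) :=
  (List.range (2 ^ P.na)).flatMap fun a => (List.range P.E).flatMap fun e =>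
    (List.range P.kp).map fun v => (P.lnk a e v, P.hub (P.G a e v))

/-- The commands at the start. -/
def setup : List Cmd := P.linkList.flatMap linkCmds

theorem mem_linkList {p : List Bool × List Bool} : p ∈ P.linkList ↔
    ∃ a < 2 ^ P.na, ∃ e < P.E, ∃ v < P.kp, (P.lnk a e v, P.hub (P.G a e v)) = p := by
  simp [linkList, List.mem_flatMap]

theorem nodup_linkList : (P.linkList.map Prod.fst).Nodup := by
  have e : P.linkList.map Prod.fst = (List.range (2 ^ P.na)).flatMap fun a =>
      (List.range P.E).flatMap fun e => (List.range P.kp).map fun v => P.lnk a e v := by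
    simp [linkList, List.map_flatMap, Function.comp_def]
  rw [e, List.nodup_flatMap]
  have hin : ∀ a < 2 ^ P.na, ∀ e < P.E, ((List.range P.kp).map fun v => P.lnk a e v).Nodup := by
    intro a ha e he
    refine List.Nodup.map_on ?_ List.nodup_range
    intro v hv v' hv' h
    rw [List.mem_range] at hv hv'
    exact (P.lnk_inj ha ha he he hv hv' h).2.2
  refine ⟨?_, ?_⟩
  · intro a ha
    rw [List.mem_range] at ha
    rw [List.nodup_flatMap]
    refine ⟨fun e he => hin a ha e (List.mem_range.1 he), ?_⟩
    refine List.Pairwise.imp_of_mem ?_ (List.nodup_range (n := P.E))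
    intro e e' he he' hne
    rw [List.mem_range] at he he'
    simp only [Function.onFun, List.Disjoint, List.mem_map, List.mem_range]
    rintro u ⟨v, hv, rfl⟩ ⟨v', hv', h⟩
    exact hne (P.lnk_inj ha ha he he' hv hv' h.symm).2.1
  · refine List.Pairwise.imp_of_mem ?_ (List.nodup_range (n := 2 ^ P.na))
    intro a a' ha ha' hne
    rw [List.mem_range] at ha ha'
    simp only [Function.onFun, List.Disjoint, List.mem_flatMap, List.mem_map, List.mem_range]
    rintro u ⟨e, he, v, hv, rfl⟩ ⟨e', he', v', hv', h⟩
    exact hne (P.lnk_inj ha ha' he he' hv hv' h.symm).1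

theorem steps_setup : (Sp.init.steps P.setup).2 = [] ∧
    (∀ u, (Sp.init.steps P.setup).1.lk u ≠ none → P.F u) ∧
    (∀ a < 2 ^ P.na, ∀ e < P.E, ∀ v < P.kp,
      (Sp.init.steps P.setup).1.lk (P.lnk a e v) = some (P.hub (P.G a e v))) := by
  obtain ⟨k1, k2, k3, k4⟩ := steps_links (F := P.F) P.linkList Sp.init (by simp [Sp.init]) (by
    intro p hp
    rw [P.mem_linkList] at hp
    obtain ⟨a, ha, e, he, v, hv, rfl⟩ := hp
    exact ⟨P.F_lnk a e v, P.noF_lnk a e v, P.noF_true _⟩) P.nodup_linkList
  refine ⟨k1, k2, ?_⟩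
  intro a ha e he v hv
  exact k3 _ (P.mem_linkList.2 ⟨a, ha, e, he, v, hv, rfl⟩)

/-- The list of the bits of a hub. -/
def bitList (b : ℕ → ℕ → Bool) (x : ℕ) : List (List Bool × Bool) :=
  (List.range P.w).map fun j => (P.bit x j, b x j)

/-- The list of the bits of the hubs `n + k - 1, …, n`. -/
def bitsList (b : ℕ → ℕ → Bool) (n : ℕ) : ℕ → List (List Bool × Bool)
  | 0 => []
  | k + 1 => P.bitList b (n + k) ++ bitsList b n k

/-- The commands which write the bits of the hubs `n + k - 1, …, n`. -/
def upd (b : ℕ → ℕ → Bool) (n k : ℕ) : List Cmd := (P.bitsList b n k).flatMap markCmds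

theorem bitsList_add (b : ℕ → ℕ → Bool) (n k : ℕ) :
    P.bitsList b 0 (n + k) = P.bitsList b n k ++ P.bitsList b 0 n := by
  induction k with
  | zero => simp [bitsList]
  | succ k ih =>
    rw [← add_assoc, bitsList, ih, bitsList, zero_add, List.append_assoc]

theorem upd_add (b : ℕ → ℕ → Bool) (n k : ℕ) : P.upd b 0 (n + k) = P.upd b n k ++ P.upd b 0 n := by
  unfold upd
  rw [bitsList_add, List.flatMap_append]

theorem bitsList_congr {b b' : ℕ → ℕ → Bool} {n k : ℕ} (h : ∀ x, n ≤ x → b x = b' x) :
    P.bitsList b n k = P.bitsList b' n k := by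
  induction k with
  | zero => rfl
  | succ k ih =>
    rw [bitsList, bitsList, ih]
    simp only [bitList]
    rw [h (n + k) (Nat.le_add_right _ _)]

theorem upd_congr {b b' : ℕ → ℕ → Bool} {n k : ℕ} (h : ∀ x, n ≤ x → b x = b' x) :
    P.upd b n k = P.upd b' n k := by
  unfold upd
  rw [P.bitsList_congr h]

theorem mem_bitsList {b : ℕ → ℕ → Bool} {n k : ℕ} {p : List Bool × Bool} :
    p ∈ P.bitsList b n k ↔ ∃ x, n ≤ x ∧ x < n + k ∧ ∃ j < P.w, (P.bit x j, b x j) = p := by
  induction k with
  | zero =>
    simp only [bitsList, List.not_mem_nil, false_iff, not_exists, not_and]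
    intro x h1 h2
    omega
  | succ k ih =>
    rw [bitsList, List.mem_append, ih]
    simp only [bitList, List.mem_map, List.mem_range]
    constructor
    · rintro (⟨j, hj, rfl⟩ | ⟨x, h1, h2, h⟩)
      · exact ⟨n + k, by omega, by omega, j, hj, rfl⟩
      · exact ⟨x, h1, by omega, h⟩
    · rintro ⟨x, h1, h2, j, hj, rfl⟩
      by_cases hx : x = n + k
      · subst hx
        exact Or.inl ⟨j, hj, rfl⟩
      · exact Or.inr ⟨x, h1, by omega, j, hj, rfl⟩

theorem nodup_bitsList {b : ℕ → ℕ → Bool} {n k : ℕ} (h : n + k ≤ P.X) :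
    ((P.bitsList b n k).map Prod.fst).Nodup := by
  induction k with
  | zero => simp [bitsList]
  | succ k ih =>
    rw [bitsList, List.map_append, List.nodup_append]
    refine ⟨?_, ih (by omega), ?_⟩
    · simp only [bitList, List.map_map, Function.comp_def]
      refine List.Nodup.map_on ?_ List.nodup_range
      intro v hv v' hv' h1
      rw [List.mem_range] at hv hv'
      exact (P.bit_inj (by omega) (by omega) hv hv' h1).2
    · intro u hu u' hu' heq
      subst heq
      rw [List.mem_map] at hu hu'
      obtain ⟨p, hp, rfl⟩ := hu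
      obtain ⟨p', hp', hpp⟩ := hu'
      simp only [bitList, List.mem_map, List.mem_range] at hp
      obtain ⟨j, hj, rfl⟩ := hp
      obtain ⟨x, h1, h2, j', hj', rfl⟩ := P.mem_bitsList.1 hp'
      have := (P.bit_inj (by omega) (by omega) hj' hj hpp).1
      omega

/-- All commands which are made before the query. -/
def all (b : ℕ → ℕ → Bool) : List Cmd := P.setup ++ P.upd b 0 P.X

theorem steps_all (b : ℕ → ℕ → Bool) :
    (∀ u, (Sp.init.steps (P.all b)).1.lk u ≠ none → P.F u) ∧
    (∀ a < 2 ^ P.na, ∀ e < P.E, ∀ v < P.kp,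
      (Sp.init.steps (P.all b)).1.lk (P.lnk a e v) = some (P.hub (P.G a e v))) ∧
    (∀ x < P.X, ∀ j < P.w, (Sp.init.steps (P.all b)).1.mrk (P.bit x j) = b x j) := by
  obtain ⟨h1, h2, h3⟩ := P.steps_setup
  obtain ⟨k1, k2, k3, k4⟩ := steps_marks (F := P.F) (P.bitsList b 0 P.X)
    (Sp.init.steps P.setup).1 h2 (by
      intro p hp
      obtain ⟨x, _, _, j, hj, rfl⟩ := P.mem_bitsList.1 hp
      exact P.noF_bit x j) (P.nodup_bitsList (by omega))
  unfold all
  rw [Sp.steps_append]
  simp only
  refine ⟨?_, ?_, ?_⟩
  · unfold upd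
    rw [k2]
    exact h2
  · unfold upd
    rw [k2]
    exact h3
  · intro x hx j hj
    exact k3 _ (P.mem_bitsList.2 ⟨x, by omega, by omega, j, hj, rfl⟩)

/-- The first part of a query. -/
def q1 (a : ℕ) : List Cmd := Cmd.reset :: gos (false :: bw P.na a)

/-- The second part of a query. -/
def q2 (e v j : ℕ) : List Cmd :=
  gos (bw P.s1 (e * P.kp + v)) ++ [Cmd.go false] ++ gos (bw P.sw j) ++ [Cmd.out]

theorem q1_length (a : ℕ) : (P.q1 a).length = P.na + 2 := by
  simp [q1, gos_length, bw_length]

theorem q2_length (e v j : ℕ) : (P.q2 e v j).length = P.s1 + P.sw + 2 := by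
  simp [q2, gos_length, bw_length]
  omega

/-- The answer to a query. -/
theorem steps_query (b : ℕ → ℕ → Bool) {a e v j : ℕ} (ha : a < 2 ^ P.na) (he : e < P.E)
    (hv : v < P.kp) (hj : j < P.w) :
    ((Sp.init.steps (P.all b)).1.steps (P.q1 a ++ P.q2 e v j)).2 = [b (P.G a e v) j] := by
  obtain ⟨h1, h2, h3⟩ := P.steps_all b
  set s := (Sp.init.steps (P.all b)).1 with hs
  have hlk : ∀ u, ¬ P.F u → s.lk u = none := by
    intro u hu
    by_contra h
    exact hu (h1 u h)
  have e1 : P.q1 a ++ P.q2 e v j = Cmd.reset :: (gos (P.lnk a e v) ++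
      (Cmd.go false :: (gos (bw P.sw j) ++ [Cmd.out]))) := by
    simp [q1, q2, lnk, gos_append, gos]
  rw [e1, steps_reset, Sp.steps_append, steps_gos]
  · simp only [List.nil_append]
    rw [show ∀ (s : Sp) (l : List Cmd), s.steps (Cmd.go false :: l) =
      (({ s with cur := s.son s.cur false } : Sp)).steps l from
        fun s l => by simp [Sp.steps, Sp.step]]
    have hson : ({ s with cur := P.lnk a e v } : Sp).son (P.lnk a e v) false =
        P.hub (P.G a e v) := by
      simp [Sp.son, h2 a ha e he v hv]
    simp only [hson]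
    rw [Sp.steps_append, steps_gos]
    · simp only [List.nil_append, Sp.steps, Sp.step, List.append_nil]
      rw [← h3 _ (P.hG a ha e he v hv) j hj]
      rfl
    · intro p t hp ht
      refine hlk _ ?_
      intro hF
      have := hF.2
      simp [hub] at this
  · intro p t hp ht
    simpa using hlk _ (P.noF_lnk a e v p t hp ht)

/-- The number of commands in `upd`. -/
theorem upd_length (b : ℕ → ℕ → Bool) (n k : ℕ) :
    (P.upd b n k).length = k * P.w * (P.LX + P.sw + 3) := by
  unfold upd
  induction k with
  | zero => simp [bitsList]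
  | succ k ih =>
    rw [bitsList, List.flatMap_append, List.length_append, ih]
    have : ((P.bitList b (n + k)).flatMap markCmds).length = P.w * (P.LX + P.sw + 3) := by
      simp only [bitList, List.flatMap_map, List.length_flatMap]
      have : ∀ j, (markCmds (P.bit (n + k) j, b (n + k) j)).length = P.LX + P.sw + 3 := by
        intro j
        simp [markCmds, gos_length, P.bit_length]
        omega
      simp [this]
    rw [this]
    ring

theorem linkCmds_length (a e v x : ℕ) :
    (linkCmds (P.lnk a e v, P.hub x)).length = P.na + P.s1 + P.LX + 6 := by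
  simp [linkCmds, gos_length, P.lnk_length, hub, bw_length]
  omega

/-- The number of commands in `setup`. -/
theorem setup_length :
    P.setup.length = 2 ^ P.na * (P.E * P.kp) * (P.na + P.s1 + P.LX + 6) := by
  unfold setup linkList
  simp only [List.flatMap_assoc, List.flatMap_map, List.length_flatMap, P.linkCmds_length]
  simp
  ring

end Par

end Pool.Agent.V7H69.KS
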