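import Pool.Agent.V7H69.KS.DevLem

/-!
# Locality of Kolmogorov-Uspenskii machines
-/

set_option autoImplicit false
set_option linter.unusedSimpArgs false
set_option linter.unusedVariables false
set_option linter.unusedSectionVars false

namespace Pool.Agent.V7H69.KS

open Finset

section Graph

variable {L : Type} [Fintype L]

/-- A set of vertices together with the neighbours. -/
def nb (adj : Adj L) (S : Finset ℕ) : Finset ℕ :=
  S ∪ S.biUnion fun x => univ.biUnion fun l => ((adj (x, l)).map Prod.fst).toFinset

/-- The vertices at distance at most `n` from `S`. -/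
def ball (adj : Adj L) (S : Finset ℕ) (n : ℕ) : Finset ℕ := (nb adj)^[n] S

theorem mem_nb {adj : Adj L} {S : Finset ℕ} {v : ℕ} :
    v ∈ nb adj S ↔ v ∈ S ∨ ∃ u ∈ S, ∃ l l', adj (u, l) = some (v, l') := by
  simp only [nb, mem_union, mem_biUnion, mem_univ, true_and, Option.mem_toFinset, Option.mem_def,
    Option.map_eq_some_iff, Prod.exists, exists_and_right, exists_eq_right]

theorem subset_nb (adj : Adj L) (S : Finset ℕ) : S ⊆ nb adj S := subset_union_left

theorem nb_mono {adj : Adj L} {S T : Finset ℕ} (h : S ⊆ T) : nb adj S ⊆ nb adj T := by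
  intro v hv
  rw [mem_nb] at hv ⊢
  rcases hv with hv | ⟨u, hu, l, l', e⟩
  · exact Or.inl (h hv)
  · exact Or.inr ⟨u, h hu, l, l', e⟩

theorem card_nb (adj : Adj L) (S : Finset ℕ) : (nb adj S).card ≤ (1 + Fintype.card L) * S.card := by
  refine (card_union_le _ _).trans ?_
  have h1 : (S.biUnion fun x => univ.biUnion fun l => ((adj (x, l)).map Prod.fst).toFinset).card ≤
      S.card * Fintype.card L := by
    refine card_biUnion_le_card_mul _ _ _ fun x _ => ?_
    refine (card_biUnion_le_card_mul univ _ 1 fun l _ => ?_).trans ?_
    · cases h : (adj (x, l)).map Prod.fst <;> simp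
    · simp
  nlinarith

theorem ball_zero (adj : Adj L) (S : Finset ℕ) : ball adj S 0 = S := rfl

theorem ball_succ (adj : Adj L) (S : Finset ℕ) (n : ℕ) :
    ball adj S (n + 1) = nb adj (ball adj S n) := by
  simp only [ball, Function.iterate_succ_apply']

theorem ball_add (adj : Adj L) (S : Finset ℕ) (m n : ℕ) :
    ball adj (ball adj S m) n = ball adj S (m + n) := by
  simp only [ball]
  rw [← Function.iterate_add_apply, add_comm]

theorem ball_mono {adj : Adj L} {S T : Finset ℕ} (h : S ⊆ T) (n : ℕ) :
    ball adj S n ⊆ ball adj T n := by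
  induction n with
  | zero => exact h
  | succ n ih =>
    rw [ball_succ, ball_succ]
    exact nb_mono ih

theorem ball_mono' {adj : Adj L} {S : Finset ℕ} {m n : ℕ} (h : m ≤ n) :
    ball adj S m ⊆ ball adj S n := by
  induction n, h using Nat.le_induction with
  | base => exact Subset.refl _
  | succ n _ ih =>
    rw [ball_succ]
    exact ih.trans (subset_nb _ _)

theorem subset_ball (adj : Adj L) (S : Finset ℕ) (n : ℕ) : S ⊆ ball adj S n :=
  ball_mono' (Nat.zero_le n)

theorem card_ball (adj : Adj L) (S : Finset ℕ) (n : ℕ) :
    (ball adj S n).card ≤ (1 + Fintype.card L) ^ n * S.card := by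
  induction n with
  | zero => simp [ball_zero]
  | succ n ih =>
    rw [ball_succ, pow_succ']
    refine (card_nb _ _).trans ?_
    rw [mul_assoc]
    exact Nat.mul_le_mul_left _ ih

theorem mem_ball_iff {adj : Adj L} {S : Finset ℕ} {n v : ℕ} :
    v ∈ ball adj S n ↔ ∃ u ∈ S, v ∈ ball adj {u} n := by
  constructor
  · intro h
    induction n generalizing v with
    | zero => exact ⟨v, h, by simp [ball_zero]⟩
    | succ n ih =>
      rw [ball_succ, mem_nb] at h
      rcases h with h | ⟨w, hw, l, l', e⟩
      · obtain ⟨u, hu, h1⟩ := ih h
        refine ⟨u, hu, ?_⟩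
        rw [ball_succ]
        exact subset_nb _ _ h1
      · obtain ⟨u, hu, h1⟩ := ih hw
        refine ⟨u, hu, ?_⟩
        rw [ball_succ, mem_nb]
        exact Or.inr ⟨w, h1, l, l', e⟩
  · rintro ⟨u, hu, h⟩
    exact ball_mono (by simpa using hu) n h

/-- The graph is undirected. -/
def Sym (adj : Adj L) : Prop := ∀ a b, adj a = some b → adj b = some a

theorem ball_one_symm {adj : Adj L} (h : Sym adj) {u v w : ℕ} {l l' : L} {n : ℕ}
    (e : adj (u, l) = some (v, l')) (hw : w ∈ ball adj {v} n) : w ∈ ball adj {u} (n + 1) := by
  rw [add_comm, ← ball_add]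
  refine ball_mono ?_ n hw
  rw [singleton_subset_iff, ball_succ, mem_nb]
  exact Or.inr ⟨u, by simp [ball_zero], l, l', e⟩

theorem ball_symm {adj : Adj L} (h : Sym adj) {u v n : ℕ} (huv : v ∈ ball adj {u} n) :
    u ∈ ball adj {v} n := by
  induction n generalizing v with
  | zero =>
    simp only [ball_zero, mem_singleton] at huv ⊢
    exact huv.symm
  | succ n ih =>
    rw [ball_succ, mem_nb] at huv
    rcases huv with h1 | ⟨w, hw, l, l', e⟩
    · exact ball_mono' (Nat.le_succ n) (ih h1)
    · exact ball_one_symm h (h _ _ e) (ih hw)

theorem walk_append (adj : Adj L) (x : ℕ) (u w : List L) :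
    walk adj x (u ++ w) = (walk adj x u).bind fun y => walk adj y w := by
  induction u generalizing x with
  | nil => simp [walk]
  | cons l u ih =>
    cases h : adj (x, l) with
    | none => simp [walk, h]
    | some y =>
      obtain ⟨y, l'⟩ := y
      simp [walk, h, ih]

theorem walk_mem {adj : Adj L} {x y : ℕ} {u : List L} {n : ℕ} (h : walk adj x u = some y)
    (hn : u.length ≤ n) : y ∈ ball adj {x} n := by
  refine ball_mono' hn ?_
  clear hn
  induction u using List.reverseRecOn generalizing y with
  | nil =>
    simp only [walk, Option.some.injEq] at h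
    simp [ball_zero, h]
  | append_singleton u l ih =>
    rw [walk_append] at h
    cases h1 : walk adj x u with
    | none => simp [h1] at h
    | some z =>
      rw [h1] at h
      simp only [Option.bind_some, walk] at h
      cases h2 : adj (z, l) with
      | none => simp [h2] at h
      | some w =>
        obtain ⟨w, l'⟩ := w
        simp only [h2, Option.some.injEq] at h
        subst h
        rw [List.length_append, List.length_singleton, ball_succ, mem_nb]
        exact Or.inr ⟨z, ih h1, l, l', h2⟩

/-- Two graphs which agree at all vertices that are reached in both have the same paths. -/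
theorem walk_congr {adj adj' : Adj L} {x n : ℕ}
    (h : ∀ v ∈ ball adj {x} n, v ∈ ball adj' {x} n → ∀ l, adj (v, l) = adj' (v, l))
    (u : List L) (hu : u.length ≤ n) : walk adj x u = walk adj' x u := by
  induction u using List.reverseRecOn with
  | nil => rfl
  | append_singleton u l ih =>
    rw [List.length_append, List.length_singleton] at hu
    have h1 := ih (by omega)
    rw [walk_append, walk_append, ← h1]
    cases h2 : walk adj x u with
    | none => rfl
    | some z =>
      have h3 := h z (walk_mem h2 (by omega)) (walk_mem (h1 ▸ h2) (by omega)) l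
      simp only [Option.bind_some, walk, h3]

theorem farLabel_append (adj : Adj L) (x : ℕ) (u : List L) (l : L) :
    farLabel adj x (u ++ [l]) = (walk adj x u).bind fun y => (adj (y, l)).map Prod.snd := by
  induction u generalizing x with
  | nil =>
    cases h : adj (x, l) with
    | none => simp [farLabel, walk, h]
    | some y => simp [farLabel, walk, h]
  | cons a u ih =>
    cases h : adj (x, a) with
    | none => simp [farLabel, walk, h]
    | some y =>
      obtain ⟨y, l'⟩ := y
      have : (u ++ [l]).isEmpty = false := by simp
      simp only [List.cons_append, farLabel, walk, h, this, Bool.false_eq_true, if_false]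
      exact ih y

theorem farLabel_congr {adj adj' : Adj L} {x n : ℕ}
    (h : ∀ v ∈ ball adj {x} n, v ∈ ball adj' {x} n → ∀ l, adj (v, l) = adj' (v, l))
    (u : List L) (hu : u.length ≤ n) : farLabel adj x u = farLabel adj' x u := by
  induction u using List.reverseRecOn with
  | nil => rfl
  | append_singleton u l ih =>
    rw [List.length_append, List.length_singleton] at hu
    have h1 := walk_congr h u (by omega)
    rw [farLabel_append, farLabel_append, ← h1]
    cases h2 : walk adj x u with
    | none => rfl
    | some z =>
      have h3 := h z (walk_mem h2 (by omega)) (walk_mem (h1 ▸ h2) (by omega)) l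
      simp only [Option.bind_some, h3]

theorem view_congr {adj adj' : Adj L} {x r : ℕ}
    (h : ∀ v ∈ ball adj {x} r, v ∈ ball adj' {x} r → ∀ l, adj (v, l) = adj' (v, l)) :
    view adj x r = view adj' x r := by
  unfold view
  congr 1
  · funext u v
    rw [walk_congr h u.1 u.2, walk_congr h v.1 v.2]
  · funext u
    exact farLabel_congr h u.1 u.2

variable [DecidableEq L]

theorem link_out {adj : Adj L} {P : Finset ℕ} {a b z : ℕ × L} (ha : a.1 ∈ P) (hb : b.1 ∈ P)
    (hz : z.1 ∉ P) : link adj a b z = adj z := by
  have h1 : z ≠ a := by
    rintro rfl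
    exact hz ha
  have h2 : z ≠ b := by
    rintro rfl
    exact hz hb
  unfold link
  split_ifs
  · rw [Function.update_of_ne h2, Function.update_of_ne h1]
  · rfl

theorem cut_out {adj : Adj L} {P : Finset ℕ} {a b z : ℕ × L} (ha : a.1 ∈ P) (hb : b.1 ∈ P)
    (hz : z.1 ∉ P) : cut adj a b z = adj z := by
  have h1 : z ≠ a := by
    rintro rfl
    exact hz ha
  have h2 : z ≠ b := by
    rintro rfl
    exact hz hb
  unfold cut
  split_ifs
  · rw [Function.update_of_ne h2, Function.update_of_ne h1]
  · rfl

theorem link_congr {adj adj' : Adj L} {P : Finset ℕ} {a b : ℕ × L} (ha : a.1 ∈ P) (hb : b.1 ∈ P)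
    (h : ∀ z : ℕ × L, z.1 ∈ P → adj z = adj' z) (z : ℕ × L) (hz : z.1 ∈ P) :
    link adj a b z = link adj' a b z := by
  unfold link
  rw [h a ha, h b hb]
  split_ifs
  · by_cases h2 : z = b
    · subst h2
      simp
    · rw [Function.update_of_ne h2, Function.update_of_ne h2]
      by_cases h1 : z = a
      · subst h1
        simp
      · rw [Function.update_of_ne h1, Function.update_of_ne h1, h z hz]
  · exact h z hz

theorem cut_congr {adj adj' : Adj L} {P : Finset ℕ} {a b : ℕ × L} (ha : a.1 ∈ P) (hb : b.1 ∈ P)
    (h : ∀ z : ℕ × L, z.1 ∈ P → adj z = adj' z) (z : ℕ × L) (hz : z.1 ∈ P) :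
    cut adj a b z = cut adj' a b z := by
  unfold cut
  rw [h a ha]
  split_ifs
  · by_cases h2 : z = b
    · subst h2
      simp
    · rw [Function.update_of_ne h2, Function.update_of_ne h2]
      by_cases h1 : z = a
      · subst h1
        simp
      · rw [Function.update_of_ne h1, Function.update_of_ne h1, h z hz]
  · exact h z hz

theorem link_sym {adj : Adj L} (h : Sym adj) (a b : ℕ × L) : Sym (link adj a b) := by
  unfold link
  split_ifs with h0
  · obtain ⟨ha, hb, hab⟩ := h0
    intro x y hxy
    by_cases h2 : x = b
    · subst h2
      rw [Function.update_self] at hxy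
      simp only [Option.some.injEq] at hxy
      subst hxy
      rw [Function.update_of_ne hab, Function.update_self]
    · rw [Function.update_of_ne h2] at hxy
      by_cases h1 : x = a
      · subst h1
        rw [Function.update_self] at hxy
        simp only [Option.some.injEq] at hxy
        subst hxy
        rw [Function.update_self]
      · rw [Function.update_of_ne h1] at hxy
        have h3 := h _ _ hxy
        have h4 : y ≠ a := by
          rintro rfl
          rw [ha] at h3
          exact absurd h3 (by simp)
        have h5 : y ≠ b := by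
          rintro rfl
          rw [hb] at h3
          exact absurd h3 (by simp)
        rw [Function.update_of_ne h5, Function.update_of_ne h4, h3]
  · exact h

theorem cut_sym {adj : Adj L} (h : Sym adj) (a b : ℕ × L) : Sym (cut adj a b) := by
  unfold cut
  split_ifs with h0
  · have h0' := h _ _ h0
    intro x y hxy
    by_cases h2 : x = b
    · subst h2
      rw [Function.update_self] at hxy
      exact absurd hxy (by simp)
    · rw [Function.update_of_ne h2] at hxy
      by_cases h1 : x = a
      · subst h1
        rw [Function.update_self] at hxy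
        exact absurd hxy (by simp)
      · rw [Function.update_of_ne h1] at hxy
        have h3 := h _ _ hxy
        have h4 : y ≠ a := by
          rintro rfl
          rw [h0] at h3
          simp only [Option.some.injEq] at h3
          exact h2 h3.symm
        have h5 : y ≠ b := by
          rintro rfl
          rw [h0'] at h3
          simp only [Option.some.injEq] at h3
          exact h1 h3.symm
        rw [Function.update_of_ne h5, Function.update_of_ne h4, h3]
  · exact h

/-- All edges end at vertices less than `N`. -/
def Below (N : ℕ) (adj : Adj L) : Prop := ∀ a b, adj a = some b → b.1 < N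

theorem link_below {adj : Adj L} {N : ℕ} (h : Below N adj) {a b : ℕ × L} (ha : a.1 < N)
    (hb : b.1 < N) : Below N (link adj a b) := by
  unfold link
  split_ifs with h0
  · intro x y hxy
    by_cases h2 : x = b
    · subst h2
      rw [Function.update_self] at hxy
      simp only [Option.some.injEq] at hxy
      subst hxy
      exact ha
    · rw [Function.update_of_ne h2] at hxy
      by_cases h1 : x = a
      · subst h1
        rw [Function.update_self] at hxy
        simp only [Option.some.injEq] at hxy
        subst hxy
        exact hb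
      · rw [Function.update_of_ne h1] at hxy
        exact h _ _ hxy
  · exact h

theorem cut_below {adj : Adj L} {N : ℕ} (h : Below N adj) (a b : ℕ × L) :
    Below N (cut adj a b) := by
  unfold cut
  split_ifs with h0
  · intro x y hxy
    by_cases h2 : x = b
    · subst h2
      rw [Function.update_self] at hxy
      exact absurd hxy (by simp)
    · rw [Function.update_of_ne h2] at hxy
      by_cases h1 : x = a
      · subst h1
        rw [Function.update_self] at hxy
        exact absurd hxy (by simp)
      · rw [Function.update_of_ne h1] at hxy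
        exact h _ _ hxy
  · exact h

variable {H : Type}

theorem edits_out {P : Finset ℕ} {loc : H → Option ℕ} (hP : ∀ x a, loc x = some a → a ∈ P)
    (es : List (Edit H L)) (adj : Adj L) (z : ℕ × L) (hz : z.1 ∉ P) :
    es.foldl (Edit.apply loc) adj z = adj z := by
  induction es generalizing adj with
  | nil => rfl
  | cons e es ih =>
    rw [List.foldl_cons, ih]
    cases e with
    | link x l y l' =>
      cases ha : loc x with
      | none => simp only [Edit.apply, ha]
      | some a =>
        cases hb : loc y with
        | none => simp only [Edit.apply, ha, hb]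
        | some b =>
          simp only [Edit.apply, ha, hb]
          exact link_out (hP _ _ ha) (hP _ _ hb) hz
    | cut x l y l' =>
      cases ha : loc x with
      | none => simp only [Edit.apply, ha]
      | some a =>
        cases hb : loc y with
        | none => simp only [Edit.apply, ha, hb]
        | some b =>
          simp only [Edit.apply, ha, hb]
          exact cut_out (hP _ _ ha) (hP _ _ hb) hz

theorem edits_congr {P : Finset ℕ} {loc : H → Option ℕ} (hP : ∀ x a, loc x = some a → a ∈ P)
    (es : List (Edit H L)) (adj adj' : Adj L) (h : ∀ z : ℕ × L, z.1 ∈ P → adj z = adj' z)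
    (z : ℕ × L) (hz : z.1 ∈ P) :
    es.foldl (Edit.apply loc) adj z = es.foldl (Edit.apply loc) adj' z := by
  induction es generalizing adj adj' with
  | nil => exact h z hz
  | cons e es ih =>
    rw [List.foldl_cons, List.foldl_cons]
    apply ih
    intro z hz
    cases e with
    | link x l y l' =>
      cases ha : loc x with
      | none => simpa only [Edit.apply, ha] using h z hz
      | some a =>
        cases hb : loc y with
        | none => simpa only [Edit.apply, ha, hb] using h z hz
        | some b =>
          simp only [Edit.apply, ha, hb]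
          exact link_congr (hP _ _ ha) (hP _ _ hb) h z hz
    | cut x l y l' =>
      cases ha : loc x with
      | none => simpa only [Edit.apply, ha] using h z hz
      | some a =>
        cases hb : loc y with
        | none => simpa only [Edit.apply, ha, hb] using h z hz
        | some b =>
          simp only [Edit.apply, ha, hb]
          exact cut_congr (hP _ _ ha) (hP _ _ hb) h z hz

theorem edits_sym {loc : H → Option ℕ} (es : List (Edit H L)) (adj : Adj L) (h : Sym adj) :
    Sym (es.foldl (Edit.apply loc) adj) := by
  induction es generalizing adj with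
  | nil => exact h
  | cons e es ih =>
    rw [List.foldl_cons]
    apply ih
    cases e with
    | link x l y l' =>
      cases ha : loc x with
      | none => simpa only [Edit.apply, ha] using h
      | some a =>
        cases hb : loc y with
        | none => simpa only [Edit.apply, ha, hb] using h
        | some b => simpa only [Edit.apply, ha, hb] using link_sym h _ _
    | cut x l y l' =>
      cases ha : loc x with
      | none => simpa only [Edit.apply, ha] using h
      | some a =>
        cases hb : loc y with
        | none => simpa only [Edit.apply, ha, hb] using h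
        | some b => simpa only [Edit.apply, ha, hb] using cut_sym h _ _

theorem edits_below {N : ℕ} {loc : H → Option ℕ} (hN : ∀ x a, loc x = some a → a < N)
    (es : List (Edit H L)) (adj : Adj L) (h : Below N adj) :
    Below N (es.foldl (Edit.apply loc) adj) := by
  induction es generalizing adj with
  | nil => exact h
  | cons e es ih =>
    rw [List.foldl_cons]
    apply ih
    cases e with
    | link x l y l' =>
      cases ha : loc x with
      | none => simpa only [Edit.apply, ha] using h
      | some a =>
        cases hb : loc y with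
        | none => simpa only [Edit.apply, ha, hb] using h
        | some b =>
          simpa only [Edit.apply, ha, hb] using link_below h (a := (a, l)) (b := (b, l'))
            (hN _ _ ha) (hN _ _ hb)
    | cut x l y l' =>
      cases ha : loc x with
      | none => simpa only [Edit.apply, ha] using h
      | some a =>
        cases hb : loc y with
        | none => simpa only [Edit.apply, ha, hb] using h
        | some b => simpa only [Edit.apply, ha, hb] using cut_below h (a, l) (b, l')

end Graph

/-! ### Touched vertices -/

namespace Dev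

variable (M : Dev) (t : M.C → Finset ℕ)

/-- One step leads from `c` to `c'`. -/
inductive Succ (c c' : M.C) : Prop
  | tau : M.step c = .tau c' → Succ c c'
  | out (b : Bool) : M.step c = .out b c' → Succ c c'
  | inp (f : Bool → M.C) (b : Bool) : M.step c = .inp f → c' = f b → Succ c c'

/-- The vertices touched while settling. -/
def tsettle : ℕ → M.C → Finset ℕ
  | 0, _ => ∅
  | n + 1, c =>
    match M.step c with
    | .tau c' => t c ∪ tsettle n c'
    | .out _ c' => t c ∪ tsettle n c'
    | .inp _ => t c

/-- The vertices touched while reading a bit and settling. -/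
def tfeed (n : ℕ) (c : M.C) (b : Bool) : Finset ℕ :=
  match M.step c with
  | .inp f => t c ∪ M.tsettle t n (f b)
  | _ => t c

/-- The vertices touched while reading a word. -/
def tfeeds (n : ℕ) : M.C → List Bool → Finset ℕ
  | _, [] => ∅
  | c, b :: w => M.tfeed t n c b ∪ tfeeds n (M.feed n c b).1 w

theorem tfeeds_append (n : ℕ) (c : M.C) (u w : List Bool) :
    M.tfeeds t n c (u ++ w) = M.tfeeds t n c u ∪ M.tfeeds t n (M.feeds n c u).1 w := by
  induction u generalizing c with
  | nil => simp [tfeeds, feeds]
  | cons b u ih => simp [tfeeds, feeds, ih, union_assoc]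

variable {M t}

/-- The conditions of the induction principle. -/
structure Inductive (P : M.C → Finset ℕ → ℕ → Prop) : Prop where
  succ : ∀ c c' T m, P c T m → M.Succ c c' → P c' (T ∪ t c) (m + 1)
  mono : ∀ c T m, P c T m → P c T (m + 1)
  look : ∀ c T m, P c T m → P c (T ∪ t c) (m + 1)

theorem Inductive.add {P : M.C → Finset ℕ → ℕ → Prop} (h : Inductive (t := t) P) {c : M.C}
    {T : Finset ℕ} {m : ℕ} (hP : P c T m) (k : ℕ) : P c T (m + k) := by
  induction k with
  | zero => exact hP
  | succ k ih => exact h.mono _ _ _ ih

theorem Inductive.settle {P : M.C → Finset ℕ → ℕ → Prop} (h : Inductive (t := t) P) (n : ℕ) :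
    ∀ c T m, P c T m → P (M.settle n c).1 (T ∪ M.tsettle t n c) (m + n) := by
  induction n with
  | zero =>
    intro c T m hP
    simpa [Dev.settle, tsettle] using hP
  | succ n ih =>
    intro c T m hP
    cases hc : M.step c with
    | tau c' =>
      have := ih c' _ _ (h.succ c c' T m hP (.tau hc))
      simp only [Dev.settle, tsettle, hc]
      rw [← union_assoc, show m + (n + 1) = m + 1 + n by ring]
      exact this
    | out b c' =>
      have := ih c' _ _ (h.succ c c' T m hP (.out b hc))
      simp only [Dev.settle, tsettle, hc]
      rw [← union_assoc, show m + (n + 1) = m + 1 + n by ring]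
      exact this
    | inp f =>
      simp only [Dev.settle, tsettle, hc]
      rw [show m + (n + 1) = m + 1 + n by ring]
      exact h.add (h.look _ _ _ hP) n

theorem Inductive.feed {P : M.C → Finset ℕ → ℕ → Prop} (h : Inductive (t := t) P) (n : ℕ)
    (c : M.C) (T : Finset ℕ) (m : ℕ) (b : Bool) (hP : P c T m) :
    P (M.feed n c b).1 (T ∪ M.tfeed t n c b) (m + (n + 1)) := by
  cases hc : M.step c with
  | tau c' =>
    simp only [Dev.feed, tfeed, hc]
    rw [show m + (n + 1) = m + 1 + n by ring]
    exact h.add (h.look _ _ _ hP) n
  | out b c' =>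
    simp only [Dev.feed, tfeed, hc]
    rw [show m + (n + 1) = m + 1 + n by ring]
    exact h.add (h.look _ _ _ hP) n
  | inp f =>
    simp only [Dev.feed, tfeed, hc]
    rw [← union_assoc, show m + (n + 1) = m + 1 + n by ring]
    exact h.settle n _ _ _ (h.succ c (f b) T m hP (.inp f b hc rfl))

/-- Induction principle. -/
theorem Inductive.feeds {P : M.C → Finset ℕ → ℕ → Prop} (h : Inductive (t := t) P) (n : ℕ)
    (w : List Bool) (c : M.C) (T : Finset ℕ) (m : ℕ) (hP : P c T m) :
    P (M.feeds n c w).1 (T ∪ M.tfeeds t n c w) (m + (n + 1) * w.length) := by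
  induction w generalizing c T m with
  | nil => simpa [Dev.feeds, tfeeds] using hP
  | cons b w ih =>
    simp only [Dev.feeds, tfeeds]
    rw [← union_assoc, List.length_cons,
      show m + (n + 1) * (w.length + 1) = m + (n + 1) + (n + 1) * w.length by ring]
    exact ih _ _ _ (h.feed n c T m b hP)

end Dev

section Kum

variable (K : KUM)

instance : Fintype K.L := K.fL
instance : DecidableEq K.L := K.dL
instance : Fintype K.Q := K.fQ

/-- The machine as a device. -/
abbrev kdev : Dev where
  C := KConf K.L K.Q
  init := { q := K.start, head := 0, fresh := 1, adj := fun _ => none }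
  step := K.step

theorem kdev_eq : K.toDev = kdev K := rfl

/-- The vertices touched in one step. -/
def tset (c : KConf K.L K.Q) : Finset ℕ :=
  ball c.adj {c.head} K.r ∪ Ico c.fresh (c.fresh + K.k)

/-- A bound for the number of vertices touched in a step. -/
def beta : ℕ := (1 + Fintype.card K.L) ^ K.r + K.k

theorem card_tset (c : KConf K.L K.Q) : (tset K c).card ≤ beta K := by
  refine (card_union_le _ _).trans ?_
  have := card_ball c.adj {c.head} K.r
  simp only [card_singleton, mul_one] at this
  simp only [Nat.card_Ico, beta]
  omega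

theorem loc_mem (c : KConf K.L K.Q) (x : Wd K.L K.r ⊕ Fin K.k) (a : ℕ)
    (h : c.loc x = some a) : a ∈ tset K c := by
  unfold tset
  rw [mem_union]
  cases x with
  | inl u =>
    left
    exact walk_mem h u.2
  | inr i =>
    right
    simp only [KConf.loc, Option.some.injEq] at h
    have := i.2
    rw [mem_Ico]
    omega

/-- The action in a configuration. -/
def kact (c : KConf K.L K.Q) : KAct K.L K.Q K.r K.k :=
  K.act c.q (view c.adj c.head K.r)

/-- The step which belongs to an action. -/
def kstep (c : KConf K.L K.Q) (a : KAct K.L K.Q K.r K.k) : Act (KConf K.L K.Q) :=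
  match a.next with
  | .tau q => .tau (c.post a q)
  | .out b q => .out b (c.post a q)
  | .inp f => .inp fun b => c.post a (f b)

theorem step_eq (c : KConf K.L K.Q) : K.step c = kstep K c (kact K c) := rfl

theorem succ_post {c c' : KConf K.L K.Q} (h : (kdev K).Succ c c') :
    ∃ q, c' = c.post (kact K c) q := by
  cases h with
  | tau h =>
    have h : kstep K c (kact K c) = _ := h
    unfold kstep at h
    cases hn : (kact K c).next with
    | tau q =>
      rw [hn] at h
      injection h with h
      exact ⟨q, h.symm⟩
    | out b q => rw [hn] at h; simp at h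
    | inp f => rw [hn] at h; simp at h
  | out b h =>
    have h : kstep K c (kact K c) = _ := h
    unfold kstep at h
    cases hn : (kact K c).next with
    | tau q => rw [hn] at h; simp at h
    | out b q =>
      rw [hn] at h
      injection h with h1 h
      exact ⟨q, h.symm⟩
    | inp f => rw [hn] at h; simp at h
  | inp g b h hb =>
    have h : kstep K c (kact K c) = _ := h
    unfold kstep at h
    cases hn : (kact K c).next with
    | tau q => rw [hn] at h; simp at h
    | out b q => rw [hn] at h; simp at h
    | inp f =>
      rw [hn] at h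
      injection h with h
      exact ⟨f b, by rw [hb, ← h]⟩

/-! ### The invariant of one run -/

/-- General facts about the configurations which occur. -/
structure Good (c : KConf K.L K.Q) : Prop where
  sym : Sym c.adj
  below : Below c.fresh c.adj
  head_lt : c.head < c.fresh

theorem ball_lt {c : KConf K.L K.Q} (h : Good K c) {S : Finset ℕ} (hS : ∀ v ∈ S, v < c.fresh)
    (n : ℕ) : ∀ v ∈ ball c.adj S n, v < c.fresh := by
  induction n with
  | zero => exact hS
  | succ n ih =>
    intro v hv
    rw [ball_succ, mem_nb] at hv
    rcases hv with hv | ⟨u, hu, l, l', e⟩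
    · exact ih v hv
    · exact h.below _ _ e

theorem tset_lt {c : KConf K.L K.Q} (h : Good K c) : ∀ v ∈ tset K c, v < c.fresh + K.k := by
  intro v hv
  unfold tset at hv
  rw [mem_union, mem_Ico] at hv
  rcases hv with hv | hv
  · have := ball_lt K h (S := {c.head}) (by simpa using h.head_lt) _ v hv
    omega
  · exact hv.2

theorem post_head_mem (c : KConf K.L K.Q) (a : KAct K.L K.Q K.r K.k) (q : K.Q) :
    (c.post a q).head ∈ tset K c := by
  simp only [KConf.post]
  cases h : c.loc a.move with
  | none =>
    simp only [Option.getD_none]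
    unfold tset
    exact mem_union_left _ (subset_ball _ _ _ (mem_singleton_self _))
  | some x =>
    simp only [Option.getD_some]
    exact loc_mem K c _ _ h

theorem good_init : Good K (kdev K).init where
  sym a b h := by simp at h
  below a b h := by simp at h
  head_lt := by simp

theorem good_post {c : KConf K.L K.Q} (h : Good K c) (a : KAct K.L K.Q K.r K.k) (q : K.Q) :
    Good K (c.post a q) where
  sym := edits_sym _ _ h.sym
  below := by
    simp only [KConf.post]
    apply edits_below
    · intro x y hxy
      exact tset_lt K h y (loc_mem K c x y hxy)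
    · intro x y hxy
      exact (h.below x y hxy).trans_le (Nat.le_add_right _ _)
  head_lt := tset_lt K h _ (post_head_mem K c a q)

/-- The invariant: `c0` is the configuration at the start, `c` is the present configuration, `T` is
the set of the vertices which have been touched, `m` bounds the number of the steps, and the old
vertices in `T` are near `V`. -/
structure Inv (c0 : KConf K.L K.Q) (V : Finset ℕ) (c : KConf K.L K.Q) (T : Finset ℕ) (m : ℕ) :
    Prop where
  good0 : Good K c0
  good : Good K c
  head_mem : c.head ∈ T
  fresh_le : c0.fresh ≤ c.fresh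
  lt : ∀ v ∈ T, v < c.fresh + K.k
  same : ∀ v ∉ T, ∀ l, c.adj (v, l) = c0.adj (v, l)
  near : ∀ v ∈ T, v < c0.fresh → v ∈ ball c0.adj V (K.r * m)

theorem Inv.near_ball {K : KUM} {c0 : KConf K.L K.Q} {V : Finset ℕ} {c : KConf K.L K.Q}
    {T : Finset ℕ} {m : ℕ} (h : Inv K c0 V c T m) (j : ℕ) :
    ∀ v ∈ ball c.adj {c.head} j, v ∈ T ∨ v ∈ ball c0.adj (T.filter (· < c0.fresh)) j := by
  induction j with
  | zero =>
    intro v hv
    rw [ball_zero, mem_singleton] at hv
    left
    rw [hv]
    exact h.head_mem
  | succ j ih =>
    intro v hv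
    by_cases hT : v ∈ T
    · exact Or.inl hT
    right
    rw [ball_succ, mem_nb] at hv
    rcases hv with hv | ⟨u, hu, l, l', e⟩
    · rcases ih v hv with h1 | h1
      · exact absurd h1 hT
      · rw [ball_succ]
        exact subset_nb _ _ h1
    · have e1 := h.good.sym _ _ e
      rw [h.same v hT] at e1
      have hu0 : u < c0.fresh := h.good0.below _ _ e1
      have e2 := h.good0.sym _ _ e1
      rw [ball_succ, mem_nb]
      right
      refine ⟨u, ?_, l, l', e2⟩
      rcases ih u hu with h1 | h1
      · exact subset_ball _ _ _ (mem_filter.2 ⟨h1, hu0⟩)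
      · exact h1

theorem Inv.near' {K : KUM} {c0 : KConf K.L K.Q} {V : Finset ℕ} {c : KConf K.L K.Q}
    {T : Finset ℕ} {m : ℕ} (h : Inv K c0 V c T m) :
    ∀ v ∈ T ∪ tset K c, v < c0.fresh → v ∈ ball c0.adj V (K.r * (m + 1)) := by
  have hsub : T.filter (· < c0.fresh) ⊆ ball c0.adj V (K.r * m) := by
    intro v hv
    rw [mem_filter] at hv
    exact h.near v hv.1 hv.2
  have hmul : K.r * (m + 1) = K.r * m + K.r := by ring
  intro v hv hv0
  rcases mem_union.1 hv with hv | hv
  · rw [hmul]
    exact ball_mono' (Nat.le_add_right _ _) (h.near v hv hv0)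
  · unfold tset at hv
    rcases mem_union.1 hv with hv | hv
    · rcases h.near_ball _ v hv with h1 | h1
      · rw [hmul]
        exact ball_mono' (Nat.le_add_right _ _) (h.near v h1 hv0)
      · rw [hmul, ← ball_add]
        exact ball_mono hsub _ h1
    · rw [mem_Ico] at hv
      have := h.fresh_le
      omega

theorem inv_inductive (c0 : KConf K.L K.Q) (V : Finset ℕ) :
    Dev.Inductive (M := kdev K) (t := tset K) (Inv K c0 V) where
  succ c c' T m h hs := by
    obtain ⟨q, rfl⟩ := succ_post K hs
    refine ⟨h.good0, good_post K h.good _ _, ?_, ?_, ?_, ?_, h.near'⟩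
    · exact mem_union_right _ (post_head_mem K c _ _)
    · exact h.fresh_le.trans (Nat.le_add_right _ _)
    · intro v hv
      simp only [KConf.post]
      rcases mem_union.1 hv with hv | hv
      · exact (h.lt v hv).trans_le (Nat.le_add_right _ _)
      · exact (tset_lt K h.good v hv).trans_le (Nat.le_add_right _ _)
    · intro v hv l
      rw [mem_union, not_or] at hv
      simp only [KConf.post]
      rw [edits_out (P := tset K c) (fun x a hx => loc_mem K c x a hx) _ _ (v, l) hv.2]
      exact h.same v hv.1 l
  mono c T m h := by
    refine ⟨h.good0, h.good, h.head_mem, h.fresh_le, h.lt, h.same, fun v hv hv0 => ?_⟩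
    exact ball_mono' (Nat.mul_le_mul_left _ (Nat.le_succ m)) (h.near v hv hv0)
  look c T m h := by
    refine ⟨h.good0, h.good, mem_union_left _ h.head_mem, h.fresh_le, ?_, ?_, h.near'⟩
    · intro v hv
      rcases mem_union.1 hv with hv | hv
      · exact h.lt v hv
      · exact tset_lt K h.good v hv
    · intro v hv l
      rw [mem_union, not_or] at hv
      exact h.same v hv.1 l

theorem Inv.feeds {K : KUM} {c0 : KConf K.L K.Q} {V : Finset ℕ} {c : KConf K.L K.Q}
    {T : Finset ℕ} {m : ℕ} (h : Inv K c0 V c T m) (g : ℕ) (w : List Bool) :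
    Inv K c0 V ((kdev K).feeds g c w).1 (T ∪ (kdev K).tfeeds (tset K) g c w)
      (m + (g + 1) * w.length) :=
  (inv_inductive K c0 V).feeds g w c T m h

/-- The number of touched vertices. -/
theorem card_feeds (g : ℕ) (c : KConf K.L K.Q) (w : List Bool) :
    ((kdev K).tfeeds (tset K) g c w).card ≤ beta K * ((g + 1) * w.length) := by
  have hi : Dev.Inductive (M := kdev K) (t := tset K) (fun _ T m => T.card ≤ beta K * m) := by
    have hl : ∀ (c : KConf K.L K.Q) (T : Finset ℕ) (m : ℕ), T.card ≤ beta K * m →
        (T ∪ tset K c).card ≤ beta K * (m + 1) := by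
      intro c T m h
      refine (card_union_le _ _).trans ?_
      have := card_tset K c
      rw [mul_add, mul_one]
      omega
    exact ⟨fun c c' T m h _ => hl c T m h,
      fun c T m h => h.trans (Nat.mul_le_mul_left _ (Nat.le_succ m)), fun c T m h => hl c T m h⟩
  have := hi.feeds g w c ∅ 0 (by simp)
  simpa using this

theorem good_inductive (f : ℕ) :
    Dev.Inductive (M := kdev K) (t := tset K) (fun c _ m => Good K c ∧ c.fresh ≤ f + K.k * m) where
  succ c c' T m h hs := by
    obtain ⟨q, rfl⟩ := succ_post K hs
    refine ⟨good_post K h.1 _ _, ?_⟩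
    simp only [KConf.post]
    have := h.2
    rw [mul_add, mul_one]
    omega
  mono c T m h := ⟨h.1, h.2.trans (Nat.add_le_add_left (Nat.mul_le_mul_left _ (Nat.le_succ m)) _)⟩
  look c T m h := ⟨h.1, h.2.trans (Nat.add_le_add_left (Nat.mul_le_mul_left _ (Nat.le_succ m)) _)⟩

theorem settle_good (n : ℕ) (c : KConf K.L K.Q) (h : Good K c) :
    Good K ((kdev K).settle n c).1 ∧ ((kdev K).settle n c).1.fresh ≤ c.fresh + K.k * n := by
  have := (good_inductive K c.fresh).settle n c ∅ 0 ⟨h, by simp⟩
  simpa using this

theorem feeds_good (g : ℕ) (c : KConf K.L K.Q) (w : List Bool) (h : Good K c) :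
    Good K ((kdev K).feeds g c w).1 ∧
      ((kdev K).feeds g c w).1.fresh ≤ c.fresh + K.k * ((g + 1) * w.length) := by
  have := (good_inductive K c.fresh).feeds g w c ∅ 0 ⟨h, by simp⟩
  simpa using this

/-! ### Two runs -/

/-- Two configurations agree, except possibly for the graph outside of `T ∩ T'`. -/
structure Agree (T T' : Finset ℕ) (c c' : KConf K.L K.Q) : Prop where
  q : c.q = c'.q
  head : c.head = c'.head
  fresh : c.fresh = c'.fresh
  adj : ∀ v ∈ T, v ∈ T' → ∀ l, c.adj (v, l) = c'.adj (v, l)

theorem Agree.view {K : KUM} {T T' : Finset ℕ} {c c' : KConf K.L K.Q}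
    (h : Agree K (tset K c ∪ T) (tset K c' ∪ T') c c') (n : ℕ) (hn : n ≤ K.r) :
    ∀ v ∈ ball c.adj {c.head} n, v ∈ ball c'.adj {c.head} n → ∀ l, c.adj (v, l) = c'.adj (v, l) := by
  intro v hv hv' l
  refine h.adj v (mem_union_left _ (mem_union_left _ (ball_mono' hn hv)))
    (mem_union_left _ (mem_union_left _ ?_)) l
  rw [← h.head]
  exact ball_mono' hn hv'

theorem Agree.loc {K : KUM} {T T' : Finset ℕ} {c c' : KConf K.L K.Q}
    (h : Agree K (tset K c ∪ T) (tset K c' ∪ T') c c') (x : Wd K.L K.r ⊕ Fin K.k) :
    c.loc x = c'.loc x := by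
  cases x with
  | inl u =>
    simp only [KConf.loc]
    rw [← h.head]
    exact walk_congr (h.view K.r le_rfl) u.1 u.2
  | inr i => simp only [KConf.loc, h.fresh]

theorem Agree.kact {K : KUM} {T T' : Finset ℕ} {c c' : KConf K.L K.Q}
    (h : Agree K (tset K c ∪ T) (tset K c' ∪ T') c c') : kact K c = kact K c' := by
  unfold KS.kact
  rw [← h.head, h.q, view_congr (h.view K.r le_rfl)]

theorem Agree.post {K : KUM} {T T' : Finset ℕ} {c c' : KConf K.L K.Q}
    (h : Agree K (tset K c ∪ T) (tset K c' ∪ T') c c') (a : KAct K.L K.Q K.r K.k) (q : K.Q) :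
    Agree K T T' (c.post a q) (c'.post a q) := by
  have hloc : (c.loc : Wd K.L K.r ⊕ Fin K.k → Option ℕ) = c'.loc := funext h.loc
  refine ⟨rfl, ?_, ?_, ?_⟩
  · simp only [KConf.post]
    rw [hloc, h.head]
  · simp only [KConf.post]
    rw [h.fresh]
  · intro v hv hv' l
    simp only [KConf.post]
    have hP : ∀ (x : Wd K.L K.r ⊕ Fin K.k) (y : ℕ), c.loc x = some y →
        y ∈ tset K c ∩ tset K c' := by
      intro x y hxy
      rw [mem_inter]
      exact ⟨loc_mem K c x y hxy, loc_mem K c' x y (by rw [← hloc]; exact hxy)⟩
    rw [← hloc]
    by_cases hvP : v ∈ tset K c ∩ tset K c'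
    · refine edits_congr hP _ _ _ ?_ (v, l) hvP
      rintro ⟨z, l'⟩ hz
      rw [mem_inter] at hz
      exact h.adj z (mem_union_left _ hz.1) (mem_union_left _ hz.2) l'
    · rw [edits_out hP _ _ (v, l) hvP, edits_out hP _ _ (v, l) hvP]
      exact h.adj v (mem_union_right _ hv) (mem_union_right _ hv') l

theorem Agree.settle {K : KUM} (n : ℕ) : ∀ {T T' : Finset ℕ} {c c' : KConf K.L K.Q},
    Agree K ((kdev K).tsettle (tset K) n c ∪ T) ((kdev K).tsettle (tset K) n c' ∪ T') c c' →
    ((kdev K).settle n c).2 = ((kdev K).settle n c').2 ∧
      Agree K T T' ((kdev K).settle n c).1 ((kdev K).settle n c').1 := by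
  induction n with
  | zero =>
    intro T T' c c' h
    simpa [Dev.settle, Dev.tsettle] using h
  | succ n ih =>
    intro T T' c c' h
    have sub : ∀ c : KConf K.L K.Q, tset K c ⊆ (kdev K).tsettle (tset K) (n + 1) c := by
      intro c
      simp only [Dev.tsettle]
      split
      · exact subset_union_left
      · exact subset_union_left
      · exact Subset.refl _
    have h0 : Agree K (tset K c ∪ ((kdev K).tsettle (tset K) (n + 1) c ∪ T))
        (tset K c' ∪ ((kdev K).tsettle (tset K) (n + 1) c' ∪ T')) c c' := by
      rw [← union_assoc, ← union_assoc, union_eq_right.2 (sub c), union_eq_right.2 (sub c')]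
      exact h
    have ha := h0.kact
    have hc : K.step c = kstep K c (KS.kact K c) := rfl
    have hc' : K.step c' = kstep K c' (KS.kact K c) := by rw [ha]; rfl
    unfold kstep at hc hc'
    cases hn : (KS.kact K c).next with
    | tau q =>
      rw [hn] at hc hc'
      simp only [Dev.settle, Dev.tsettle, hc, hc', union_assoc] at h ⊢
      exact ih (h.post _ q)
    | out b q =>
      rw [hn] at hc hc'
      simp only [Dev.settle, Dev.tsettle, hc, hc', union_assoc] at h ⊢
      have := ih (h.post (KS.kact K c) q)
      exact ⟨by rw [this.1], this.2⟩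
    | inp f =>
      rw [hn] at hc hc'
      simp only [Dev.settle, Dev.tsettle, hc, hc'] at h ⊢
      exact ⟨trivial, h.q, h.head, h.fresh, fun v hv hv' l =>
        h.adj v (mem_union_right _ hv) (mem_union_right _ hv') l⟩

theorem Agree.feed {K : KUM} (n : ℕ) (b : Bool) {T T' : Finset ℕ} {c c' : KConf K.L K.Q}
    (h : Agree K ((kdev K).tfeed (tset K) n c b ∪ T) ((kdev K).tfeed (tset K) n c' b ∪ T') c c') :
    ((kdev K).feed n c b).2 = ((kdev K).feed n c' b).2 ∧
      Agree K T T' ((kdev K).feed n c b).1 ((kdev K).feed n c' b).1 := by
  have sub : ∀ c : KConf K.L K.Q, tset K c ⊆ (kdev K).tfeed (tset K) n c b := by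
    intro c
    simp only [Dev.tfeed]
    split
    · exact subset_union_left
    · exact Subset.refl _
  have h0 : Agree K (tset K c ∪ ((kdev K).tfeed (tset K) n c b ∪ T))
      (tset K c' ∪ ((kdev K).tfeed (tset K) n c' b ∪ T')) c c' := by
    rw [← union_assoc, ← union_assoc, union_eq_right.2 (sub c), union_eq_right.2 (sub c')]
    exact h
  have ha := h0.kact
  have hc : K.step c = kstep K c (KS.kact K c) := rfl
  have hc' : K.step c' = kstep K c' (KS.kact K c) := by rw [ha]; rfl
  unfold kstep at hc hc'
  cases hn : (KS.kact K c).next with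
  | tau q =>
    rw [hn] at hc hc'
    simp only [Dev.feed, Dev.tfeed, hc, hc'] at h ⊢
    exact ⟨trivial, h.q, h.head, h.fresh, fun v hv hv' l =>
        h.adj v (mem_union_right _ hv) (mem_union_right _ hv') l⟩
  | out b q =>
    rw [hn] at hc hc'
    simp only [Dev.feed, Dev.tfeed, hc, hc'] at h ⊢
    exact ⟨trivial, h.q, h.head, h.fresh, fun v hv hv' l =>
        h.adj v (mem_union_right _ hv) (mem_union_right _ hv') l⟩
  | inp f =>
    rw [hn] at hc hc'
    simp only [Dev.feed, Dev.tfeed, hc, hc', union_assoc] at h ⊢
    exact (h.post _ (f b)).settle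

theorem Agree.feeds {K : KUM} (n : ℕ) (w : List Bool) : ∀ {T T' : Finset ℕ}
    {c c' : KConf K.L K.Q},
    Agree K ((kdev K).tfeeds (tset K) n c w ∪ T) ((kdev K).tfeeds (tset K) n c' w ∪ T') c c' →
    ((kdev K).feeds n c w).2 = ((kdev K).feeds n c' w).2 ∧
      Agree K T T' ((kdev K).feeds n c w).1 ((kdev K).feeds n c' w).1 := by
  induction w with
  | nil =>
    intro T T' c c' h
    simpa [Dev.feeds, Dev.tfeeds] using h
  | cons b w ih =>
    intro T T' c c' h
    simp only [Dev.feeds, Dev.tfeeds, union_assoc] at h ⊢
    obtain ⟨h1, h2⟩ := Agree.feed n b h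
    obtain ⟨h3, h4⟩ := ih h2
    exact ⟨by rw [h1, h3], h4⟩

/-- Two runs which agree on the vertices touched in both have the same output. -/
theorem feeds_congr {K : KUM} (n : ℕ) (w : List Bool) {c c' : KConf K.L K.Q} (hq : c.q = c'.q)
    (hh : c.head = c'.head) (hf : c.fresh = c'.fresh)
    (h : ∀ v ∈ (kdev K).tfeeds (tset K) n c w, v ∈ (kdev K).tfeeds (tset K) n c' w →
      ∀ l, c.adj (v, l) = c'.adj (v, l)) :
    ((kdev K).feeds n c w).2 = ((kdev K).feeds n c' w).2 :=
  (Agree.feeds (T := ∅) (T' := ∅) n w ⟨hq, hh, hf, by simpa using h⟩).1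

end Kum

end Pool.Agent.V7H69.KS
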