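import Pool.Agent.V7H69.KS.Iface
import Pool.Agent.V7H69.KS.Inst

/-!
# Locality of the queries
-/

set_option autoImplicit false
set_option linter.unusedSimpArgs false
set_option linter.unusedVariables false
set_option linter.unusedSectionVars false

namespace Pool.Agent.V7H69.KS

open Finset

section

variable (K : KUM) (g : ℕ)

/-- The configuration after some commands. -/
def crun (c : KConf K.L K.Q) (l : List Cmd) : KConf K.L K.Q := ((kdev K).feeds g c (codes l)).1

/-- The vertices touched during some commands, and the head at the start. -/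
def ctch (c : KConf K.L K.Q) (l : List Cmd) : Finset ℕ :=
  {c.head} ∪ (kdev K).tfeeds (tset K) g c (codes l)

/-- The constant which bounds the number of vertices touched in a command. -/
def gam : ℕ := 3 * (beta K * (g + 1))

/-- The constant which bounds the movement in a command. -/
def rho : ℕ := 3 * (K.r * (g + 1))

variable {K g}

theorem crun_append (c : KConf K.L K.Q) (l l' : List Cmd) :
    crun K g c (l ++ l') = crun K g (crun K g c l) l' := by
  simp only [crun, codes_append, Dev.feeds_append]

theorem card_ctch (c : KConf K.L K.Q) (l : List Cmd) :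
    (ctch K g c l).card ≤ gam K g * l.length + 1 := by
  unfold ctch
  refine (card_union_le _ _).trans ?_
  have := card_feeds K g c (codes l)
  rw [codes_length] at this
  have e : beta K * ((g + 1) * (3 * l.length)) = gam K g * l.length := by
    unfold gam
    ring
  rw [card_singleton]
  omega

theorem inv_start {c : KConf K.L K.Q} (h : Good K c) : Inv K c {c.head} c {c.head} 0 where
  good0 := h
  good := h
  head_mem := mem_singleton_self _
  fresh_le := le_rfl
  lt v hv := by
    rw [mem_singleton] at hv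
    subst hv
    have := h.head_lt
    omega
  same v hv l := rfl
  near v hv hv0 := by simpa [ball_zero] using hv

theorem inv_run {c : KConf K.L K.Q} (h : Good K c) (l : List Cmd) :
    Inv K c {c.head} (crun K g c l) (ctch K g c l) ((g + 1) * (3 * l.length)) := by
  have := (inv_start h).feeds g (codes l)
  rw [zero_add, codes_length] at this
  exact this

theorem good_run {c : KConf K.L K.Q} (h : Good K c) (l : List Cmd) : Good K (crun K g c l) :=
  (inv_run h l).good

theorem same_run {c : KConf K.L K.Q} (h : Good K c) (l : List Cmd) {v : ℕ}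
    (hv : v ∉ ctch K g c l) (x : K.L) : (crun K g c l).adj (v, x) = c.adj (v, x) :=
  (inv_run h l).same v hv x

theorem ctch_append {c : KConf K.L K.Q} (h : Good K c) (l l' : List Cmd) :
    ctch K g c (l ++ l') = ctch K g c l ∪ ctch K g (crun K g c l) l' := by
  have h1 := (inv_run h (g := g) l).head_mem
  have e1 : ctch K g c (l ++ l') = ctch K g c l ∪
      (kdev K).tfeeds (tset K) g (crun K g c l) (codes l') := by
    simp only [ctch, codes_append, Dev.tfeeds_append, crun, union_assoc]
  rw [e1]
  ext v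
  simp only [ctch, mem_union, mem_singleton] at h1 ⊢
  constructor
  · rintro ((h2 | h2) | h2)
    · exact Or.inl (Or.inl h2)
    · exact Or.inl (Or.inr h2)
    · exact Or.inr (Or.inr h2)
  · rintro ((h2 | h2) | (rfl | h2))
    · exact Or.inl (Or.inl h2)
    · exact Or.inl (Or.inr h2)
    · exact Or.inl h1
    · exact Or.inr h2

/-- The second part of a run stays near to the vertices touched in the first part. -/
theorem near_run {c : KConf K.L K.Q} (h : Good K c) (l l' : List Cmd) :
    ∀ z ∈ ctch K g c (l ++ l'), z < c.fresh →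
      z ∈ ball c.adj ((ctch K g c l).filter (· < c.fresh)) (rho K g * l'.length) := by
  have h1 := inv_run h (g := g) l
  have h2 : Inv K c ((ctch K g c l).filter (· < c.fresh)) (crun K g c l) (ctch K g c l) 0 := by
    refine ⟨h1.good0, h1.good, h1.head_mem, h1.fresh_le, h1.lt, h1.same, ?_⟩
    intro v hv hv0
    rw [mul_zero, ball_zero, mem_filter]
    exact ⟨hv, hv0⟩
  have h3 := h2.feeds g (codes l')
  rw [zero_add, codes_length] at h3
  intro z hz hz0
  have h4 := h3.near z (by
    have e1 : ctch K g c (l ++ l') = ctch K g c l ∪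
        (kdev K).tfeeds (tset K) g (crun K g c l) (codes l') := by
      simp only [ctch, codes_append, Dev.tfeeds_append, crun, union_assoc]
    rw [e1] at hz
    exact hz) hz0
  rwa [show K.r * ((g + 1) * (3 * l'.length)) = rho K g * l'.length by unfold rho; ring] at h4

theorem Good.adj_none {c : KConf K.L K.Q} (h : Good K c) {v : ℕ} (hv : c.fresh ≤ v) (l : K.L) :
    c.adj (v, l) = none := by
  cases e : c.adj (v, l) with
  | none => rfl
  | some b =>
    have := h.below _ _ (h.sym _ _ e)
    simp only at this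
    omega

/-- Two runs. -/
theorem run_congr {c c' : KConf K.L K.Q} (hq : c.q = c'.q) (hh : c.head = c'.head)
    (hf : c.fresh = c'.fresh) (l : List Cmd)
    (h : ∀ v ∈ ctch K g c l, v ∈ ctch K g c' l → ∀ x, c.adj (v, x) = c'.adj (v, x)) :
    ((kdev K).feeds g c (codes l)).2 = ((kdev K).feeds g c' (codes l)).2 :=
  feeds_congr g (codes l) hq hh hf fun v hv hv' x =>
    h v (mem_union_right _ hv) (mem_union_right _ hv') x

end

/-! ### The computations for a content -/

section

/-- What is assumed about the simulating machine. -/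
structure Hyp (K : KUM) (g : ℕ) (c0 : KConf K.L K.Q) : Prop where
  good : Good K c0
  out : ∀ l l' : List Cmd, ((kdev K).feeds g (crun K g c0 l) (codes l')).2 =
    ((Sp.init.steps l).1.steps l').2

variable {K : KUM} (g : ℕ) (c0 : KConf K.L K.Q) (P : Par)

/-- The configuration before the bits of the hubs less than `n` are written. -/
def cpre (b : ℕ → ℕ → Bool) (n : ℕ) : KConf K.L K.Q :=
  crun K g c0 (P.setup ++ P.upd b n (P.X - n))

/-- The last configuration. -/
def cfin (b : ℕ → ℕ → Bool) : KConf K.L K.Q := crun K g c0 (P.all b)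

/-- The vertices touched while the bits of the hubs less than `n` are written. -/
def cT (b : ℕ → ℕ → Bool) (n : ℕ) : Finset ℕ := ctch K g (cpre g c0 P b n) (P.upd b 0 n)

/-- The vertices touched in the first part of a query. -/
def cV (b : ℕ → ℕ → Bool) (a : ℕ) : Finset ℕ :=
  (ctch K g (cfin g c0 P b) (P.q1 a)).filter (· < (cfin g c0 P b).fresh)

/-- The radius. -/
def rad (K : KUM) : ℕ := rho K g * (P.s1 + P.sw + 2)

/-- The neighbourhood of a set in the last configuration. -/
def nbh (b : ℕ → ℕ → Bool) (S : Finset ℕ) : Finset ℕ :=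
  ball (cfin g c0 P b).adj S (rad g P K)

/-- The interesting vertices for a system and a block. -/
def cK (b : ℕ → ℕ → Bool) (n n' a : ℕ) : Finset ℕ :=
  (cV g c0 P b a).filter fun z => z ∈ nbh g c0 P b (cT g c0 P b n') ∧
    z ∉ nbh g c0 P b (cT g c0 P b n)

variable {g c0 P}

theorem cfin_eq (b : ℕ → ℕ → Bool) {n : ℕ} (hn : n ≤ P.X) :
    cfin g c0 P b = crun K g (cpre g c0 P b n) (P.upd b 0 n) := by
  unfold cfin cpre Par.all
  rw [← crun_append]
  congr 1
  have := P.upd_add b n (P.X - n)
  rw [show n + (P.X - n) = P.X by omega] at this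
  rw [this, List.append_assoc]

theorem good_pre (h : Good K c0) (b : ℕ → ℕ → Bool) (n : ℕ) : Good K (cpre g c0 P b n) :=
  good_run h _

theorem good_fin (h : Good K c0) (b : ℕ → ℕ → Bool) : Good K (cfin g c0 P b) :=
  good_run h _

theorem cpre_congr {b b' : ℕ → ℕ → Bool} {n : ℕ} (h : ∀ x, n ≤ x → b x = b' x) :
    cpre g c0 P b n = cpre g c0 P b' n := by
  unfold cpre
  rw [P.upd_congr h]

theorem card_cT (b : ℕ → ℕ → Bool) (n : ℕ) :
    (cT g c0 P b n).card ≤ gam K g * (n * P.w * (P.LX + P.sw + 3)) + 1 := by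
  have := card_ctch (g := g) (cpre g c0 P b n) (P.upd b 0 n)
  rwa [P.upd_length] at this

theorem card_cV (b : ℕ → ℕ → Bool) (a : ℕ) :
    (cV g c0 P b a).card ≤ gam K g * (P.na + 2) + 1 := by
  have := card_ctch (g := g) (cfin g c0 P b) (P.q1 a)
  rw [P.q1_length] at this
  exact (card_filter_le _ _).trans this

theorem card_nbh (b : ℕ → ℕ → Bool) (S : Finset ℕ) :
    (nbh g c0 P b S).card ≤ (1 + Fintype.card K.L) ^ rad g P K * S.card := card_ball _ _ _

theorem cT_mono (h : Good K c0) (b : ℕ → ℕ → Bool) {n n' : ℕ} (hn : n ≤ n') (hn' : n' ≤ P.X) :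
    cT g c0 P b n ⊆ cT g c0 P b n' := by
  have e1 : P.upd b 0 n' = P.upd b n (n' - n) ++ P.upd b 0 n := by
    have := P.upd_add b n (n' - n)
    rwa [show n + (n' - n) = n' by omega] at this
  have e2 : crun K g (cpre g c0 P b n') (P.upd b n (n' - n)) = cpre g c0 P b n := by
    unfold cpre
    rw [← crun_append]
    congr 1
    rw [List.append_assoc]
    congr 1
    unfold Par.upd
    rw [← List.flatMap_append]
    congr 1
    obtain ⟨k, rfl⟩ := Nat.exists_eq_add_of_le hn
    obtain ⟨j, hj⟩ := Nat.exists_eq_add_of_le hn'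
    rw [hj, show n + k + j - (n + k) = j by omega, show n + k - n = k by omega,
      show n + k + j - n = k + j by omega]
    clear hj
    induction j with
    | zero => simp [Par.bitsList]
    | succ j ih =>
      rw [Par.bitsList, List.append_assoc, ih, ← add_assoc, Par.bitsList, add_assoc]
  unfold cT
  rw [e1, ctch_append (good_pre h b n'), e2]
  exact subset_union_right

theorem nbh_mono (b : ℕ → ℕ → Bool) {S T : Finset ℕ} (h : S ⊆ T) :
    nbh g c0 P b S ⊆ nbh g c0 P b T := ball_mono h _

/-- The touched vertices. -/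
theorem mem_query (h : Good K c0) (b : ℕ → ℕ → Bool) (a e v j : ℕ) {z : ℕ}
    (hz : z ∈ ctch K g (cfin g c0 P b) (P.q1 a ++ P.q2 e v j))
    (hz0 : z < (cfin g c0 P b).fresh) : z ∈ nbh g c0 P b (cV g c0 P b a) := by
  have := near_run (good_fin h b) (P.q1 a) (P.q2 e v j) z hz hz0
  rw [P.q2_length] at this
  exact this

/-- The interesting touched vertices. -/
theorem mem_query' (h : Good K c0) (b : ℕ → ℕ → Bool) (n n' a e v j : ℕ) {z : ℕ} {Pt : Finset ℕ}
    (hP : cK g c0 P b n n' a ⊆ Pt)
    (hz : z ∈ ctch K g (cfin g c0 P b) (P.q1 a ++ P.q2 e v j))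
    (hz0 : z < (cfin g c0 P b).fresh) (hzT : z ∈ cT g c0 P b n') :
    z ∈ nbh g c0 P b (nbh g c0 P b (cT g c0 P b n)) ∪ nbh g c0 P b Pt := by
  have h1 := mem_query h b a e v j hz hz0
  unfold nbh at h1
  rw [mem_ball_iff] at h1
  obtain ⟨y, hy, h2⟩ := h1
  have h3 : y ∈ nbh g c0 P b (cT g c0 P b n') :=
    mem_ball_iff.2 ⟨z, hzT, ball_symm (good_fin h b).sym h2⟩
  rw [mem_union]
  by_cases h4 : y ∈ nbh g c0 P b (cT g c0 P b n)
  · left
    exact mem_ball_iff.2 ⟨y, h4, h2⟩
  · right
    refine mem_ball_iff.2 ⟨y, hP ?_, h2⟩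
    exact mem_filter.2 ⟨hy, h3, h4⟩

/-- The part of the graph which belongs to the data. -/
def cY (g : ℕ) (c0 : KConf K.L K.Q) (P : Par) (b : ℕ → ℕ → Bool) (n : ℕ) (Pt : Finset ℕ) :
    Finset ℕ :=
  (nbh g c0 P b (nbh g c0 P b (cT g c0 P b n)) ∪ nbh g c0 P b Pt).filter
    (· < (cfin g c0 P b).fresh)

/-- Two contents with the same data have the same bits. -/
theorem two_contents (H : Hyp K g c0) {b b' : ℕ → ℕ → Bool} {n n' a e : ℕ} {Pt Pt' : Finset ℕ}
    (hn' : n' ≤ P.X)
    (hagree : ∀ x, n' ≤ x → b x = b' x)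
    (hq : (cfin g c0 P b).q = (cfin g c0 P b').q)
    (hh : (cfin g c0 P b).head = (cfin g c0 P b').head)
    (hf : (cfin g c0 P b).fresh = (cfin g c0 P b').fresh)
    (hP : cK g c0 P b n n' a ⊆ Pt) (hP' : cK g c0 P b' n n' a ⊆ Pt')
    (hY : ∀ z ∈ cY g c0 P b n Pt, z ∈ cY g c0 P b' n Pt' ∧
        ∀ x, (cfin g c0 P b).adj (z, x) = (cfin g c0 P b').adj (z, x))
    (hY' : ∀ z ∈ cY g c0 P b' n Pt', z ∈ cY g c0 P b n Pt)
    (ha : a < 2 ^ P.na) (he : e < P.E) {v : ℕ} (hv : v < P.kp) {j : ℕ} (hj : j < P.w) :
    b (P.G a e v) j = b' (P.G a e v) j := by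
  have h1 := H.out (P.all b) (P.q1 a ++ P.q2 e v j)
  have h2 := H.out (P.all b') (P.q1 a ++ P.q2 e v j)
  rw [P.steps_query b ha he hv hj] at h1
  rw [P.steps_query b' ha he hv hj] at h2
  have h3 := run_congr (g := g) hq hh hf (P.q1 a ++ P.q2 e v j) (by
    intro z hz hz' x
    by_cases hz0 : z < (cfin g c0 P b).fresh
    · have hz0' : z < (cfin g c0 P b').fresh := by rwa [← hf]
      by_cases hzY : z ∈ cY g c0 P b n Pt
      · exact (hY z hzY).2 x
      · have k1 : z ∉ cT g c0 P b n' := fun hzT =>
          hzY (mem_filter.2 ⟨mem_query' H.good b n n' a e v j hP hz hz0 hzT, hz0⟩)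
        have k2 : z ∉ cT g c0 P b' n' := fun hzT =>
          hzY (hY' z (mem_filter.2 ⟨mem_query' H.good b' n n' a e v j hP' hz' hz0' hzT, hz0'⟩))
        have k3 := same_run (good_pre H.good b n') _ k1 x
        have k4 := same_run (good_pre H.good b' n') _ k2 x
        rw [← cfin_eq b hn'] at k3
        rw [← cfin_eq b' hn'] at k4
        rw [k3, k4, cpre_congr hagree]
    · rw [(good_fin H.good b).adj_none (by omega), (good_fin H.good b').adj_none (by omega)])
  have h4 : [b (P.G a e v) j] = [b' (P.G a e v) j] := by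
    rw [← h1, ← h2]
    exact h3
  simpa using h4

end

end Pool.Agent.V7H69.KS
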